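import Pool.Agent.Run7.h694.Star

/-! Adding vertices and long paths to a graph. -/

namespace Run7.h694.Mnh

variable {V W U : Type}

/-- Add one vertex `none`, adjacent to the vertices of `N`. -/
def cone (G : SimpleGraph V) (N : Set V) : SimpleGraph (Option V) where
  Adj p q := match p, q with
    | some u, some v => G.Adj u v
    | none, some v => v ∈ N
    | some u, none => u ∈ N
    | none, none => False
  symm := ⟨by
    rintro (_ | u) (_ | v) h
    · exact h
    · exact h
    · exact h
    · exact SimpleGraph.Adj.symm h⟩
  loopless := ⟨by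
    rintro (_ | u) h
    · exact h
    · exact G.irrefl h⟩

theorem cone_some {G : SimpleGraph V} {N : Set V} {u v : V} :
    (cone G N).Adj (some u) (some v) ↔ G.Adj u v := Iff.rfl

theorem cone_none {G : SimpleGraph V} {N : Set V} {v : V} :
    (cone G N).Adj none (some v) ↔ v ∈ N := Iff.rfl

theorem cone_none' {G : SimpleGraph V} {N : Set V} {v : V} :
    (cone G N).Adj (some v) none ↔ v ∈ N := Iff.rfl

/-- Lists which avoid `none`. -/
theorem list_some {L : List (Option V)} (h : none ∉ L) : ∃ L0 : List V, L = L0.map some := by
  have : ∀ p ∈ L, ∃ i : V, True ∧ some i = p := by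
    intro p hp
    cases p with
    | none => exact absurd hp h
    | some v => exact ⟨v, trivial, rfl⟩
  obtain ⟨L0, h1, _⟩ := lift_list some (fun _ : V => True) L this
  exact ⟨L0, h1.symm⟩

theorem cone_cyc {G : SimpleGraph V} {N : Set V} {L : List (Option V)} (hL : CycL (cone G N) L) :
    (∃ L0, CycL G L0 ∧ L = L0.map some) ∨
    (∃ (P : List V) (a b : V), P.Nodup ∧ P.IsChain G.Adj ∧ P.head? = some a ∧
      P.getLast? = some b ∧ a ∈ N ∧ b ∈ N ∧ a ≠ b ∧ L.length = P.length + 1) := by
  by_cases hn : none ∈ L
  · right
    obtain ⟨s, t, rfl⟩ := List.append_of_mem hn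
    have hc : CycL (cone G N) (none :: (t ++ s)) := by simpa using hL.rot
    have hlen : (s ++ none :: t).length = (none :: (t ++ s)).length := by
      simp only [List.length_append, List.length_cons]; omega
    rw [hlen]
    generalize t ++ s = l at hc
    obtain ⟨P, rfl⟩ := list_some (List.nodup_cons.1 hc.1).1
    have hP2 : 2 ≤ P.length := by
      have := hc.2.1
      simp only [List.length_cons, List.length_map] at this
      omega
    rcases ha : P.head? with _ | a
    · rw [List.head?_eq_none_iff] at ha
      subst ha; simp at hP2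
    rcases hb : P.getLast? with _ | b
    · rw [List.getLast?_eq_none_iff] at hb
      subst hb; simp at hP2
    have hnd : P.Nodup := List.Nodup.of_map some (List.nodup_cons.1 hc.1).2
    have hch := List.isChain_cons.1 hc.2.2.1
    refine ⟨P, a, b, hnd, ?_, ha, hb, ?_, ?_, ?_, by simp⟩
    · have := hch.2
      rw [List.isChain_map] at this
      exact this
    · have := hch.1 (some a) (by rw [List.head?_map, ha]; rfl)
      exact this
    · have h1 : (none :: P.map some).getLast? = some (some b) := by
        obtain ⟨q, rfl⟩ := getLast?_eq_append hb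
        rw [List.map_append]
        have : none :: (q.map some ++ [b].map some) = (none :: q.map some) ++ [some b] := by simp
        rw [this, List.getLast?_append]; rfl
      have := hc.2.2.2 (some b) (by rw [h1]; rfl) none (by simp)
      exact this
    · rintro rfl
      have := nodup_head_last hnd ha hb
      rw [this] at hP2
      simp at hP2
  · left
    obtain ⟨L0, rfl⟩ := list_some hn
    refine ⟨L0, ⟨List.Nodup.of_map some hL.1, by simpa using hL.2.1, ?_, ?_⟩, rfl⟩
    · have := hL.2.2.1
      rw [List.isChain_map] at this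
      exact this
    · intro a ha b hb
      refine (hL.2.2.2 (some a) ?_ (some b) ?_ : (cone G N).Adj (some a) (some b))
      · simp only [Option.mem_def] at ha
        simp [ha]
      · simp only [Option.mem_def] at hb
        simp [hb]

/-- `K` arises from `G` by attaching a path `N` at `u`. -/
structure Pend (G : SimpleGraph V) (u : V) (K : SimpleGraph U) (f : V → U) (N : List U) :
    Prop where
  finj : Function.Injective f
  nN : N.Nodup
  disj : ∀ v, f v ∉ N
  cov : ∀ p, p ∈ N ∨ ∃ v, f v = p
  fadj : ∀ a b, K.Adj (f a) (f b) ↔ G.Adj a b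
  nadj : ∀ z, ∀ p ∈ N, K.Adj (f z) p → z = u
  ch : (N ++ [f u]).IsChain K.Adj
  far : ∀ P : List U, P.Nodup → P.IsChain K.Adj → ∀ w, P.head? = (N ++ [f u]).head? →
    P.getLast? = some (f w) → N.length < P.length
  cyc : ∀ L, CycL K L → ∃ L0, CycL G L0 ∧ L = L0.map f

theorem exists_pend (G : SimpleGraph V) (u : V) [Finite V] (l : ℕ) :
    ∃ (U : Type) (_ : Finite U) (K : SimpleGraph U) (f : V → U) (N : List U),
      Pend G u K f N ∧ N.length = l ∧ Nat.card U = Nat.card V + l := by
  induction l with
  | zero =>
    refine ⟨V, inferInstance, G, id, [], ?_, rfl, by simp⟩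
    refine ⟨Function.injective_id, by simp, by simp, ?_, by simp, by simp, by simp, ?_, ?_⟩
    · intro p; right; exact ⟨p, rfl⟩
    · intro P _ _ w _ h
      cases P with
      | nil => simp at h
      | cons a P => simp
    · intro L hL
      exact ⟨L, hL, by simp⟩
  | succ l ih =>
    obtain ⟨U, _, K, f, N, h, hl, hc⟩ := ih
    obtain ⟨r, hr⟩ : ∃ r, (N ++ [f u]).head? = some r := by
      cases N with
      | nil => exact ⟨f u, rfl⟩
      | cons a N => exact ⟨a, rfl⟩
    refine ⟨Option U, inferInstance, cone K {r}, fun v => some (f v), none :: N.map some, ?_,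
      by simp [hl], by rw [Finite.card_option, hc]; ring⟩
    refine ⟨?_, ?_, ?_, ?_, ?_, ?_, ?_, ?_, ?_⟩
    · intro a b hab
      exact h.finj (Option.some.inj hab)
    · rw [List.nodup_cons]
      exact ⟨by simp, h.nN.map (Option.some_injective _)⟩
    · intro v hv
      rcases List.mem_cons.1 hv with hv | hv
      · simp at hv
      · obtain ⟨p, hp, hp'⟩ := List.mem_map.1 hv
        rw [Option.some.inj hp'] at hp
        exact h.disj v hp
    · intro p
      cases p with
      | none => left; simp
      | some p =>
        rcases h.cov p with hp | ⟨v, rfl⟩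
        · left; simp [hp]
        · right; exact ⟨v, rfl⟩
    · intro a b
      exact h.fadj a b
    · intro z p hp hz
      rcases List.mem_cons.1 hp with rfl | hp
      · have hz' : f z = r := hz
        cases N with
        | nil =>
          simp at hr
          rw [← hr] at hz'
          exact h.finj hz'
        | cons a N =>
          simp at hr
          rw [← hr] at hz'
          exact absurd (by rw [hz']; simp) (h.disj z)
      · obtain ⟨q, hq, rfl⟩ := List.mem_map.1 hp
        exact h.nadj z q hq hz
    · have e : none :: N.map some ++ [some (f u)] = none :: (N ++ [f u]).map some := by simp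
      rw [e, List.isChain_cons]
      refine ⟨?_, ?_⟩
      · intro q hq
        rw [List.head?_map, hr] at hq
        simp at hq
        subst hq
        exact (cone_none (G := K) (N := {r})).2 rfl
      · rw [List.isChain_map]
        exact h.ch
    · intro P hn hc' w hh hl'
      obtain ⟨P', rfl⟩ : ∃ P', P = none :: P' := by
        cases P with
        | nil => simp at hh
        | cons a P => simp at hh; exact ⟨P, by rw [hh]⟩
      have hn' := List.nodup_cons.1 hn
      obtain ⟨P0, rfl⟩ := list_some hn'.1
      have hch := List.isChain_cons.1 hc'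
      have hne : P0 ≠ [] := by
        rintro rfl
        simp at hl'
      obtain ⟨a, ha⟩ : ∃ a, P0.head? = some a := by
        cases P0 with
        | nil => exact absurd rfl hne
        | cons a P => exact ⟨a, rfl⟩
      have h1 : a = r := by
        have := hch.1 (some a) (by rw [List.head?_map, ha]; rfl)
        exact this
      have h2 : P0.getLast? = some (f w) := by
        obtain ⟨b, hb⟩ : ∃ b, P0.getLast? = some b := by
          rcases List.eq_nil_or_concat P0 with h | ⟨q, b, h⟩
          · exact absurd h hne
          · exact ⟨b, by rw [h]; simp⟩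
        obtain ⟨q, hq⟩ := getLast?_eq_append hb
        have e : (none :: P0.map some).getLast? = some (some b) := by
          rw [hq, List.map_append]
          have : none :: (q.map some ++ [b].map some) = (none :: q.map some) ++ [some b] := by simp
          rw [this, List.getLast?_append]; rfl
        rw [e] at hl'
        rw [hb]
        simpa using hl'
      have := h.far P0 (List.Nodup.of_map some hn'.2) (by
        have := hch.2
        rw [List.isChain_map] at this
        exact this) w (by rw [ha, hr, h1]) h2
      simp only [List.length_cons, List.length_map]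
      omega
    · intro L hL
      rcases cone_cyc hL with ⟨L0, h1, rfl⟩ | ⟨P, a, b, _, _, _, _, ha, hb, hab, _⟩
      · obtain ⟨L1, h2, rfl⟩ := h.cyc L0 h1
        exact ⟨L1, h2, by simp⟩
      · have ha' : a = r := ha
        have hb' : b = r := hb
        exact absurd (ha'.trans hb'.symm) hab

/-- `K` arises from `G` by adding a path `N` between `w` and `u`. -/
structure AddP (g : ℕ) (G : SimpleGraph V) (u w : V) (K : SimpleGraph U) (f : V → U)
    (N : List U) : Prop where
  finj : Function.Injective f
  nN : N.Nodup
  ne : N ≠ []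
  disj : ∀ v, f v ∉ N
  cov : ∀ p, p ∈ N ∨ ∃ v, f v = p
  fadj : ∀ a b, K.Adj (f a) (f b) ↔ G.Adj a b
  nadj : ∀ z, ∀ p ∈ N, K.Adj (f z) p → z = u ∨ z = w
  ch : (f w :: (N ++ [f u])).IsChain K.Adj
  cyc : ∀ L, CycL K L → (∃ L0, CycL G L0 ∧ L = L0.map f) ∨ g ≤ L.length

theorem exists_addP (g : ℕ) (G : SimpleGraph V) (u w : V) [Finite V] :
    ∃ (U : Type) (_ : Finite U) (K : SimpleGraph U) (f : V → U) (N : List U),
      AddP g G u w K f N := by
  obtain ⟨U, _, K, f, N, h, hl, _⟩ := exists_pend G u (g + 1)
  obtain ⟨r, N', hr⟩ : ∃ r N', N = r :: N' := by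
    cases N with
    | nil => simp at hl
    | cons a N => exact ⟨a, N, rfl⟩
  refine ⟨Option U, inferInstance, cone K {p | p = r ∨ p = f w}, fun v => some (f v),
    none :: N.map some, ?_⟩
  refine ⟨?_, ?_, by simp, ?_, ?_, ?_, ?_, ?_, ?_⟩
  · intro a b hab
    exact h.finj (Option.some.inj hab)
  · rw [List.nodup_cons]
    exact ⟨by simp, h.nN.map (Option.some_injective _)⟩
  · intro v hv
    rcases List.mem_cons.1 hv with hv | hv
    · simp at hv
    · obtain ⟨p, hp, hp'⟩ := List.mem_map.1 hv
      rw [Option.some.inj hp'] at hp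
      exact h.disj v hp
  · intro p
    cases p with
    | none => left; simp
    | some p =>
      rcases h.cov p with hp | ⟨v, rfl⟩
      · left; simp [hp]
      · right; exact ⟨v, rfl⟩
  · intro a b
    exact h.fadj a b
  · intro z p hp hz
    rcases List.mem_cons.1 hp with rfl | hp
    · rcases (hz : f z = r ∨ f z = f w) with e | e
      · exact absurd (by rw [e, hr]; simp) (h.disj z)
      · exact Or.inr (h.finj e)
    · obtain ⟨q, hq, rfl⟩ := List.mem_map.1 hp
      exact Or.inl (h.nadj z q hq hz)
  · have e : some (f w) :: ((none :: N.map some) ++ [some (f u)]) =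
        some (f w) :: none :: (N ++ [f u]).map some := by simp
    rw [e, List.isChain_cons_cons, List.isChain_cons]
    refine ⟨?_, ?_, ?_⟩
    · exact (cone_none' (G := K) (N := {p | p = r ∨ p = f w})).2 (Or.inr rfl)
    · intro q hq
      rw [hr] at hq
      simp at hq
      subst hq
      exact (cone_none (G := K) (N := {p | p = r ∨ p = f w})).2 (Or.inl rfl)
    · rw [List.isChain_map]
      exact h.ch
  · intro L hL
    rcases cone_cyc hL with ⟨L0, h1, rfl⟩ | ⟨P, a, b, h1, h2, h3, h4, ha, hb, hab, hlen⟩
    · obtain ⟨L1, h2, rfl⟩ := h.cyc L0 h1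
      exact Or.inl ⟨L1, h2, by simp⟩
    · right
      have hhead : (N ++ [f u]).head? = some r := by rw [hr]; rfl
      rcases (ha : a = r ∨ a = f w) with e | e
      · rcases (hb : b = r ∨ b = f w) with e' | e'
        · exact absurd (e.trans e'.symm) hab
        · have := h.far P h1 h2 w (by rw [h3, hhead, e]) (by rw [h4, e'])
          omega
      · rcases (hb : b = r ∨ b = f w) with e' | e'
        · have := h.far P.reverse (by simpa using h1) (by
            rw [List.isChain_reverse]
            exact h2.imp fun a b h => h.symm) w (by rw [List.head?_reverse, h4, hhead, e'])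
            (by rw [List.getLast?_reverse, h3, e])
          rw [List.length_reverse] at this
          omega
        · exact absurd (e.trans e'.symm) hab

section

variable {g : ℕ} {G : SimpleGraph V} {u w : V} {K : SimpleGraph U} {f : V → U} {N : List U}

theorem AddP.symm (h : AddP g G u w K f N) : AddP g G w u K f N.reverse where
  finj := h.finj
  nN := by simpa using h.nN
  ne := by simpa using h.ne
  disj := fun v => by simpa using h.disj v
  cov := fun p => by simpa using h.cov p
  fadj := h.fadj
  nadj := fun z p hp hz => (h.nadj z p (by simpa using hp) hz).symm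
  ch := by
    have e : f u :: (N.reverse ++ [f w]) = (f w :: (N ++ [f u])).reverse := by simp
    rw [e, List.isChain_reverse]
    exact h.ch.imp fun a b h => h.symm
  cyc := h.cyc

theorem AddP.ham (h : AddP g G u w K f N) {S T : Set V} {s t : V} (h1 : HP G S s u)
    (h2 : HP G T w t) (hd : ∀ p, p ∈ S → p ∈ T → False) :
    HP K (f '' S ∪ {p | p ∈ N} ∪ f '' T) (f s) (f t) := by
  have m1 := h1.map (H := K) f (fun p q _ _ e => h.finj e) (fun p q _ _ e => (h.fadj p q).2 e)
  have m2 := h2.map (H := K) f (fun p q _ _ e => h.finj e) (fun p q _ _ e => (h.fadj p q).2 e)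
  -- the new path
  have hch := h.ch
  obtain ⟨a, N1, ha⟩ : ∃ a N1, N = a :: N1 := by
    cases hN : N with
    | nil => exact absurd hN h.ne
    | cons a N1 => exact ⟨a, N1, rfl⟩
  obtain ⟨b, N2, hb⟩ : ∃ b N2, N = N2 ++ [b] := by
    rcases List.eq_nil_or_concat N with h' | ⟨q, b, h'⟩
    · exact absurd h' h.ne
    · exact ⟨b, q, by simpa using h'⟩
  have hc1 := List.isChain_cons.1 hch
  have hwa : K.Adj (f w) a := hc1.1 a (by rw [ha]; rfl)
  have hc2 := List.isChain_append.1 hc1.2
  have hbu : K.Adj b (f u) := hc2.2.2 b (by rw [hb]; simp) (f u) (by simp)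
  have m3 : HP K {p | p ∈ N} b a := by
    refine ⟨N.reverse, by simpa using h.nN, by simp, ?_, ?_, ?_⟩
    · rw [List.isChain_reverse]
      exact hc2.1.imp fun a b h => h.symm
    · rw [List.head?_reverse, hb]; simp
    · rw [List.getLast?_reverse, ha]; rfl
  have t1 := m1.append m3 (by
    rintro p ⟨q, _, rfl⟩ hq
    exact h.disj q hq) hbu.symm
  exact t1.append m2 (by
    rintro p (⟨q, hq, rfl⟩ | hp) ⟨r, hr, e⟩
    · rw [h.finj e] at hr
      exact hd q hq hr
    · rw [← e] at hp
      exact h.disj r hp) hwa.symm

theorem AddP.deg (h : AddP g G u w K f N) {z : V} {τ : Fin 3 → V} (hz : Deg3 G z τ) (h1 : z ≠ u)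
    (h2 : z ≠ w) : Deg3 K (f z) (fun a => f (τ a)) := by
  refine ⟨fun a b hab => hz.inj _ _ (h.finj hab), ?_⟩
  intro p
  constructor
  · intro hp
    rcases h.cov p with hp' | ⟨v, rfl⟩
    · rcases h.nadj z p hp' hp with e | e
      · exact absurd e h1
      · exact absurd e h2
    · obtain ⟨a, ha⟩ := (hz.adj v).1 ((h.fadj z v).1 hp)
      exact ⟨a, by rw [ha]⟩
  · rintro ⟨a, rfl⟩
    exact (h.fadj _ _).2 (hz.adj' a)

end

end Run7.h694.Mnh
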