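import Pool.Agent.Run7.h694.Paths

/-! From lists to walks and back. -/

namespace Run7.h694.Mnh

variable {V : Type}

theorem chain_closed {G : SimpleGraph V} {a : V} {l : List V} (h : (a :: l).IsChain G.Adj)
    (hl : l.getLast? = some a) : ∀ b ∈ l.getLast?, ∀ c ∈ l.head?, G.Adj b c := by
  intro b hb c hc
  rw [hl] at hb
  simp at hb
  subst hb
  exact (List.isChain_cons.1 h).1 c hc

theorem getLast?_support_tail {G : SimpleGraph V} {u v : V} (p : G.Walk u v) (hp : ¬ p.Nil) :
    p.support.tail.getLast? = some v := by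
  have h1 : p.support.getLast? = some v := by
    rw [List.getLast?_eq_some_getLast p.support_ne_nil, SimpleGraph.Walk.getLast_support]
  cases p with
  | nil => simp at hp
  | cons h q =>
    rw [SimpleGraph.Walk.support_cons] at h1 ⊢
    rw [List.tail_cons]
    rw [List.getLast?_cons] at h1
    rcases hq : q.support.getLast? with _ | b
    · have := q.support_ne_nil
      rw [List.getLast?_eq_none_iff] at hq
      exact absurd hq this
    · rw [hq] at h1
      simpa using h1

theorem cycL_of_isCycle {G : SimpleGraph V} {a : V} {c : G.Walk a a} (hc : c.IsCycle) :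
    CycL G c.support.tail ∧ c.support.tail.length = c.length := by
  have hlen : c.support.tail.length = c.length := by
    rw [List.length_tail, SimpleGraph.Walk.length_support]; rfl
  have hch : (a :: c.support.tail).IsChain G.Adj := by
    rw [SimpleGraph.Walk.cons_tail_support]
    exact c.isChain_adj_support
  refine ⟨⟨hc.support_nodup, by rw [hlen]; exact hc.three_le_length,
    (List.isChain_cons.1 hch).2, ?_⟩, hlen⟩
  exact chain_closed hch (getLast?_support_tail c hc.not_nil)

/-- Walk with a prescribed support. -/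
theorem exists_walk {G : SimpleGraph V} {l : List V} {u v : V} (hc : l.IsChain G.Adj)
    (hu : l.head? = some u) (hv : l.getLast? = some v) :
    ∃ p : G.Walk u v, p.support = l := by
  have hne : l ≠ [] := by
    rintro rfl
    simp at hu
  have h1 : l.head hne = u := by
    rw [List.head?_eq_some_head hne] at hu
    exact Option.some.inj hu
  have h2 : l.getLast hne = v := by
    rw [List.getLast?_eq_some_getLast hne] at hv
    exact Option.some.inj hv
  refine ⟨(SimpleGraph.Walk.ofSupport l hne hc).copy h1 h2, ?_⟩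
  rw [SimpleGraph.Walk.support_copy, SimpleGraph.Walk.support_ofSupport]

theorem exists_cycle {G : SimpleGraph V} {L : List V} (h : CycL G L) :
    ∃ (a : V) (c : G.Walk a a), c.IsCycle ∧ c.length = L.length := by
  obtain ⟨h1, h2, h3, h4⟩ := h
  rcases hu : L.head? with _ | u
  · rw [List.head?_eq_none_iff] at hu
    subst hu; simp at h2
  rcases hv : L.getLast? with _ | v
  · rw [List.getLast?_eq_none_iff] at hv
    subst hv; simp at h2
  obtain ⟨p, hp⟩ := exists_walk h3 hu hv
  have ha : G.Adj v u := h4 v (by rw [hv]; rfl) u (by rw [hu]; rfl)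
  have hlen : (SimpleGraph.Walk.cons ha p).length = L.length := by
    rw [SimpleGraph.Walk.length_cons, ← hp, SimpleGraph.Walk.length_support]
  refine ⟨v, SimpleGraph.Walk.cons ha p, ?_, hlen⟩
  rw [SimpleGraph.Walk.isCycle_iff_isPath_tail_and_le_length]
  refine ⟨?_, by rw [hlen]; exact h2⟩
  rw [SimpleGraph.Walk.isPath_def]
  have : (SimpleGraph.Walk.cons ha p).tail.support = p.support := by
    simp
  rw [this, hp]; exact h1

theorem girth_seven {G : SimpleGraph V} (h1 : ∀ L, CycL G L → 7 ≤ L.length)
    (h2 : ∃ L, CycL G L ∧ L.length = 7) : G.girth = 7 := by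
  have e1 : (7 : ℕ∞) ≤ G.egirth := by
    rw [SimpleGraph.le_egirth]
    intro a w hw
    obtain ⟨hc, hl⟩ := cycL_of_isCycle hw
    have := h1 _ hc
    rw [hl] at this
    exact_mod_cast this
  have e2 : G.egirth ≤ (7 : ℕ∞) := by
    obtain ⟨L, hL, hL7⟩ := h2
    obtain ⟨a, c, hc, hcl⟩ := exists_cycle hL
    have := SimpleGraph.egirth_le_length hc
    rw [hcl, hL7] at this
    exact_mod_cast this
  have e3 : G.egirth = 7 := le_antisymm e2 e1
  unfold SimpleGraph.girth
  rw [e3]; rfl

theorem hc_of_isHamiltonian {G : SimpleGraph V} [Fintype V] [DecidableEq V]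
    (hcard : Fintype.card V ≠ 1) (h : G.IsHamiltonian) : HC G := by
  obtain ⟨a, p, hp⟩ := h hcard
  refine ⟨p.support.tail, (cycL_of_isCycle hp.isCycle).1, ?_⟩
  intro v
  have := (SimpleGraph.Walk.isHamiltonianCycle_iff_isCycle_and_support_count_tail_eq_one.1 hp).2 v
  rw [← List.count_pos_iff]
  omega

theorem isHamiltonian_of_hp {G : SimpleGraph V} [Fintype V] [DecidableEq V] {u v : V}
    (huv : u ≠ v) (hn : ¬ G.Adj u v) (h : HP G Set.univ u v) :
    (G ⊔ SimpleGraph.edge u v).IsHamiltonian := by
  intro _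
  obtain ⟨l, h1, h2, h3, h4, h5⟩ := h
  obtain ⟨p, hp⟩ := exists_walk h3 h4 h5
  have hle : G ≤ G ⊔ SimpleGraph.edge u v := le_sup_left
  have ha : (G ⊔ SimpleGraph.edge u v).Adj v u := by
    rw [SimpleGraph.sup_adj, SimpleGraph.edge_adj]
    exact Or.inr ⟨Or.inr ⟨rfl, rfl⟩, huv.symm⟩
  have hpath : (p.mapLe hle).IsPath := by
    rw [SimpleGraph.Walk.isPath_def, SimpleGraph.Walk.support_mapLe_eq_support, hp]
    exact h1
  refine ⟨v, SimpleGraph.Walk.cons ha (p.mapLe hle), ?_⟩
  rw [SimpleGraph.Walk.isHamiltonianCycle_iff_isCycle_and_length_eq]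
  constructor
  · rw [SimpleGraph.Walk.cons_isCycle_iff]
    refine ⟨hpath, ?_⟩
    rw [SimpleGraph.Walk.edges_mapLe_eq_edges]
    intro he
    exact hn (p.adj_of_mem_edges he).symm
  · rw [SimpleGraph.Walk.length_cons, SimpleGraph.Walk.length_mapLe,
      ← SimpleGraph.Walk.length_support, hp]
    have : l.toFinset = Finset.univ := by
      ext w
      simp [h2 w]
    rw [← Finset.card_univ, ← this, List.toFinset_card_of_nodup h1]

end Run7.h694.Mnh
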