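import Pool.Agent.Run7.h694.Good

/-! The Coxeter graph and kernel friendly checks for it. -/

namespace Run7.h694.Mnh

/-- Adjacency matrix of the Coxeter graph, as a bit string. -/
def coxM : ℕ := 44513798931975309039980262705492606785720544619449037214563967589199211564347722203480119027237924910457646633899464955179598841537447171289581416634952945531171731355061953760615178687329566081037503465312423113897016606835126404382720

/-- Adjacency of the Coxeter graph. -/
def adjN (i j : ℕ) : Bool := coxM.testBit (28 * i + j)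

theorem adjN_symm : ∀ i j : Fin 28, adjN i j = true → adjN j i = true := by
  decide +kernel

theorem adjN_irr : ∀ i : Fin 28, adjN i i = false := by
  decide +kernel

/-- The Coxeter graph; vertex `27` has the neighbours `24, 25, 26`. -/
def cox : SimpleGraph (Fin 28) where
  Adj i j := adjN i j = true
  symm := ⟨fun i j h => adjN_symm i j h⟩
  loopless := ⟨fun i h => by rw [adjN_irr] at h; exact Bool.false_ne_true h⟩

theorem cox_adj (i j : Fin 28) : cox.Adj i j ↔ adjN i j = true := Iff.rfl

/-- Checks that the digits of the code are a path which starts at `cur`, ends at `v`, avoids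
`mask` and covers exactly `S`. -/
def walkc (v S : ℕ) : ℕ → ℕ → ℕ → ℕ → Bool
  | 0, _, _, _ => false
  | k + 1, code, cur, mask =>
    if code = 0 then Nat.beq cur v && Nat.beq mask S
    else Nat.ble (code % 32 - 1) 27 && adjN cur (code % 32 - 1) &&
      (!(mask.testBit (code % 32 - 1))) &&
      walkc v S k (code / 32) (code % 32 - 1) (mask ||| 1 <<< (code % 32 - 1))

theorem testBit_add (mask w i : ℕ) :
    (mask ||| 1 <<< w).testBit i = true ↔ mask.testBit i = true ∨ i = w := by
  rw [Nat.testBit_or, Nat.one_shiftLeft, Nat.testBit_two_pow, Bool.or_eq_true, decide_eq_true_iff]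
  constructor
  · rintro (h | h)
    · exact Or.inl h
    · exact Or.inr h.symm
  · rintro (h | h)
    · exact Or.inl h
    · exact Or.inr h.symm

theorem walkc_sound (v : Fin 28) (S : ℕ) : ∀ (k code : ℕ) (cur : Fin 28) (mask : ℕ),
    walkc v S k code cur mask = true → ∃ L : List (Fin 28),
      (cur :: L).IsChain cox.Adj ∧ L.Nodup ∧ (∀ w ∈ L, mask.testBit w.val = false) ∧
      (∀ w : Fin 28, S.testBit w.val = true ↔ mask.testBit w.val = true ∨ w ∈ L) ∧
      (cur :: L).getLast? = some v := by
  intro k
  induction k with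
  | zero => intro code cur mask h; simp [walkc] at h
  | succ k ih =>
    intro code cur mask h
    rw [walkc] at h
    by_cases hc : code = 0
    · rw [if_pos hc, Bool.and_eq_true] at h
      replace h : cur.val = v.val ∧ mask = S :=
        ⟨Nat.eq_of_beq_eq_true h.1, Nat.eq_of_beq_eq_true h.2⟩
      have hcv : cur = v := Fin.ext h.1
      refine ⟨[], by simp, by simp, by simp, ?_, by simp [hcv]⟩
      intro w
      rw [← h.2]; simp
    · rw [if_neg hc, Bool.and_eq_true, Bool.and_eq_true, Bool.and_eq_true] at h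
      obtain ⟨⟨⟨h1, h2⟩, h3⟩, h4⟩ := h
      have h1' : code % 32 - 1 < 28 := by
        have := Nat.le_of_ble_eq_true h1
        omega
      obtain ⟨L, k1, k2, k3, k4, k5⟩ := ih (code / 32) ⟨code % 32 - 1, h1'⟩ _ h4
      have h3' : mask.testBit (code % 32 - 1) = false := by simpa using h3
      refine ⟨⟨code % 32 - 1, h1'⟩ :: L, ?_, ?_, ?_, ?_, ?_⟩
      · rw [List.isChain_cons_cons]
        exact ⟨h2, k1⟩
      · rw [List.nodup_cons]
        refine ⟨?_, k2⟩
        intro hm
        have := k3 _ hm
        rw [← Bool.not_eq_true] at this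
        exact this ((testBit_add _ _ _).2 (Or.inr rfl))
      · intro w hw
        rcases List.mem_cons.1 hw with rfl | hw
        · exact h3'
        · have := k3 w hw
          rw [← Bool.not_eq_true] at this ⊢
          exact fun e => this ((testBit_add _ _ _).2 (Or.inl e))
      · intro w
        rw [k4 w, testBit_add, List.mem_cons, or_assoc]
        constructor
        · rintro (e | e | e)
          · exact Or.inl e
          · exact Or.inr (Or.inl (Fin.ext e))
          · exact Or.inr (Or.inr e)
        · rintro (e | e | e)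
          · exact Or.inl e
          · exact Or.inr (Or.inl (by rw [e]))
          · exact Or.inr (Or.inr e)
      · rw [List.getLast?_cons_cons]
        exact k5

/-- A checked code gives a Hamilton path. -/
theorem hp_of_walkc {u v : Fin 28} {S code : ℕ} {T : Set (Fin 28)}
    (h : walkc v S 28 code u (1 <<< u.val) = true)
    (hT : ∀ w : Fin 28, S.testBit w.val = true ↔ w ∈ T) : HP cox T u v := by
  obtain ⟨L, k1, k2, k3, k4, k5⟩ := walkc_sound v S 28 code u _ h
  have hbit : ∀ i, (1 <<< u.val).testBit i = true ↔ i = u.val := by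
    intro i
    rw [Nat.one_shiftLeft, Nat.testBit_two_pow, decide_eq_true_iff]
    exact eq_comm
  refine ⟨u :: L, ?_, ?_, k1, rfl, k5⟩
  · rw [List.nodup_cons]
    refine ⟨?_, k2⟩
    intro hm
    have := k3 _ hm
    rw [← Bool.not_eq_true] at this
    exact this ((hbit _).2 rfl)
  · intro w
    rw [← hT w, k4 w, hbit, List.mem_cons]
    constructor
    · rintro (e | e)
      · exact Or.inl (by rw [e])
      · exact Or.inr e
    · rintro (e | e)
      · exact Or.inl (Fin.ext e)
      · exact Or.inr e

/-- The neighbours of the vertices. -/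
def nbT : ℕ := 2268153826077827180382617538433236671732115532763576996771048164033034092509671280719076314245147470624468523946657497951525556

/-- The `a`-th neighbour of `i`. -/
def nbN (i a : ℕ) : ℕ := (nbT >>> (15 * i + 5 * a)) % 32

/-- The mask of `{w | w ≠ z ∧ ∀ b, b ≠ a → w ≠ τ b}`. -/
def outS (z a : ℕ) : ℕ :=
  268435455 - 1 <<< z - 1 <<< (nbN z ((a + 1) % 3)) - 1 <<< (nbN z ((a + 2) % 3))

/-- The mask of `{w | w ≠ z ∧ ∀ c, c ≠ a → c ≠ b → w ≠ τ c}`. -/
def midS (z a b : ℕ) : ℕ := 268435455 - 1 <<< z - 1 <<< (nbN z (3 - a - b))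

/-- All checks for a root. -/
def rootCheck (z : ℕ) (outT : List (List ℕ)) (midT : List (List ℕ)) : Bool :=
  (decide (∀ a : Fin 3, ∀ u : Fin 28, (u.val = z) ∨ (u.val = nbN z 0) ∨ (u.val = nbN z 1) ∨
    (u.val = nbN z 2) ∨
    walkc (nbN z a) (outS z a) 28 ((outT.getD a []).getD u 0) u (1 <<< u.val) = true)) &&
  (decide (∀ a b : Fin 3, a = b ∨
    walkc (nbN z b) (midS z a b) 28 ((midT.getD a []).getD b 0) (nbN z a)
      (1 <<< (nbN z a)) = true)) &&
  (decide (∀ a : Fin 3, ∀ w : Fin 28, (outS z a).testBit w.val = true ↔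
    (w.val ≠ z ∧ ∀ b : Fin 3, b ≠ a → w.val ≠ nbN z b))) &&
  (decide (∀ a b : Fin 3, ∀ w : Fin 28, a = b ∨ ((midS z a b).testBit w.val = true ↔
    (w.val ≠ z ∧ ∀ c : Fin 3, c ≠ a → c ≠ b → w.val ≠ nbN z c)))) &&
  (decide (∀ w : Fin 28, adjN z w = true ↔ ∃ a : Fin 3, w.val = nbN z a)) &&
  (decide (∀ a : Fin 3, nbN z a < 28)) &&
  (decide (∀ a b : Fin 3, nbN z a = nbN z b → a = b)) &&
  (decide (∀ a b : Fin 3, adjN (nbN z a) (nbN z b) = false)) &&
  (decide (∃ u : Fin 28, u.val ≠ z ∧ ∀ a : Fin 3, u.val ≠ nbN z a))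

theorem root_of_check {z : Fin 28} {outT midT : List (List ℕ)}
    (h : rootCheck z outT midT = true) (hlt : ∀ a : Fin 3, nbN z a < 28) :
    Root cox z (fun a => ⟨nbN z a, hlt a⟩) := by
  unfold rootCheck at h
  simp only [Bool.and_eq_true, decide_eq_true_eq] at h
  obtain ⟨⟨⟨⟨⟨⟨⟨⟨h1, h2⟩, h3⟩, h4⟩, h5⟩, h6⟩, h7⟩, h8⟩, h9⟩ := h
  refine ⟨?_, ?_, ?_, ?_, ?_, ?_⟩
  · intro a b hab
    exact h7 a b (by simpa using hab)
  · intro v
    rw [cox_adj, h5]
    constructor
    · rintro ⟨a, ha⟩
      exact ⟨a, Fin.ext ha⟩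
    · rintro ⟨a, ha⟩
      exact ⟨a, by rw [ha]⟩
  · intro a b hab
    rw [cox_adj] at hab
    have := h8 a b
    simp only at hab
    rw [this] at hab
    exact Bool.false_ne_true hab
  · obtain ⟨u, hu, hu'⟩ := h9
    exact ⟨u, fun e => hu (by rw [e]), fun a e => hu' a (by rw [e])⟩
  · intro u hu hu' a
    rcases h1 a u with e | e | e | e | e
    · exact absurd (Fin.ext e) hu
    · exact absurd (Fin.ext e) (hu' 0)
    · exact absurd (Fin.ext e) (hu' 1)
    · exact absurd (Fin.ext e) (hu' 2)
    · refine hp_of_walkc (v := ⟨nbN z a, hlt a⟩) e ?_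
      intro w
      rw [h3 a w]
      constructor
      · rintro ⟨k1, k2⟩
        exact ⟨fun e => k1 (by rw [e]), fun b hb e => k2 b hb (by rw [e])⟩
      · rintro ⟨k1, k2⟩
        exact ⟨fun e => k1 (Fin.ext e), fun b hb e => k2 b hb (Fin.ext e)⟩
  · intro a b hab
    rcases h2 a b with e | e
    · exact absurd e hab
    · refine hp_of_walkc (u := ⟨nbN z a, hlt a⟩) (v := ⟨nbN z b, hlt b⟩) e ?_
      intro w
      rcases h4 a b w with e' | e'
      · exact absurd e' hab
      · rw [e']
        constructor
        · rintro ⟨k1, k2⟩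
          exact ⟨fun e => k1 (by rw [e]), fun c hc hc' e => k2 c hc hc' (by rw [e])⟩
        · rintro ⟨k1, k2⟩
          exact ⟨fun e => k1 (Fin.ext e), fun c hc hc' e => k2 c hc hc' (Fin.ext e)⟩

/-- Depth first search with pruning: every neighbour of `cur` which is skipped must keep two
usable neighbours. -/
def okN (s vis w : ℕ) : Bool :=
  let a := (!(vis.testBit (nbN w 0))) || Nat.beq (nbN w 0) s
  let b := (!(vis.testBit (nbN w 1))) || Nat.beq (nbN w 1) s
  let c := (!(vis.testBit (nbN w 2))) || Nat.beq (nbN w 2) s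
  (a && b) || (a && c) || (b && c)

/-- An unvisited vertex without two usable neighbours. -/
def badN (s vis w : ℕ) : Bool := (!(vis.testBit w)) && (!(okN s vis w))

/-- There is no path with `k` further vertices from `cur` to a neighbour of `s`. -/
def dfs (s : ℕ) : ℕ → ℕ → ℕ → Bool
  | 0, cur, _ => !(adjN cur s)
  | k + 1, cur, vis =>
    (vis.testBit (nbN cur 0) || badN s vis (nbN cur 1) || badN s vis (nbN cur 2) ||
      dfs s k (nbN cur 0) (vis ||| 1 <<< (nbN cur 0))) &&
    (vis.testBit (nbN cur 1) || badN s vis (nbN cur 0) || badN s vis (nbN cur 2) ||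
      dfs s k (nbN cur 1) (vis ||| 1 <<< (nbN cur 1))) &&
    (vis.testBit (nbN cur 2) || badN s vis (nbN cur 0) || badN s vis (nbN cur 1) ||
      dfs s k (nbN cur 2) (vis ||| 1 <<< (nbN cur 2)))

/-- The same without pruning. -/
def dfs0 (s : ℕ) : ℕ → ℕ → ℕ → Bool
  | 0, cur, _ => !(adjN cur s)
  | k + 1, cur, vis =>
    (vis.testBit (nbN cur 0) || dfs0 s k (nbN cur 0) (vis ||| 1 <<< (nbN cur 0))) &&
    (vis.testBit (nbN cur 1) || dfs0 s k (nbN cur 1) (vis ||| 1 <<< (nbN cur 1))) &&
    (vis.testBit (nbN cur 2) || dfs0 s k (nbN cur 2) (vis ||| 1 <<< (nbN cur 2)))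

theorem nb_spec : ∀ i j : Fin 28, adjN i j = true →
    j.val = nbN i 0 ∨ j.val = nbN i 1 ∨ j.val = nbN i 2 := by
  decide +kernel

theorem nb_lt : ∀ i : Fin 28, ∀ a : Fin 3, nbN i a < 28 := by
  decide +kernel

theorem nb_inj : ∀ i : Fin 28, nbN i 0 ≠ nbN i 1 ∧ nbN i 0 ≠ nbN i 2 ∧ nbN i 1 ≠ nbN i 2 := by
  decide +kernel

theorem okN_of {s : ℕ} {vis : ℕ} {w p q : Fin 28} (hp : cox.Adj w p) (hq : cox.Adj w q)
    (hpq : p ≠ q) (hp' : vis.testBit p.val = false ∨ p.val = s)
    (hq' : vis.testBit q.val = false ∨ q.val = s) : okN s vis w = true := by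
  have e1 := nb_spec w p hp
  have e2 := nb_spec w q hq
  have hpv : p.val ≠ q.val := fun e => hpq (Fin.ext e)
  have f1 : ((!(vis.testBit p.val)) || Nat.beq p.val s) = true := by
    rcases hp' with h | h
    · rw [h]; rfl
    · rw [h, Nat.beq_refl, Bool.or_true]
  have f2 : ((!(vis.testBit q.val)) || Nat.beq q.val s) = true := by
    rcases hq' with h | h
    · rw [h]; rfl
    · rw [h, Nat.beq_refl, Bool.or_true]
  unfold okN
  rcases e1 with e1 | e1 | e1 <;> rcases e2 with e2 | e2 | e2 <;> rw [e1] at f1 <;>
    rw [e2] at f2 <;> first | (exact absurd (e1.trans e2.symm) hpv) | (simp only [f1, f2]; simp)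

theorem dfs_sound (s : Fin 28) : ∀ (k : ℕ) (cur : Fin 28) (vis : ℕ) (l : List (Fin 28)),
    dfs s k cur vis = true → l.length = k → (cur :: (l ++ [s])).IsChain cox.Adj → l.Nodup →
    (∀ v : Fin 28, v ∈ l ↔ vis.testBit v.val = false) → vis.testBit s.val = true → False := by
  intro k
  induction k with
  | zero =>
    intro cur vis l hd hl hc _ _ _
    have : l = [] := List.length_eq_zero_iff.1 hl
    subst this
    rw [dfs] at hd
    have h1 : cox.Adj cur s := by simpa using hc
    rw [cox_adj] at h1
    rw [h1] at hd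
    simp at hd
  | succ k ih =>
    intro cur vis l hd hl hc hn hv hs
    obtain ⟨w, rest, rfl⟩ : ∃ w rest, l = w :: rest := by
      cases l with
      | nil => simp at hl
      | cons w rest => exact ⟨w, rest, rfl⟩
    have hc' := List.isChain_cons_cons.1 hc
    have hc2 : (w :: (rest ++ [s])).IsChain cox.Adj := hc'.2
    have hn' := List.nodup_cons.1 hn
    have hwv : vis.testBit w.val = false := (hv w).1 (by simp)
    have hnext : dfs s k w (vis ||| 1 <<< w.val) = true → False := by
      intro hd'
      refine ih w _ rest hd' (by simpa using hl) hc2 hn'.2 ?_ ((testBit_add _ _ _).2 (Or.inl hs))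
      intro v
      rw [← Bool.not_eq_true, testBit_add]
      push Not
      rw [ne_eq, Bool.not_eq_true, ← hv v, List.mem_cons]
      constructor
      · intro h
        exact ⟨Or.inr h, fun e => hn'.1 (Fin.ext e ▸ h)⟩
      · rintro ⟨h | h, h'⟩
        · exact absurd (by rw [h]) h'
        · exact h
    have hbad : ∀ w' : Fin 28, w' ≠ w → badN s vis w' = true → False := by
      intro w' hne hb
      unfold badN at hb
      rw [Bool.and_eq_true] at hb
      obtain ⟨hb1, hb2⟩ := hb
      have h1 : vis.testBit w'.val = false := by simpa using hb1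
      have h2 : w' ∈ rest := by
        rcases List.mem_cons.1 ((hv w').2 h1) with e | e
        · exact absurd e hne
        · exact e
      obtain ⟨r1, r2, rfl⟩ := List.append_of_mem h2
      obtain ⟨p, r1', hp⟩ : ∃ p r1', w :: r1 = r1' ++ [p] := by
        rcases List.eq_nil_or_concat (w :: r1) with h | ⟨q, b, h⟩
        · simp at h
        · exact ⟨b, q, by simpa using h⟩
      obtain ⟨q, r2', hq⟩ : ∃ q r2', r2 ++ [s] = q :: r2' := by
        cases r2 with
        | nil => exact ⟨s, [], rfl⟩
        | cons q r2' => exact ⟨q, r2' ++ [s], rfl⟩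
      have e1 : w :: (r1 ++ w' :: r2 ++ [s]) = r1' ++ [p] ++ w' :: q :: r2' := by
        rw [← hp, ← hq]; simp
      rw [e1] at hc2
      have hpw : cox.Adj p w' := by
        have := (List.isChain_append.1 hc2).2.2
        exact this p (by simp) w' (by simp)
      have hwq : cox.Adj w' q := by
        have := hc2.right_of_append
        rw [List.isChain_cons_cons] at this
        exact this.1
      have hp1 : p ∈ w :: r1 := by rw [hp]; simp
      have hp2 : p ∈ w :: (r1 ++ w' :: r2) := by
        rcases List.mem_cons.1 hp1 with h | h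
        · simp [h]
        · simp [h]
      have hpv := (hv p).1 hp2
      have hq1 : q ∈ r2 ∨ q = s := by
        have : q ∈ r2 ++ [s] := by rw [hq]; simp
        simpa using this
      have hpq : p ≠ q := by
        rintro rfl
        rcases hq1 with h | h
        · have hnn : (w :: r1 ++ w' :: r2).Nodup := by simpa using hn
          exact (List.nodup_append.1 hnn).2.2 p hp1 p (by simp [h]) rfl
        · rw [h, hs] at hpv
          simp at hpv
      have hqv : vis.testBit q.val = false ∨ q.val = s.val := by
        rcases hq1 with h | h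
        · left; exact (hv q).1 (by simp [h])
        · right; rw [h]
      have := okN_of (s := s.val) (vis := vis) hpw.symm hwq hpq (Or.inl hpv) hqv
      rw [this] at hb2
      simp at hb2
    rw [dfs, Bool.and_eq_true, Bool.and_eq_true] at hd
    obtain ⟨⟨d0, d1⟩, d2⟩ := hd
    have hnb := nb_spec cur w hc'.1
    have hinj := nb_inj cur
    have key : ∀ a : ℕ, a < 3 → w.val ≠ nbN cur a → badN s vis (nbN cur a) = true → False := by
      intro a ha hne hb
      have hlt := nb_lt cur ⟨a, ha⟩
      refine hbad ⟨nbN cur a, hlt⟩ ?_ hb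
      intro e
      exact hne (by rw [← e])
    rcases hnb with e | e | e
    · rw [← e, hwv] at d0
      simp only [Bool.or_eq_true] at d0
      rcases d0 with ((h | h) | h) | h
      · exact Bool.false_ne_true h
      · exact key 1 (by omega) (by rw [e]; exact hinj.1) h
      · exact key 2 (by omega) (by rw [e]; exact hinj.2.1) h
      · exact hnext h
    · rw [← e, hwv] at d1
      simp only [Bool.or_eq_true] at d1
      rcases d1 with ((h | h) | h) | h
      · exact Bool.false_ne_true h
      · exact key 0 (by omega) (by rw [e]; exact hinj.1.symm) h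
      · exact key 2 (by omega) (by rw [e]; exact hinj.2.2) h
      · exact hnext h
    · rw [← e, hwv] at d2
      simp only [Bool.or_eq_true] at d2
      rcases d2 with ((h | h) | h) | h
      · exact Bool.false_ne_true h
      · exact key 0 (by omega) (by rw [e]; exact hinj.2.1.symm) h
      · exact key 1 (by omega) (by rw [e]; exact hinj.2.2.symm) h
      · exact hnext h

theorem dfs0_sound (s : Fin 28) : ∀ (k : ℕ) (cur : Fin 28) (vis : ℕ) (l : List (Fin 28)),
    dfs0 s k cur vis = true → l.length = k → (cur :: (l ++ [s])).IsChain cox.Adj → l.Nodup →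
    (∀ v ∈ l, vis.testBit v.val = false) → False := by
  intro k
  induction k with
  | zero =>
    intro cur vis l hd hl hc _ _
    have : l = [] := List.length_eq_zero_iff.1 hl
    subst this
    rw [dfs0] at hd
    have h1 : cox.Adj cur s := by simpa using hc
    rw [cox_adj] at h1
    rw [h1] at hd
    simp at hd
  | succ k ih =>
    intro cur vis l hd hl hc hn hv
    obtain ⟨w, rest, rfl⟩ : ∃ w rest, l = w :: rest := by
      cases l with
      | nil => simp at hl
      | cons w rest => exact ⟨w, rest, rfl⟩
    have hc' := List.isChain_cons_cons.1 hc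
    have hc2 : (w :: (rest ++ [s])).IsChain cox.Adj := hc'.2
    have hn' := List.nodup_cons.1 hn
    have hwv : vis.testBit w.val = false := hv w (by simp)
    have hnext : dfs0 s k w (vis ||| 1 <<< w.val) = true → False := by
      intro hd'
      refine ih w _ rest hd' (by simpa using hl) hc2 hn'.2 ?_
      intro v hv'
      rw [← Bool.not_eq_true, testBit_add]
      push Not
      rw [ne_eq, Bool.not_eq_true]
      exact ⟨hv v (by simp [hv']), fun e => hn'.1 (Fin.ext e ▸ hv')⟩
    rw [dfs0, Bool.and_eq_true, Bool.and_eq_true] at hd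
    obtain ⟨⟨d0, d1⟩, d2⟩ := hd
    rcases nb_spec cur w hc'.1 with e | e | e
    · rw [← e, hwv] at d0
      exact hnext (by simpa using d0)
    · rw [← e, hwv] at d1
      exact hnext (by simpa using d1)
    · rw [← e, hwv] at d2
      exact hnext (by simpa using d2)

/-- A cycle through `a`, read from `a`. -/
theorem cyc_at {V : Type} {G : SimpleGraph V} {L : List V} (h : CycL G L) {a : V} (ha : a ∈ L) :
    ∃ l : List V, (a :: (l ++ [a])).IsChain G.Adj ∧ (a :: l).Nodup ∧ l.length + 1 = L.length ∧
      (∀ v, v ∈ a :: l ↔ v ∈ L) := by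
  obtain ⟨s, t, rfl⟩ := List.append_of_mem ha
  have hc : CycL G (a :: (t ++ s)) := by simpa using h.rot
  refine ⟨t ++ s, ?_, hc.1, by simp only [List.length_append, List.length_cons]; omega, ?_⟩
  · have : a :: (t ++ s ++ [a]) = (a :: (t ++ s)) ++ [a] := by simp
    rw [this, List.isChain_append]
    refine ⟨hc.2.2.1, by simp, ?_⟩
    intro b hb c hc'
    simp at hc'
    subst hc'
    exact hc.2.2.2 b hb _ (by simp)
  · intro v
    simp only [List.mem_append, List.mem_cons]
    tauto

end Run7.h694.Mnh
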