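import Pool.Agent.Run7.h694.Star
import Pool.Agent.Run7.h694.Convert

/-! Edge cuts with at most three edges in maximally nonhamiltonian graphs. -/

namespace Run7.h694.Mnh

variable {V : Type}

theorem isHamiltonian_of_hc {G : SimpleGraph V} [Fintype V] [DecidableEq V] (h : HC G) :
    G.IsHamiltonian := by
  intro _
  obtain ⟨L, hL, hf⟩ := h
  obtain ⟨a, c, hc, hcl⟩ := exists_cycle hL
  refine ⟨a, c, ?_⟩
  rw [SimpleGraph.Walk.isHamiltonianCycle_iff_isCycle_and_length_eq]
  refine ⟨hc, ?_⟩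
  rw [hcl]
  have : L.toFinset = Finset.univ := by
    ext w
    simp [hf w]
  rw [← Finset.card_univ, ← this, List.toFinset_card_of_nodup hL.1]

/-- A Hamilton cycle of `G + uv` which closes with a new edge gives a Hamilton path of `G`. -/
theorem hp_of_closing {G : SimpleGraph V} {u v a b : V} {L : List V}
    (hL : CycL (G ⊔ SimpleGraph.edge u v) L) (hf : ∀ w, w ∈ L) (ha : L.getLast? = some a)
    (hb : L.head? = some b) (hab : ¬ G.Adj a b) : HP G Set.univ u v := by
  obtain ⟨h1, h2, h3, h4⟩ := hL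
  have hadj : ∀ x y, (G ⊔ SimpleGraph.edge u v).Adj x y → ¬ G.Adj x y →
      (x = u ∧ y = v) ∨ (x = v ∧ y = u) := by
    intro x y hxy hn
    rw [SimpleGraph.sup_adj, SimpleGraph.edge_adj] at hxy
    rcases hxy with h | ⟨h, _⟩
    · exact absurd h hn
    · rcases h with ⟨rfl, rfl⟩ | ⟨rfl, rfl⟩
      · exact Or.inl ⟨rfl, rfl⟩
      · exact Or.inr ⟨rfl, rfl⟩
  have hcl := hadj a b (h4 a (by rw [ha]; rfl) b (by rw [hb]; rfl)) hab
  have hn : ∀ x y, (G ⊔ SimpleGraph.edge u v).Adj x y → ¬ G.Adj x y →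
      (x = a ∧ y = b) ∨ (x = b ∧ y = a) := by
    intro x y hxy hn
    rcases hadj x y hxy hn with ⟨rfl, rfl⟩ | ⟨rfl, rfl⟩ <;>
      rcases hcl with ⟨rfl, rfl⟩ | ⟨rfl, rfl⟩ <;> simp
  have hch : L.IsChain G.Adj := by
    obtain ⟨T, rfl⟩ := head?_eq_cons hb
    rcases List.eq_nil_or_concat T with rfl | ⟨T', c, hT⟩
    · simp at h2
    · rw [List.concat_eq_append] at hT
      subst hT
      have hc : c = a := by
        have : (b :: (T' ++ [c])).getLast? = some c := by
          rw [← List.cons_append, List.getLast?_append]; rfl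
        rw [this] at ha
        exact Option.some.inj ha
      subst hc
      rw [← List.cons_append] at h3 ⊢
      have hne : T' ≠ [] := by
        rintro rfl
        simp at h2
      obtain ⟨d, T'', rfl⟩ := List.exists_cons_of_ne_nil hne
      have hnd := h1
      rw [← List.cons_append, List.nodup_append] at hnd
      have hcb : c ∉ b :: d :: T'' := fun h => hnd.2.2 c h c (by simp) rfl
      have hbc : b ∉ d :: T'' ++ [c] := by
        rw [List.nodup_cons] at h1
        exact h1.1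
      rw [List.isChain_append] at h3 ⊢
      refine ⟨?_, by simp, ?_⟩
      · refine List.IsChain.imp_of_mem_imp ?_ h3.1
        intro x y hx hy hxy
        by_contra hn'
        rcases hn x y hxy hn' with ⟨rfl, rfl⟩ | ⟨rfl, rfl⟩
        · exact hcb hx
        · exact hcb hy
      · intro x hx y hy
        by_contra hn'
        rcases hn x y (h3.2.2 x hx y hy) hn' with ⟨rfl, rfl⟩ | ⟨rfl, rfl⟩
        · exact hcb (List.mem_of_mem_getLast? hx)
        · have hx' : (d :: T'').getLast? = some x := by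
            rw [List.getLast?_cons_cons] at hx
            exact hx
          exact hbc (List.mem_append_left _ (List.mem_of_mem_getLast? hx'))
  have hp : HP G Set.univ b a := ⟨L, h1, fun w => by simp [hf w], hch, hb, ha⟩
  rcases hcl with ⟨rfl, rfl⟩ | ⟨rfl, rfl⟩
  · exact hp.symm
  · exact hp

theorem hp_of_isHamiltonian {G : SimpleGraph V} [Fintype V] [DecidableEq V] {u v : V}
    (hcard : Fintype.card V ≠ 1) (hG : ¬ HC G) (h : (G ⊔ SimpleGraph.edge u v).IsHamiltonian) :
    HP G Set.univ u v := by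
  obtain ⟨L, hL, hf⟩ := hc_of_isHamiltonian hcard h
  rcases hu : L.head? with _ | b
  · rw [List.head?_eq_none_iff] at hu
    subst hu; simp [CycL] at hL
  rcases hv : L.getLast? with _ | a
  · rw [List.getLast?_eq_none_iff] at hv
    subst hv; simp [CycL] at hL
  by_cases hab : G.Adj a b
  · -- there is another edge which is not in `G`
    have hch : ¬ L.IsChain G.Adj := by
      intro hch
      refine hG ⟨L, ⟨hL.1, hL.2.1, hch, ?_⟩, hf⟩
      intro x hx y hy
      rw [hv] at hx
      rw [hu] at hy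
      simp only [Option.mem_def, Option.some.injEq] at hx hy
      rw [← hx, ← hy]; exact hab
    rw [List.isChain_iff_forall_rel_of_append_cons_cons] at hch
    push Not at hch
    obtain ⟨x, y, L1, L2, e, hxy⟩ := hch
    have e' : L = (L1 ++ [x]) ++ (y :: L2) := by rw [e]; simp
    rw [e'] at hL hf
    refine hp_of_closing hL.rot ?_ (a := x) (b := y) ?_ ?_ hxy
    · intro w
      have := hf w
      rw [List.mem_append] at this ⊢
      exact this.symm
    · rw [List.getLast?_append]; simp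
    · simp
  · exact hp_of_closing hL hf hv hu hab

/-- The edges between `A` and `B` are `a i, b i`. -/
structure Cut3 (G : SimpleGraph V) (A B : Set V) (a b : Fin 3 → V) : Prop where
  AB : ∀ x, x ∈ A ↔ ¬ x ∈ B
  aA : ∀ i, a i ∈ A
  bB : ∀ i, b i ∈ B
  adj : ∀ i, G.Adj (a i) (b i)
  cut : ∀ x y, x ∈ A → y ∈ B → G.Adj x y → ∃ i, x = a i ∧ y = b i

section

variable {G : SimpleGraph V} {A B : Set V} {a b : Fin 3 → V}

theorem Cut3.symm (h : Cut3 G A B a b) : Cut3 G B A b a where
  AB := fun x => by rw [h.AB x, not_not]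
  aA := h.bB
  bB := h.aA
  adj := fun i => (h.adj i).symm
  cut := by
    intro x y hx hy hxy
    obtain ⟨i, h1, h2⟩ := h.cut y x hy hx hxy.symm
    exact ⟨i, h2, h1⟩

/-- The first run of a path. -/
theorem Cut3.peel (h : Cut3 G A B a b) {L : List V} {u : V} (hc : L.IsChain G.Adj)
    (hu : L.head? = some u) (huA : u ∈ A) : ∃ P R, L = P ++ R ∧ P.head? = some u ∧
      (∀ w ∈ P, w ∈ A) ∧ (R = [] ∨ ∃ i, P.getLast? = some (a i) ∧ R.head? = some (b i)) := by
  classical
  have e : L.takeWhile (fun w => decide (w ∈ A)) ++ L.dropWhile (fun w => decide (w ∈ A)) = L :=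
    List.takeWhile_append_dropWhile
  refine ⟨L.takeWhile (fun w => decide (w ∈ A)), L.dropWhile (fun w => decide (w ∈ A)), e.symm,
    ?_, ?_, ?_⟩
  · obtain ⟨t, rfl⟩ := head?_eq_cons hu
    rw [List.takeWhile_cons_of_pos (by simpa using huA)]; rfl
  · intro w hw
    have := List.mem_takeWhile_imp hw
    simpa using this
  · rcases hR : L.dropWhile (fun w => decide (w ∈ A)) with _ | ⟨y, R⟩
    · exact Or.inl rfl
    · right
      have hy : y ∉ A := by
        have := List.head?_dropWhile_not (fun w => decide (w ∈ A)) L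
        rw [hR] at this
        simpa using this
      have hyB : y ∈ B := by
        by_contra hyB
        exact hy ((h.AB y).2 hyB)
      rcases hP : (L.takeWhile (fun w => decide (w ∈ A))).getLast? with _ | x
      · exfalso
        rw [List.getLast?_eq_none_iff] at hP
        obtain ⟨t, rfl⟩ := head?_eq_cons hu
        rw [List.takeWhile_cons_of_pos (by simpa using huA)] at hP
        simp at hP
      · have hxA : x ∈ A := by
          have := List.mem_takeWhile_imp (List.mem_of_mem_getLast? hP)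
          simpa using this
        rw [← e, hR, List.isChain_append] at hc
        have hxy : G.Adj x y := hc.2.2 x (by rw [hP]; rfl) y (by simp)
        obtain ⟨i, h1, h2⟩ := h.cut x y hxA hyB hxy
        exact ⟨i, by rw [h1], by simp [h2]⟩

theorem fin3_all : ∀ i j k m : Fin 3, i ≠ j → i ≠ k → j ≠ k → m = i ∨ m = j ∨ m = k := by
  decide

theorem fin3_four (s t r q : Fin 3) (h1 : s ≠ t) (h2 : s ≠ r) (h3 : s ≠ q) (h4 : t ≠ r)
    (h5 : t ≠ q) (h6 : r ≠ q) : False := by
  rcases fin3_all s t r q h1 h2 h4 with h | h | h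
  · exact h3 h.symm
  · exact h5 h.symm
  · exact h6 h.symm

/-- The runs of a Hamilton path which starts in `A`. -/
theorem Cut3.runs (h : Cut3 G A B a b) {u v : V} (hp : HP G Set.univ u v) (hu : u ∈ A) :
    (HP G A u v ∧ ∀ x, x ∉ B) ∨
    (∃ s, HP G A u (a s) ∧ HP G B (b s) v) ∨
    (∃ s t, s ≠ t ∧ v ∈ A ∧ HP G B (b s) (b t)) ∨
    (∃ (s t r : Fin 3) (S1 S2 T1 T2 : Set V), s ≠ t ∧ s ≠ r ∧ t ≠ r ∧ v ∈ B ∧
      HP G S1 u (a s) ∧ HP G T1 (b s) (b t) ∧ HP G S2 (a t) (a r) ∧ HP G T2 (b r) v ∧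
      (∀ x, x ∈ S1 → x ∈ S2 → False) ∧ (∀ x, x ∈ T1 → x ∈ T2 → False) ∧
      (∀ x, x ∈ B ↔ x ∈ T1 ∨ x ∈ T2)) := by
  obtain ⟨L, l1, l2, l3, l4, l5⟩ := hp
  have hAB : ∀ x, x ∈ A → x ∈ B → False := fun x h1 h2 => (h.AB x).1 h1 h2
  obtain ⟨P1, R1, rfl, p1, p2, p3⟩ := h.peel l3 l4 hu
  rcases p3 with rfl | ⟨s, p3, p4⟩
  · left
    rw [List.append_nil] at l1 l2 l3 l4 l5
    refine ⟨⟨P1, l1, ?_, l3, l4, l5⟩, ?_⟩
    · intro w
      exact ⟨fun hw => p2 w hw, fun _ => (l2 w).2 trivial⟩
    · intro x hx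
      exact hAB x (p2 x ((l2 x).2 trivial)) hx
  right
  rw [List.nodup_append] at l1
  rw [List.isChain_append] at l3
  obtain ⟨n1, n2, n3⟩ := l1
  obtain ⟨c1, c2, -⟩ := l3
  have v1 : R1.getLast? = some v := by
    rw [List.getLast?_append] at l5
    obtain ⟨t, rfl⟩ := head?_eq_cons p4
    cases ht : (b s :: t).getLast? with
    | none => simp at ht
    | some z =>
      rw [ht] at l5
      simpa using l5
  obtain ⟨Q1, R2, rfl, q1, q2, q3⟩ := h.symm.peel c2 p4 (h.bB s)
  rcases q3 with rfl | ⟨t, q3, q4⟩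
  · left
    rw [List.append_nil] at *
    refine ⟨s, ⟨P1, n1, ?_, c1, p1, p3⟩, ⟨Q1, n2, ?_, c2, q1, v1⟩⟩
    · intro w
      refine ⟨fun hw => p2 w hw, fun hw => ?_⟩
      rcases List.mem_append.1 ((l2 w).2 trivial) with h' | h'
      · exact h'
      · exact absurd (q2 w h') (fun h'' => hAB w hw h'')
    · intro w
      refine ⟨fun hw => q2 w hw, fun hw => ?_⟩
      rcases List.mem_append.1 ((l2 w).2 trivial) with h' | h'
      · exact absurd hw (fun h'' => hAB w (p2 w h') h'')
      · exact h'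
  right
  rw [List.nodup_append] at n2
  rw [List.isChain_append] at c2
  obtain ⟨n4, n5, n6⟩ := n2
  obtain ⟨c3, c4, -⟩ := c2
  have v2 : R2.getLast? = some v := by
    rw [List.getLast?_append] at v1
    obtain ⟨t', rfl⟩ := head?_eq_cons q4
    cases ht : (a t :: t').getLast? with
    | none => simp at ht
    | some z =>
      rw [ht] at v1
      simpa using v1
  have hst : s ≠ t := by
    rintro rfl
    exact n3 (a s) (List.mem_of_mem_getLast? p3) (a s)
      (List.mem_append_right _ (List.mem_of_mem_head? q4)) rfl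
  obtain ⟨P2, R3, rfl, r1, r2, r3⟩ := h.peel c4 q4 (h.aA t)
  rcases r3 with rfl | ⟨r, r3, r4⟩
  · left
    rw [List.append_nil] at *
    refine ⟨s, t, hst, r2 v (List.mem_of_mem_getLast? v2), ⟨Q1, n4, ?_, c3, q1, q3⟩⟩
    intro w
    refine ⟨fun hw => q2 w hw, fun hw => ?_⟩
    rcases List.mem_append.1 ((l2 w).2 trivial) with h' | h'
    · exact absurd hw (fun h'' => hAB w (p2 w h') h'')
    · rcases List.mem_append.1 h' with h' | h'
      · exact h'
      · exact absurd hw (fun h'' => hAB w (r2 w h') h'')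
  rw [List.nodup_append] at n5
  rw [List.isChain_append] at c4
  obtain ⟨n7, n8, n9⟩ := n5
  obtain ⟨c5, c6, -⟩ := c4
  have v3 : R3.getLast? = some v := by
    rw [List.getLast?_append] at v2
    obtain ⟨t', rfl⟩ := head?_eq_cons r4
    cases ht : (b r :: t').getLast? with
    | none => simp at ht
    | some z =>
      rw [ht] at v2
      simpa using v2
  have hsr : s ≠ r := by
    rintro rfl
    exact n3 (a s) (List.mem_of_mem_getLast? p3) (a s)
      (List.mem_append_right _ (List.mem_append_left _ (List.mem_of_mem_getLast? r3))) rfl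
  have htr : t ≠ r := by
    rintro rfl
    exact n6 (b t) (List.mem_of_mem_getLast? q3) (b t)
      (List.mem_append_right _ (List.mem_of_mem_head? r4)) rfl
  obtain ⟨Q2, R4, rfl, t1, t2, t3⟩ := h.symm.peel c6 r4 (h.bB r)
  rcases t3 with rfl | ⟨q, t3, t4⟩
  · right
    rw [List.append_nil] at *
    refine ⟨s, t, r, {w | w ∈ P1}, {w | w ∈ P2}, {w | w ∈ Q1}, {w | w ∈ Q2}, hst, hsr, htr,
      t2 v (List.mem_of_mem_getLast? v3),
      ⟨P1, n1, fun _ => Iff.rfl, c1, p1, p3⟩, ⟨Q1, n4, fun _ => Iff.rfl, c3, q1, q3⟩,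
      ⟨P2, n7, fun _ => Iff.rfl, c5, r1, r3⟩, ⟨Q2, n8, fun _ => Iff.rfl, c6, t1, v3⟩, ?_, ?_, ?_⟩
    · intro x hx hx'
      exact n3 x hx x (List.mem_append_right _ (List.mem_append_left _ hx')) rfl
    · intro x hx hx'
      exact n6 x hx x (List.mem_append_right _ hx') rfl
    · intro x
      constructor
      · intro hx
        rcases List.mem_append.1 ((l2 x).2 trivial) with h' | h'
        · exact absurd hx (fun h'' => hAB x (p2 x h') h'')
        · rcases List.mem_append.1 h' with h' | h'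
          · exact Or.inl h'
          · rcases List.mem_append.1 h' with h' | h'
            · exact absurd hx (fun h'' => hAB x (r2 x h') h'')
            · exact Or.inr h'
      · rintro (hx | hx)
        · exact q2 x hx
        · exact t2 x hx
  · exfalso
    have hq : a q ∈ R4 := List.mem_of_mem_head? t4
    have hq' : b q ∈ Q2 := List.mem_of_mem_getLast? t3
    refine fin3_four s t r q hst hsr ?_ htr ?_ ?_
    · rintro rfl
      exact n3 (a s) (List.mem_of_mem_getLast? p3) (a s)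
        (List.mem_append_right _ (List.mem_append_right _ (List.mem_append_right _ hq))) rfl
    · rintro rfl
      exact n6 (b t) (List.mem_of_mem_getLast? q3) (b t)
        (List.mem_append_right _ (List.mem_append_left _ hq')) rfl
    · rintro rfl
      exact n9 (a r) (List.mem_of_mem_getLast? r3) (a r) (List.mem_append_right _ hq) rfl

theorem hp_self {S : Set V} {u : V} (h : HP G S u u) : ∀ x ∈ S, x = u := by
  obtain ⟨l, h1, h2, h3, h4, h5⟩ := h
  have := nodup_head_last h1 h4 h5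
  subst this
  intro x hx
  have := (h2 x).2 hx
  simpa using this

/-- Opposite spanning paths close up. -/
theorem Cut3.close (h : Cut3 G A B a b) {i j : Fin 3} (hA : HP G A (a i) (a j))
    (hB : HP G B (b i) (b j)) (hne : ∃ x ∈ A, ∃ y ∈ A, x ≠ y) : HC G := by
  have hAB : ∀ x, x ∈ A → x ∈ B → False := fun x h1 h2 => (h.AB x).1 h1 h2
  have h1 : HP G (A ∪ B) (a i) (b i) := hA.append hB.symm hAB (h.adj j)
  obtain ⟨l, k1, k2, k3, k4, k5⟩ := h1
  refine ⟨l, ⟨k1, ?_, k3, ?_⟩, ?_⟩
  · obtain ⟨x, hx, y, hy, hxy⟩ := hne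
    have e1 : x ∈ l := (k2 x).2 (Or.inl hx)
    have e2 : y ∈ l := (k2 y).2 (Or.inl hy)
    have e3 : b i ∈ l := (k2 _).2 (Or.inr (h.bB i))
    have hsub : [x, y, b i] ⊆ l := by
      intro w hw
      simp only [List.mem_cons, List.not_mem_nil, or_false] at hw
      rcases hw with rfl | rfl | rfl <;> assumption
    have hnd : [x, y, b i].Nodup := by
      simp only [List.nodup_cons, List.mem_cons, List.not_mem_nil, or_false, not_or,
        List.nodup_nil, and_true, not_false_eq_true]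
      refine ⟨⟨hxy, ?_⟩, ?_⟩
      · rintro rfl; exact hAB _ hx (h.bB i)
      · rintro rfl; exact hAB _ hy (h.bB i)
    exact (hnd.subperm hsub).length_le
  · intro x hx y hy
    rw [k5] at hx
    rw [k4] at hy
    simp only [Option.mem_def, Option.some.injEq] at hx hy
    rw [← hx, ← hy]
    exact (h.adj i).symm
  · intro v
    rw [k2]
    by_cases hv : v ∈ B
    · exact Or.inr hv
    · exact Or.inl ((h.AB v).2 hv)

/-- The key step. -/
theorem Cut3.gamma (h : Cut3 G A B a b) (hG : ¬ HC G)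
    (hm : ∀ u v, u ≠ v → ¬ G.Adj u v → HP G Set.univ u v)
    (hne : ∃ x ∈ A, ∃ y ∈ A, x ≠ y) (hneB : ∃ x ∈ B, ∃ y ∈ B, x ≠ y) {i j k : Fin 3}
    (hij : i ≠ j) (hik : i ≠ k) (hjk : j ≠ k) (hA : HP G A (a i) (a j))
    (hA1 : ¬ HP G A (a i) (a k)) (hA2 : ¬ HP G A (a j) (a k)) {s t : Fin 3}
    (hB : HP G B (b s) (b t)) : False := by
  classical
  have hAB : ∀ x, x ∈ A → x ∈ B → False := fun x h1 h2 => (h.AB x).1 h1 h2
  have hall : ∀ m : Fin 3, m = i ∨ m = j ∨ m = k := fun m => fin3_all i j k m hij hik hjk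
  -- a neighbour of `b k` in `B`
  obtain ⟨v, hv, hbv⟩ : ∃ v ∈ B, G.Adj (b k) v := by
    obtain ⟨l, k1, k2, k3, k4, k5⟩ := hB
    obtain ⟨p, q, e⟩ := List.append_of_mem ((k2 (b k)).2 (h.bB k))
    cases q with
    | cons y q =>
      refine ⟨y, (k2 y).1 (by rw [e]; simp), ?_⟩
      rw [e] at k3
      exact (List.isChain_append_cons_cons.1 k3).2.1
    | nil =>
      rcases List.eq_nil_or_concat p with rfl | ⟨p', z, rfl⟩
      · exfalso
        obtain ⟨x, hx, y, hy, hxy⟩ := hneB
        have e1 := (k2 x).2 hx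
        have e2 := (k2 y).2 hy
        rw [e] at e1 e2
        simp only [List.nil_append, List.mem_singleton] at e1 e2
        exact hxy (e1.trans e2.symm)
      · refine ⟨z, (k2 z).1 (by rw [e]; simp), ?_⟩
        rw [e, List.concat_eq_append, List.append_assoc] at k3
        exact (List.isChain_append_cons_cons.1 k3).2.1.symm
  have hvb : v ≠ b k := hbv.ne'
  have hadj : ¬ G.Adj (a k) v := by
    intro hadj
    obtain ⟨m, h1, h2⟩ := h.cut _ _ (h.aA k) hv hadj
    rcases hall m with rfl | rfl | rfl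
    · exact hA2 (by rw [h1]; exact hA.symm)
    · exact hA1 (by rw [h1]; exact hA)
    · exact hvb h2
  have hne' : a k ≠ v := by
    intro e
    exact hAB _ (h.aA k) (e ▸ hv)
  rcases h.runs (hm _ _ hne' hadj) (h.aA k) with ⟨_, h2⟩ | ⟨s', h1, _⟩ | ⟨_, _, _, h1, _⟩ |
    ⟨s', t', r', S1, S2, T1, T2, e1, e2, e3, _, g1, g2, g3, g4, g5, g6, g7⟩
  · exact h2 v hv
  · rcases hall s' with rfl | rfl | rfl
    · exact hA1 h1.symm
    · exact hA2 h1.symm
    · obtain ⟨x, hx, y, hy, hxy⟩ := hne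
      exact hxy ((hp_self h1 x hx).trans (hp_self h1 y hy).symm)
  · exact hAB _ h1 hv
  · have hs : s' = k := by
      by_contra hs
      have : k = t' ∨ k = r' := by
        rcases fin3_all s' t' r' k e1 e2 e3 with h' | h'
        · exact absurd h'.symm hs
        · exact h'
      rcases this with rfl | rfl
      · exact g5 _ g1.mem_left g3.mem_left
      · exact g5 _ g1.mem_left g3.mem_right
    subst hs
    have hj1 : HP G (T1 ∪ T2) (b t') (b r') := by
      refine g2.symm.append g4.symm g6 hbv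
    have hj2 : HP G B (b t') (b r') := hj1.congr (fun w => (g7 w).symm)
    have ht : (t' = i ∧ r' = j) ∨ (t' = j ∧ r' = i) := by
      rcases hall t' with h1 | h1 | h1 <;> rcases hall r' with h2 | h2 | h2
      · exact absurd (h1.trans h2.symm) e3
      · exact Or.inl ⟨h1, h2⟩
      · exact absurd h2.symm e2
      · exact Or.inr ⟨h1, h2⟩
      · exact absurd (h1.trans h2.symm) e3
      · exact absurd h2.symm e2
      · exact absurd h1.symm e1
      · exact absurd h1.symm e1
      · exact absurd h1.symm e1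
    rcases ht with ⟨rfl, rfl⟩ | ⟨rfl, rfl⟩
    · exact hG (h.close hA hj2 hne)
    · exact hG (h.close hA hj2.symm hne)

theorem fin3_center {PA PB : Fin 3 → Fin 3 → Prop} (sA : ∀ x y, PA x y → PA y x)
    (sB : ∀ x y, PB x y → PB y x) (hd : ∀ x y, x ≠ y → PA x y → PB x y → False) {s t c : Fin 3}
    (hst : s ≠ t) (hB : PB s t) (hc : ∀ x, x ≠ c → PA c x) :
    s ≠ c ∧ t ≠ c ∧ ¬ PB s c ∧ ¬ PB t c := by
  have h1 : s ≠ c := by
    rintro rfl
    exact hd s t hst (hc t hst.symm) hB
  have h2 : t ≠ c := by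
    rintro rfl
    exact hd t s hst.symm (hc s hst) (sB _ _ hB)
  exact ⟨h1, h2, fun h => hd s c h1 (sA _ _ (hc s h1)) h, fun h => hd t c h2 (sA _ _ (hc t h2)) h⟩

/-- There is no cut with at most three edges such that both sides contain a nonadjacent pair. -/
theorem Cut3.false (h : Cut3 G A B a b) (hG : ¬ HC G)
    (hm : ∀ u v, u ≠ v → ¬ G.Adj u v → HP G Set.univ u v)
    (hne : ∃ x ∈ A, ∃ y ∈ A, x ≠ y ∧ ¬ G.Adj x y) (hneB : ∃ x ∈ B, ∃ y ∈ B, x ≠ y ∧ ¬ G.Adj x y) :
    False := by
  obtain ⟨x, hx, y, hy, hxy, hxy'⟩ := hne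
  obtain ⟨z, hz, w, hw, hzw, hzw'⟩ := hneB
  have hAB : ∀ x, x ∈ A → x ∈ B → False := fun x h1 h2 => (h.AB x).1 h1 h2
  have hB : ∃ s t, s ≠ t ∧ HP G B (b s) (b t) := by
    rcases h.runs (hm x y hxy hxy') hx with ⟨_, h2⟩ | ⟨s, _, h2⟩ | ⟨s, t, h1, _, h2⟩ |
      ⟨_, _, _, _, _, _, _, _, _, _, h1, _⟩
    · exact absurd hz (h2 z)
    · exact absurd h2.mem_right (fun h' => hAB _ hy h')
    · exact ⟨s, t, h1, h2⟩
    · exact absurd h1 (fun h' => hAB _ hy h')
  have hA : ∃ s t, s ≠ t ∧ HP G A (a s) (a t) := by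
    rcases h.symm.runs (hm z w hzw hzw') hz with ⟨_, h2⟩ | ⟨s, _, h2⟩ | ⟨s, t, h1, _, h2⟩ |
      ⟨_, _, _, _, _, _, _, _, _, _, h1, _⟩
    · exact absurd hx (h2 x)
    · exact absurd h2.mem_right (fun h' => hAB _ h' hw)
    · exact ⟨s, t, h1, h2⟩
    · exact absurd h1 (fun h' => hAB _ h' hw)
  obtain ⟨s, t, hst, hB⟩ := hB
  obtain ⟨i, j, hij, hA⟩ := hA
  have hneA' : ∃ x ∈ A, ∃ y ∈ A, x ≠ y := ⟨x, hx, y, hy, hxy⟩
  have hneB' : ∃ x ∈ B, ∃ y ∈ B, x ≠ y := ⟨z, hz, w, hw, hzw⟩
  have hd : ∀ x y, x ≠ y → HP G A (a x) (a y) → HP G B (b x) (b y) → False :=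
    fun x y _ h1 h2 => hG (h.close h1 h2 hneA')
  obtain ⟨k, hik, hjk⟩ : ∃ k, i ≠ k ∧ j ≠ k :=
    (by decide : ∀ i j : Fin 3, ∃ k, i ≠ k ∧ j ≠ k) i j
  have fin : ∀ c, (∀ x, x ≠ c → HP G A (a c) (a x)) → False := by
    intro c hc
    obtain ⟨h1, h2, h3, h4⟩ := fin3_center (PA := fun x y => HP G A (a x) (a y))
      (PB := fun x y => HP G B (b x) (b y)) (fun _ _ h => h.symm) (fun _ _ h => h.symm) hd hst hB hc
    exact h.symm.gamma hG hm hneB' hneA' hst h1 h2 hB h3 h4 hA
  by_cases h1 : HP G A (a i) (a k)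
  · refine fin i ?_
    intro x hx
    rcases fin3_all i j k x hij hik hjk with rfl | rfl | rfl
    · exact absurd rfl hx
    · exact hA
    · exact h1
  by_cases h2 : HP G A (a j) (a k)
  · refine fin j ?_
    intro x hx
    rcases fin3_all i j k x hij hik hjk with rfl | rfl | rfl
    · exact hA.symm
    · exact absurd rfl hx
    · exact h2
  exact h.gamma hG hm hneA' hneB' hij hik hjk hA h1 h2 hB

end

theorem chain_in {G : SimpleGraph V} {A : Set V} (hno : ∀ x y, x ∈ A → y ∉ A → ¬ G.Adj x y) :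
    ∀ (L : List V), L.IsChain G.Adj → ∀ u, L.head? = some u → u ∈ A → ∀ w ∈ L, w ∈ A := by
  intro L
  induction L with
  | nil => intro _ u hu; simp at hu
  | cons c L ih =>
    intro hc u hu huA w hw
    simp only [List.head?_cons, Option.some.injEq] at hu
    subst hu
    rcases List.mem_cons.1 hw with rfl | hw
    · exact huA
    · cases L with
      | nil => simp at hw
      | cons d L =>
        rw [List.isChain_cons_cons] at hc
        have hd : d ∈ A := by
          by_contra hd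
          exact hno _ _ huA hd hc.1
        exact ih hc.2 d rfl hd w hw

/-- In a maximally nonhamiltonian graph every edge cut with at most three edges has a side which
is a clique. -/
theorem cut_clique [Fintype V] [DecidableEq V] (G : SimpleGraph V) (hG : ¬ G.IsHamiltonian)
    (hmax : ∀ u v, u ≠ v → ¬ G.Adj u v → (G ⊔ SimpleGraph.edge u v).IsHamiltonian)
    (A : Set V) (hA : Nat.card {p : V × V // p.1 ∈ A ∧ p.2 ∉ A ∧ G.Adj p.1 p.2} ≤ 3) :
    G.IsClique A ∨ G.IsClique Aᶜ := by
  classical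
  by_contra hcon
  rw [not_or] at hcon
  obtain ⟨hc1, hc2⟩ := hcon
  have hcard : Fintype.card V ≠ 1 := by
    intro h1
    exact hG (fun h => absurd h1 h)
  have hHC : ¬ HC G := fun h => hG (isHamiltonian_of_hc h)
  have hm : ∀ u v, u ≠ v → ¬ G.Adj u v → HP G Set.univ u v :=
    fun u v h1 h2 => hp_of_isHamiltonian hcard hHC (hmax u v h1 h2)
  have pick : ∀ S : Set V, ¬ G.IsClique S → ∃ x ∈ S, ∃ y ∈ S, x ≠ y ∧ ¬ G.Adj x y := by
    intro S hS
    by_contra h
    push Not at h
    exact hS (fun x hx y hy hxy => h x hx y hy hxy)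
  have hne := pick A hc1
  have hneB := pick Aᶜ hc2
  let E : Type _ := {p : V × V // p.1 ∈ A ∧ p.2 ∉ A ∧ G.Adj p.1 p.2}
  have hE : Nonempty E := by
    by_contra hE
    obtain ⟨x, hx, y, hy, hxy, hxy'⟩ := hne
    obtain ⟨z, hz, w, hw, hzw, hzw'⟩ := hneB
    obtain ⟨l, k1, k2, k3, k4, k5⟩ := hm x y hxy hxy'
    have := chain_in (A := A) (fun p q hp hq hpq => hE ⟨⟨(p, q), hp, hq, hpq⟩⟩) l k3 x k4 hx z
      ((k2 z).2 trivial)
    exact hz this
  have hemb : Nonempty (E ↪ Fin 3) := by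
    rw [Function.Embedding.nonempty_iff_card_le, Fintype.card_fin, ← Nat.card_eq_fintype_card]
    exact hA
  obtain ⟨e⟩ := hemb
  have hsurj : Function.Surjective (Function.invFun e) := Function.invFun_surjective e.injective
  refine Cut3.false (A := A) (B := Aᶜ) (a := fun i => (Function.invFun e i).1.1)
    (b := fun i => (Function.invFun e i).1.2) ⟨?_, ?_, ?_, ?_, ?_⟩ hHC hm hne hneB
  · intro x; simp
  · intro i; exact (Function.invFun e i).2.1
  · intro i; exact (Function.invFun e i).2.2.1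
  · intro i; exact (Function.invFun e i).2.2.2
  · intro x y hx hy hxy
    obtain ⟨i, hi⟩ := hsurj ⟨(x, y), hx, hy, hxy⟩
    exact ⟨i, by simp [hi], by simp [hi]⟩

end Run7.h694.Mnh
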