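import Pool.Agent.Run7.h694.Paths

/-! Gluing two graphs after deleting a vertex of degree three of each (Thomassen). -/

namespace Run7.h694.Mnh

variable {V W U : Type}

/-- A vertex of degree three with independent neighbourhood and the path properties which are
needed for the gluing. -/
structure Root (G : SimpleGraph V) (x : V) (τ : Fin 3 → V) : Prop where
  inj : ∀ a b, τ a = τ b → a = b
  adj : ∀ v, G.Adj x v ↔ ∃ a, v = τ a
  ind : ∀ a b, ¬ G.Adj (τ a) (τ b)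
  ne : ∃ u, u ≠ x ∧ ∀ a, u ≠ τ a
  out : ∀ u, u ≠ x → (∀ a, u ≠ τ a) → ∀ a, HP G {w | w ≠ x ∧ ∀ b, b ≠ a → w ≠ τ b} u (τ a)
  mid : ∀ a b, a ≠ b → HP G {w | w ≠ x ∧ ∀ c, c ≠ a → c ≠ b → w ≠ τ c} (τ a) (τ b)

theorem Root.adj' {G : SimpleGraph V} {x : V} {τ : Fin 3 → V} (h : Root G x τ) (a : Fin 3) :
    G.Adj x (τ a) := (h.adj _).2 ⟨a, rfl⟩

theorem Root.nex {G : SimpleGraph V} {x : V} {τ : Fin 3 → V} (h : Root G x τ) (a : Fin 3) :
    τ a ≠ x := (h.adj' a).ne'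

/-- `H` is the union of `G - x` and `C - y`, with `τ a` and `σ a` identified. -/
structure Glue (G : SimpleGraph V) (x : V) (τ : Fin 3 → V) (C : SimpleGraph W) (y : W)
    (σ : Fin 3 → W) (H : SimpleGraph U) (f : V → U) (g : W → U) : Prop where
  finj : ∀ u v, u ≠ x → v ≠ x → f u = f v → u = v
  ginj : ∀ i j, i ≠ y → j ≠ y → g i = g j → i = j
  fg : ∀ a, f (τ a) = g (σ a)
  ov : ∀ u i, u ≠ x → i ≠ y → f u = g i → ∃ a, u = τ a ∧ i = σ a
  cov : ∀ p, (∃ u, u ≠ x ∧ f u = p) ∨ (∃ i, i ≠ y ∧ g i = p)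
  fadj : ∀ u v, u ≠ x → v ≠ x → (H.Adj (f u) (f v) ↔ G.Adj u v)
  gadj : ∀ i j, i ≠ y → j ≠ y → (H.Adj (g i) (g j) ↔ C.Adj i j)
  sep : ∀ u i, u ≠ x → (∀ a, u ≠ τ a) → i ≠ y → (∀ a, i ≠ σ a) → ¬ H.Adj (f u) (g i)
  rx : Root G x τ
  ry : Root C y σ

section

variable {G : SimpleGraph V} {x : V} {τ : Fin 3 → V} {C : SimpleGraph W} {y : W}
    {σ : Fin 3 → W} {H : SimpleGraph U} {f : V → U} {g : W → U}

theorem Glue.symm (h : Glue G x τ C y σ H f g) : Glue C y σ G x τ H g f where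
  finj := h.ginj
  ginj := h.finj
  fg := fun a => (h.fg a).symm
  ov := by
    intro u i hu hi e
    obtain ⟨a, ha, hb⟩ := h.ov i u hi hu e.symm
    exact ⟨a, hb, ha⟩
  cov := fun p => (h.cov p).symm
  fadj := h.gadj
  gadj := h.fadj
  sep := fun u i hu hu' hi hi' e => h.sep i u hi hi' hu hu' e.symm
  rx := h.ry
  ry := h.rx

/-- The part of the new vertex set which comes from `S` (with `x` replaced). -/
def Lft (x : V) (y : W) (σ : Fin 3 → W) (f : V → U) (g : W → U) (S : Set V) : Set U :=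
  {p | (∃ w, w ≠ x ∧ w ∈ S ∧ f w = p) ∨ (∃ i, i ≠ y ∧ (∀ a, i ≠ σ a) ∧ g i = p)}

theorem Glue.lift (h : Glue G x τ C y σ H f g) {S : Set V} {u v : V} (hS : x ∈ S) (hu : u ≠ x)
    (hv : v ≠ x) (hp : HP G S u v) : HP H (Lft x y σ f g S) (f u) (f v) := by
  obtain ⟨S1, S2, s, t, hs, ht, h1, h2, hd, hS'⟩ := hp.split hS hu hv
  obtain ⟨a, rfl⟩ := (h.rx.adj s).1 hs.symm
  obtain ⟨b, rfl⟩ := (h.rx.adj t).1 ht
  have hab : a ≠ b := by
    rintro rfl
    exact hd _ h1.mem_right h2.mem_left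
  have n1 : ∀ w, w ∈ S1 → w ≠ x := fun w hw => ((hS' w).1 (Or.inl hw)).2
  have n2 : ∀ w, w ∈ S2 → w ≠ x := fun w hw => ((hS' w).1 (Or.inr hw)).2
  have m1 : HP H (f '' S1) (f u) (f (τ a)) :=
    h1.map f (fun p q hp hq e => h.finj p q (n1 _ hp) (n1 _ hq) e)
      (fun p q hp hq e => (h.fadj p q (n1 _ hp) (n1 _ hq)).2 e)
  have m2 : HP H (f '' S2) (f (τ b)) (f v) :=
    h2.map f (fun p q hp hq e => h.finj p q (n2 _ hp) (n2 _ hq) e)
      (fun p q hp hq e => (h.fadj p q (n2 _ hp) (n2 _ hq)).2 e)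
  have m3 := (h.ry.mid a b hab).map (H := H) g
      (fun p q hp hq e => h.ginj p q hp.1 hq.1 e)
      (fun p q hp hq e => (h.gadj p q hp.1 hq.1).2 e)
  rw [← h.fg, ← h.fg] at m3
  have key : ∀ w i, w ≠ x → i ≠ y → (∀ c, c ≠ a → c ≠ b → i ≠ σ c) → f w = g i →
      w = τ a ∨ w = τ b := by
    intro w i hw hi hic e
    obtain ⟨c, hc, hc'⟩ := h.ov w i hw hi e
    by_cases ha : c = a
    · left; rw [hc, ha]
    · by_cases hb : c = b
      · right; rw [hc, hb]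
      · exact absurd hc' (hic c ha hb)
  have t1 := m1.trans m3 (by
    rintro p ⟨w, hw, rfl⟩ ⟨i, hi, e⟩
    rcases key w i (n1 _ hw) hi.1 hi.2 e.symm with r | r
    · rw [r]
    · rw [r] at hw
      exact absurd h2.mem_left (fun h' => hd _ hw h'))
  have t2 := t1.trans m2 (by
    rintro p (⟨w, hw, rfl⟩ | ⟨i, hi, rfl⟩) ⟨w', hw', e⟩
    · have := h.finj _ _ (n2 _ hw') (n1 _ hw) e
      subst this
      exact (hd _ hw hw').elim
    · rcases key w' i (n2 _ hw') hi.1 hi.2 e with r | r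
      · rw [r] at hw'
        exact (hd _ h1.mem_right hw').elim
      · rw [← e, r])
  refine t2.congr ?_
  intro p
  constructor
  · rintro ((⟨w, hw, rfl⟩ | ⟨i, hi, rfl⟩) | ⟨w, hw, rfl⟩)
    · exact Or.inl ⟨w, n1 _ hw, ((hS' w).1 (Or.inl hw)).1, rfl⟩
    · by_cases hc : ∃ c, i = σ c
      · obtain ⟨c, rfl⟩ := hc
        have : c = a ∨ c = b := by
          by_contra hcon
          push Not at hcon
          exact hi.2 c hcon.1 hcon.2 rfl
        rcases this with rfl | rfl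
        · exact Or.inl ⟨τ c, h.rx.nex c, ((hS' _).1 (Or.inl h1.mem_right)).1, h.fg c⟩
        · exact Or.inl ⟨τ c, h.rx.nex c, ((hS' _).1 (Or.inr h2.mem_left)).1, h.fg c⟩
      · push Not at hc
        exact Or.inr ⟨i, hi.1, hc, rfl⟩
    · exact Or.inl ⟨w, n2 _ hw, ((hS' w).1 (Or.inr hw)).1, rfl⟩
  · rintro (⟨w, hw, hwS, rfl⟩ | ⟨i, hi, hi', rfl⟩)
    · rcases (hS' w).2 ⟨hwS, hw⟩ with hw | hw
      · exact Or.inl (Or.inl ⟨w, hw, rfl⟩)
      · exact Or.inr ⟨w, hw, rfl⟩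
    · exact Or.inl (Or.inr ⟨i, ⟨hi, fun c _ _ => hi' c⟩, rfl⟩)

theorem Glue.start (h : Glue G x τ C y σ H f g) {S : Set V} {v : V} {i : W} (hi : i ≠ y)
    (hi' : ∀ a, i ≠ σ a) (hv : v ≠ x) (hp : HP G S x v) :
    HP H (Lft x y σ f g S) (g i) (f v) := by
  obtain ⟨s, hs, h1⟩ := hp.tail hv.symm
  obtain ⟨a, rfl⟩ := (h.rx.adj s).1 hs
  have m1 := h1.map (H := H) f (fun p q hp hq e => h.finj p q hp.2 hq.2 e)
      (fun p q hp hq e => (h.fadj p q hp.2 hq.2).2 e)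
  have m2 := (h.ry.out i hi hi' a).map (H := H) g
      (fun p q hp hq e => h.ginj p q hp.1 hq.1 e)
      (fun p q hp hq e => (h.gadj p q hp.1 hq.1).2 e)
  rw [← h.fg] at m2
  have t := m2.trans m1 (by
    rintro p ⟨j, hj, rfl⟩ ⟨w, hw, e⟩
    obtain ⟨c, hc, hc'⟩ := h.ov w j hw.2 hj.1 e
    have : c = a := by
      by_contra hne
      exact hj.2 c hne hc'
    subst this
    rw [← e, hc])
  refine t.congr ?_
  intro p
  constructor
  · rintro (⟨j, hj, rfl⟩ | ⟨w, hw, rfl⟩)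
    · by_cases hc : ∃ c, j = σ c
      · obtain ⟨c, rfl⟩ := hc
        have : c = a := by
          by_contra hne
          exact hj.2 c hne rfl
        subst this
        exact Or.inl ⟨τ c, h.rx.nex c, h1.mem_left.1, h.fg c⟩
      · push Not at hc
        exact Or.inr ⟨j, hj.1, hc, rfl⟩
    · exact Or.inl ⟨w, hw.2, hw.1, rfl⟩
  · rintro (⟨w, hw, hwS, rfl⟩ | ⟨j, hj, hj', rfl⟩)
    · exact Or.inr ⟨w, ⟨hwS, hw⟩, rfl⟩
    · exact Or.inl ⟨j, ⟨hj, fun c _ => hj' c⟩, rfl⟩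

/-- Every nonadjacent pair of the new graph is joined by a Hamilton path. -/
theorem Glue.maxi (h : Glue G x τ C y σ H f g)
    (hG : ∀ u v, u ≠ v → ¬ G.Adj u v → HP G Set.univ u v)
    (hC : ∀ u v, u ≠ v → ¬ C.Adj u v → HP C Set.univ u v) :
    ∀ p q, p ≠ q → ¬ H.Adj p q → HP H Set.univ p q := by
  have uni : ∀ p : U, p ∈ Lft x y σ f g Set.univ ↔ p ∈ Set.univ := by
    intro p
    refine ⟨fun _ => trivial, fun _ => ?_⟩
    rcases h.cov p with ⟨u, hu, rfl⟩ | ⟨i, hi, rfl⟩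
    · exact Or.inl ⟨u, hu, trivial, rfl⟩
    · by_cases hc : ∃ c, i = σ c
      · obtain ⟨c, rfl⟩ := hc
        exact Or.inl ⟨τ c, h.rx.nex c, trivial, h.fg c⟩
      · push Not at hc
        exact Or.inr ⟨i, hi, hc, rfl⟩
  have uni' : ∀ p : U, p ∈ Lft y x τ g f Set.univ ↔ p ∈ Set.univ := by
    intro p
    refine ⟨fun _ => trivial, fun _ => ?_⟩
    rcases h.cov p with ⟨u, hu, rfl⟩ | ⟨i, hi, rfl⟩
    · by_cases hc : ∃ c, u = τ c
      · obtain ⟨c, rfl⟩ := hc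
        exact Or.inl ⟨σ c, h.ry.nex c, trivial, (h.fg c).symm⟩
      · push Not at hc
        exact Or.inr ⟨u, hu, hc, rfl⟩
    · exact Or.inl ⟨i, hi, trivial, rfl⟩
  have ff : ∀ u v, u ≠ x → v ≠ x → f u ≠ f v → ¬ H.Adj (f u) (f v) →
      HP H Set.univ (f u) (f v) := by
    intro u v hu hv hne hna
    have hne' : u ≠ v := fun e => hne (by rw [e])
    rw [h.fadj u v hu hv] at hna
    exact (h.lift (Set.mem_univ x) hu hv (hG u v hne' hna)).congr uni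
  have gg : ∀ i j, i ≠ y → j ≠ y → g i ≠ g j → ¬ H.Adj (g i) (g j) →
      HP H Set.univ (g i) (g j) := by
    intro u v hu hv hne hna
    have hne' : u ≠ v := fun e => hne (by rw [e])
    rw [h.gadj u v hu hv] at hna
    exact (h.symm.lift (Set.mem_univ y) hu hv (hC u v hne' hna)).congr uni'
  have fgc : ∀ u i, u ≠ x → i ≠ y → f u ≠ g i → ¬ H.Adj (f u) (g i) →
      HP H Set.univ (f u) (g i) := by
    intro u i hu hi hne hna
    by_cases hc : ∃ c, u = τ c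
    · obtain ⟨c, rfl⟩ := hc
      rw [h.fg] at hne hna ⊢
      exact gg _ _ (h.ry.nex c) hi hne hna
    · push Not at hc
      by_cases hd : ∃ c, i = σ c
      · obtain ⟨c, rfl⟩ := hd
        rw [← h.fg] at hne hna ⊢
        exact ff _ _ hu (h.rx.nex c) hne hna
      · push Not at hd
        have hyi : ¬ C.Adj y i := by
          rw [h.ry.adj]
          rintro ⟨a, ha⟩
          exact hd a ha
        exact (h.symm.start hu hc hi (hC y i hi.symm hyi)).congr uni'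
  intro p q hpq hna
  rcases h.cov p with ⟨u, hu, rfl⟩ | ⟨i, hi, rfl⟩
  · rcases h.cov q with ⟨v, hv, rfl⟩ | ⟨j, hj, rfl⟩
    · exact ff u v hu hv hpq hna
    · exact fgc u j hu hj hpq hna
  · rcases h.cov q with ⟨v, hv, rfl⟩ | ⟨j, hj, rfl⟩
    · exact (fgc v i hv hi hpq.symm (fun e => hna e.symm)).symm
    · exact gg i j hi hj hpq hna

/-- Another root of `G` stays a root. -/
theorem Glue.root (h : Glue G x τ C y σ H f g) {x1 : V} {τ1 : Fin 3 → V} (h1 : Root G x1 τ1)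
    (hx : x1 ≠ x) (hna : ¬ G.Adj x1 x) : Root H (f x1) (fun a => f (τ1 a)) := by
  have n1 : ∀ a, τ1 a ≠ x := by
    intro a e
    exact hna ((h1.adj x).2 ⟨a, e.symm⟩)
  have n2 : ∀ a, x1 ≠ τ a := by
    intro a e
    exact hna ((h.rx.adj x1).2 ⟨a, e⟩).symm
  have ig1 : ∀ i, i ≠ y → (∀ a, i ≠ σ a) → ∀ u, u ≠ x → g i ≠ f u := by
    intro i hi hi' u hu e
    obtain ⟨a, ha, hb⟩ := h.ov u i hu hi e.symm
    exact hi' a hb
  refine ⟨?_, ?_, ?_, ?_, ?_, ?_⟩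
  · intro a b hab
    exact h1.inj _ _ (h.finj _ _ (n1 a) (n1 b) hab)
  · intro p
    constructor
    · intro hp
      rcases h.cov p with ⟨u, hu, rfl⟩ | ⟨i, hi, rfl⟩
      · rw [h.fadj _ _ hx hu, h1.adj] at hp
        obtain ⟨a, ha⟩ := hp
        exact ⟨a, by rw [ha]⟩
      · by_cases hc : ∃ c, i = σ c
        · obtain ⟨c, rfl⟩ := hc
          rw [← h.fg, h.fadj _ _ hx (h.rx.nex c), h1.adj] at hp
          obtain ⟨a, ha⟩ := hp
          exact ⟨a, by rw [← h.fg, ha]⟩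
        · push Not at hc
          exact absurd hp (h.sep _ _ hx n2 hi hc)
    · rintro ⟨a, rfl⟩
      exact (h.fadj _ _ hx (n1 a)).2 (h1.adj' a)
  · intro a b hab
    exact h1.ind a b ((h.fadj _ _ (n1 a) (n1 b)).1 hab)
  · obtain ⟨i, hi, hi'⟩ := h.ry.ne
    exact ⟨g i, ig1 i hi hi' _ hx, fun a => ig1 i hi hi' _ (n1 a)⟩
  · intro p hp hp' a
    have hcongr : ∀ q, q ∈ Lft x y σ f g {w | w ≠ x1 ∧ ∀ b, b ≠ a → w ≠ τ1 b} ↔
        q ∈ {w | w ≠ f x1 ∧ ∀ b, b ≠ a → w ≠ f (τ1 b)} := by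
      intro q
      constructor
      · rintro (⟨w, hw, hwS, rfl⟩ | ⟨i, hi, hi', rfl⟩)
        · refine ⟨fun e => hwS.1 (h.finj _ _ hw hx e), fun b hb e => ?_⟩
          exact hwS.2 b hb (h.finj _ _ hw (n1 b) e)
        · exact ⟨ig1 i hi hi' _ hx, fun b _ => ig1 i hi hi' _ (n1 b)⟩
      · rintro ⟨hq, hq'⟩
        rcases h.cov q with ⟨u, hu, rfl⟩ | ⟨i, hi, rfl⟩
        · exact Or.inl ⟨u, hu, ⟨fun e => hq (by rw [e]), fun b hb e => hq' b hb (by rw [e])⟩, rfl⟩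
        · by_cases hc : ∃ c, i = σ c
          · obtain ⟨c, rfl⟩ := hc
            refine Or.inl ⟨τ c, h.rx.nex c, ⟨fun e => hq ?_, fun b hb e => hq' b hb ?_⟩, h.fg c⟩
            · rw [← h.fg, e]
            · rw [← h.fg, e]
          · push Not at hc
            exact Or.inr ⟨i, hi, hc, rfl⟩
    have hxS : x ∈ {w | w ≠ x1 ∧ ∀ b, b ≠ a → w ≠ τ1 b} := ⟨hx.symm, fun b _ => (n1 b).symm⟩
    have case1 : ∀ u, u ≠ x → (f u ≠ f x1) → (∀ a, f u ≠ f (τ1 a)) →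
        HP H {w | w ≠ f x1 ∧ ∀ b, b ≠ a → w ≠ f (τ1 b)} (f u) (f (τ1 a)) := by
      intro u hu e1 e2
      refine (h.lift hxS hu (n1 a) (h1.out u ?_ ?_ a)).congr hcongr
      · exact fun e => e1 (by rw [e])
      · exact fun b e => e2 b (by rw [e])
    rcases h.cov p with ⟨u, hu, rfl⟩ | ⟨i, hi, rfl⟩
    · exact case1 u hu hp hp'
    · by_cases hc : ∃ c, i = σ c
      · obtain ⟨c, rfl⟩ := hc
        rw [← h.fg] at hp hp' ⊢
        exact case1 _ (h.rx.nex c) hp hp'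
      · push Not at hc
        exact (h.start hi hc (n1 a) (h1.out x hx.symm (fun b => (n1 b).symm) a)).congr hcongr
  · intro a b hab
    have hxS : x ∈ {w | w ≠ x1 ∧ ∀ c, c ≠ a → c ≠ b → w ≠ τ1 c} :=
      ⟨hx.symm, fun b _ _ => (n1 b).symm⟩
    refine (h.lift hxS (n1 a) (n1 b) (h1.mid a b hab)).congr ?_
    intro q
    constructor
    · rintro (⟨w, hw, hwS, rfl⟩ | ⟨i, hi, hi', rfl⟩)
      · refine ⟨fun e => hwS.1 (h.finj _ _ hw hx e), fun c hb hb' e => ?_⟩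
        exact hwS.2 c hb hb' (h.finj _ _ hw (n1 c) e)
      · exact ⟨ig1 i hi hi' _ hx, fun b _ _ => ig1 i hi hi' _ (n1 b)⟩
    · rintro ⟨hq, hq'⟩
      rcases h.cov q with ⟨u, hu, rfl⟩ | ⟨i, hi, rfl⟩
      · exact Or.inl ⟨u, hu, ⟨fun e => hq (by rw [e]),
          fun c hb hb' e => hq' c hb hb' (by rw [e])⟩, rfl⟩
      · by_cases hc : ∃ c, i = σ c
        · obtain ⟨c, rfl⟩ := hc
          refine Or.inl ⟨τ c, h.rx.nex c,
            ⟨fun e => hq ?_, fun b hb hb' e => hq' b hb hb' ?_⟩, h.fg c⟩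
          · rw [← h.fg, e]
          · rw [← h.fg, e]
        · push Not at hc
          exact Or.inr ⟨i, hi, hc, rfl⟩

end

end Run7.h694.Mnh
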