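import Pool.Agent.Run7.h694.Glue

/-! Cycles of the glued graph. -/

namespace Run7.h694.Mnh

variable {V W U : Type}

section

variable {G : SimpleGraph V} {x : V} {τ : Fin 3 → V} {C : SimpleGraph W} {y : W}
    {σ : Fin 3 → W} {H : SimpleGraph U} {f : V → U} {g : W → U}

/-- Vertices of `G` away from the terminals. -/
def Side (x : V) (τ : Fin 3 → V) (f : V → U) (p : U) : Prop :=
  ∃ u, u ≠ x ∧ (∀ a, u ≠ τ a) ∧ f u = p

theorem Glue.tri (h : Glue G x τ C y σ H f g) (p : U) :
    Side x τ f p ∨ Side y σ g p ∨ ∃ a, p = f (τ a) := by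
  rcases h.cov p with ⟨u, hu, rfl⟩ | ⟨i, hi, rfl⟩
  · by_cases hc : ∃ c, u = τ c
    · obtain ⟨c, rfl⟩ := hc
      exact Or.inr (Or.inr ⟨c, rfl⟩)
    · push Not at hc
      exact Or.inl ⟨u, hu, hc, rfl⟩
  · by_cases hc : ∃ c, i = σ c
    · obtain ⟨c, rfl⟩ := hc
      exact Or.inr (Or.inr ⟨c, (h.fg c).symm⟩)
    · push Not at hc
      exact Or.inr (Or.inl ⟨i, hi, hc, rfl⟩)

theorem Glue.side_not (h : Glue G x τ C y σ H f g) {p : U} (h1 : Side x τ f p) {a : Fin 3} :
    p ≠ f (τ a) := by
  obtain ⟨u, hu, hu', rfl⟩ := h1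
  intro e
  exact hu' a (h.finj _ _ hu (h.rx.nex a) e)

theorem Glue.side_not' (h : Glue G x τ C y σ H f g) {p : U} (h1 : Side y σ g p) {a : Fin 3} :
    p ≠ f (τ a) := by
  rw [h.fg]
  exact h.symm.side_not h1

theorem Glue.side_side (h : Glue G x τ C y σ H f g) {p : U} (h1 : Side x τ f p)
    (h2 : Side y σ g p) : False := by
  obtain ⟨u, hu, hu', rfl⟩ := h1
  obtain ⟨i, hi, hi', e⟩ := h2
  obtain ⟨a, ha, _⟩ := h.ov u i hu hi e.symm
  exact hu' a ha

theorem Glue.side_sep (h : Glue G x τ C y σ H f g) {p q : U} (h1 : Side x τ f p)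
    (h2 : Side y σ g q) : ¬ H.Adj p q := by
  obtain ⟨u, hu, hu', rfl⟩ := h1
  obtain ⟨i, hi, hi', rfl⟩ := h2
  exact h.sep u i hu hu' hi hi'

/-- Not on the side of `C` means in the image of `G - x`. -/
theorem Glue.not_side (h : Glue G x τ C y σ H f g) {p : U} :
    ¬ Side y σ g p ↔ ∃ u, u ≠ x ∧ f u = p := by
  constructor
  · intro hp
    rcases h.tri p with ⟨u, hu, _, rfl⟩ | h1 | ⟨a, rfl⟩
    · exact ⟨u, hu, rfl⟩
    · exact absurd h1 hp
    · exact ⟨τ a, h.rx.nex a, rfl⟩
  · rintro ⟨u, hu, rfl⟩ ⟨i, hi, hi', e⟩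
    obtain ⟨a, _, hb⟩ := h.ov u i hu hi e.symm
    exact hi' a hb

theorem Glue.mono (h : Glue G x τ C y σ H f g) : ∀ L : List U, L.IsChain H.Adj →
    (∀ p ∈ L, ∀ a, p ≠ f (τ a)) → (∀ p ∈ L, Side x τ f p) ∨ (∀ p ∈ L, Side y σ g p) := by
  intro L
  induction L with
  | nil => intro _ _; left; simp
  | cons p L ih =>
    intro hc hT
    rw [List.isChain_cons] at hc
    have ih' := ih hc.2 (fun q hq => hT q (List.mem_cons_of_mem _ hq))
    cases L with
    | nil =>
      rcases h.tri p with h1 | h1 | ⟨a, ha⟩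
      · left; simpa using h1
      · right; simpa using h1
      · exact absurd ha (hT p (by simp) a)
    | cons q L =>
      have hpq : H.Adj p q := hc.1 q (by simp)
      rcases h.tri p with h1 | h1 | ⟨a, ha⟩
      · rcases ih' with ih' | ih'
        · left
          intro r hr
          rcases List.mem_cons.1 hr with rfl | hr
          · exact h1
          · exact ih' r hr
        · exact absurd hpq (h.side_sep h1 (ih' q (by simp)))
      · rcases ih' with ih' | ih'
        · exact absurd hpq.symm (h.side_sep (ih' q (by simp)) h1)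
        · right
          intro r hr
          rcases List.mem_cons.1 hr with rfl | hr
          · exact h1
          · exact ih' r hr
      · exact absurd ha (hT p (by simp) a)

theorem Glue.one (h : Glue G x τ C y σ H f g) {P Q : List U} {a b : Fin 3} (hab : a ≠ b)
    (hP : ∀ p ∈ P, Side y σ g p) (hQ : ∀ p ∈ Q, ¬ Side y σ g p)
    (hc : CycL H (P ++ Q)) (hf : ∀ p, p ∈ P ++ Q) (hh : Q.head? = some (f (τ b)))
    (hl : Q.getLast? = some (f (τ a))) : HC G := by
  have hnd := List.nodup_append.1 hc.1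
  have h1 : HP H {w | w ∈ Q} (f (τ b)) (f (τ a)) :=
    ⟨Q, hnd.2.1, fun _ => Iff.rfl, hc.2.2.1.right_of_append, hh, hl⟩
  have h2 : HP G {w | w ≠ x} (τ b) (τ a) := by
    refine HP.pull f ?_ ?_ ?_ (h.rx.nex b) (h.rx.nex a) h1
    · intro p q hp hq e; exact h.finj p q hp hq e
    · intro p q hp hq e; exact (h.fadj p q hp hq).1 e
    · intro p
      constructor
      · intro hp
        exact h.not_side.1 (hQ p hp)
      · intro hp
        have hp' := h.not_side.2 hp
        rcases List.mem_append.1 (hf p) with h3 | h3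
        · exact absurd (hP p h3) hp'
        · exact h3
  refine h2.close ?_ (h.rx.adj' b) (h.rx.adj' a).symm
  intro e
  exact hab (h.rx.inj _ _ e).symm

theorem Glue.three (h : Glue G x τ C y σ H f g) {L : List U} (hc : CycL H L)
    (hf : ∀ p, p ∈ L) : ∃ (a b c : Fin 3) (P Q R : List U), a ≠ b ∧ b ≠ c ∧ c ≠ a ∧
      CycL H (f (τ a) :: (P ++ f (τ b) :: (Q ++ f (τ c) :: R))) ∧
      (∀ p, p ∈ f (τ a) :: (P ++ f (τ b) :: (Q ++ f (τ c) :: R))) := by
  obtain ⟨s, t, rfl⟩ := List.append_of_mem (hf (f (τ 0)))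
  have hc' := hc.rot
  have hf' : ∀ p, p ∈ f (τ 0) :: (t ++ s) := by
    intro p
    have := hf p
    simp only [List.mem_append, List.mem_cons] at this ⊢
    tauto
  have hc2 : CycL H (f (τ 0) :: (t ++ s)) := by simpa using hc'
  have neT : ∀ a b, a ≠ b → f (τ a) ≠ f (τ b) := by
    intro a b hab e
    exact hab (h.rx.inj _ _ (h.finj _ _ (h.rx.nex a) (h.rx.nex b) e))
  have m1 : f (τ 1) ∈ t ++ s := by
    rcases List.mem_cons.1 (hf' (f (τ 1))) with e | e
    · exact absurd e (neT 1 0 (by decide))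
    · exact e
  generalize t ++ s = l at hc2 hf' m1
  obtain ⟨P, R, rfl⟩ := List.append_of_mem m1
  have m2 : f (τ 2) ∈ P ∨ f (τ 2) ∈ R := by
    have := hf' (f (τ 2))
    simp only [List.mem_append, List.mem_cons] at this
    rcases this with e | e | e | e
    · exact absurd e (neT 2 0 (by decide))
    · exact Or.inl e
    · exact absurd e (neT 2 1 (by decide))
    · exact Or.inr e
  rcases m2 with m2 | m2
  · obtain ⟨P1, P2, rfl⟩ := List.append_of_mem m2
    refine ⟨0, 2, 1, P1, P2, R, by decide, by decide, by decide, ?_, ?_⟩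
    · simpa using hc2
    · simpa using hf'
  · obtain ⟨P1, P2, rfl⟩ := List.append_of_mem m2
    refine ⟨0, 1, 2, P, P1, P2, by decide, by decide, by decide, ?_, ?_⟩
    · simpa using hc2
    · simpa using hf'

theorem fin3 : ∀ a b c d : Fin 3, a ≠ b → b ≠ c → c ≠ a → d = a ∨ d = b ∨ d = c := by decide

/-- One run on the side of `C`, the rest on the side of `G`. -/
theorem Glue.oneside (h : Glue G x τ C y σ H f g) {a b c : Fin 3} (hab : a ≠ b)
    {P Q R : List U} (hP : ∀ p ∈ P, Side y σ g p) (hQ : ∀ p ∈ Q, Side x τ f p)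
    (hR : ∀ p ∈ R, Side x τ f p)
    (hc : CycL H (f (τ a) :: (P ++ f (τ b) :: (Q ++ f (τ c) :: R))))
    (hf : ∀ p, p ∈ f (τ a) :: (P ++ f (τ b) :: (Q ++ f (τ c) :: R))) : HC G := by
  have r1 : CycL H (P ++ (f (τ b) :: (Q ++ f (τ c) :: (R ++ [f (τ a)])))) := by
    have := CycL.rot (L1 := [f (τ a)]) hc
    simpa using this
  refine h.one (a := a) (b := b) hab hP ?_ r1 ?_ rfl ?_
  · intro p hp
    simp only [List.mem_append, List.mem_cons, List.not_mem_nil, or_false] at hp
    rcases hp with rfl | hp | rfl | hp | rfl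
    · exact fun hd => h.side_not' hd rfl
    · exact fun hd => h.side_side (hQ _ hp) hd
    · exact fun hd => h.side_not' hd rfl
    · exact fun hd => h.side_side (hR _ hp) hd
    · exact fun hd => h.side_not' hd rfl
  · intro p
    have := hf p
    simp only [List.mem_append, List.mem_cons, List.not_mem_nil, or_false] at this ⊢
    rcases this with h | h | h | h | h | h
    · exact Or.inr (Or.inr (Or.inr (Or.inr (Or.inr h))))
    · exact Or.inl h
    · exact Or.inr (Or.inl h)
    · exact Or.inr (Or.inr (Or.inl h))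
    · exact Or.inr (Or.inr (Or.inr (Or.inl h)))
    · exact Or.inr (Or.inr (Or.inr (Or.inr (Or.inl h))))
  · have : f (τ b) :: (Q ++ f (τ c) :: (R ++ [f (τ a)])) =
        (f (τ b) :: (Q ++ f (τ c) :: R)) ++ [f (τ a)] := by simp
    rw [this, List.getLast?_append]
    rfl

/-- Some vertex lies on the other side. -/
theorem Glue.allside (h : Glue G x τ C y σ H f g) {a b c : Fin 3}
    {P Q R : List U} (hP : ∀ p ∈ P, Side x τ f p) (hQ : ∀ p ∈ Q, Side x τ f p)
    (hR : ∀ p ∈ R, Side x τ f p)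
    (hf : ∀ p, p ∈ f (τ a) :: (P ++ f (τ b) :: (Q ++ f (τ c) :: R))) : False := by
  obtain ⟨i, hi, hi'⟩ := h.ry.ne
  have hs : Side y σ g (g i) := ⟨i, hi, hi', rfl⟩
  have := hf (g i)
  simp only [List.mem_append, List.mem_cons] at this
  rcases this with e | e | e | e | e | e
  · exact h.side_not' hs e
  · exact h.side_side (hP _ e) hs
  · exact h.side_not' hs e
  · exact h.side_side (hQ _ e) hs
  · exact h.side_not' hs e
  · exact h.side_side (hR _ e) hs

/-- Rotation of a decomposed cycle. -/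
theorem rot3 {H : SimpleGraph U} {s t r : U} {P Q R : List U}
    (hc : CycL H (s :: (P ++ t :: (Q ++ r :: R))) ∧ ∀ p, p ∈ s :: (P ++ t :: (Q ++ r :: R))) :
    CycL H (t :: (Q ++ r :: (R ++ s :: P))) ∧ ∀ p, p ∈ t :: (Q ++ r :: (R ++ s :: P)) := by
  constructor
  · have := CycL.rot (L1 := s :: P) (L2 := t :: (Q ++ r :: R)) (by simpa using hc.1)
    simpa using this
  · intro p
    have := hc.2 p
    simp only [List.mem_append, List.mem_cons] at this ⊢
    rcases this with h | h | h | h | h | h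
    · exact Or.inr (Or.inr (Or.inr (Or.inr (Or.inl h))))
    · exact Or.inr (Or.inr (Or.inr (Or.inr (Or.inr h))))
    · exact Or.inl h
    · exact Or.inr (Or.inl h)
    · exact Or.inr (Or.inr (Or.inl h))
    · exact Or.inr (Or.inr (Or.inr (Or.inl h)))

/-- The inner vertices of the pieces are no terminals. -/
theorem notT {s t r : U} {P Q R : List U} (hnd : (s :: (P ++ t :: (Q ++ r :: R))).Nodup) :
    ∀ p, p ∈ P ∨ p ∈ Q ∨ p ∈ R → p ≠ s ∧ p ≠ t ∧ p ≠ r := by
  have h1 := List.nodup_cons.1 hnd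
  have h2 := List.nodup_append.1 h1.2
  have h3 := List.nodup_cons.1 h2.2.1
  have h4 := List.nodup_append.1 h3.2
  have h5 := List.nodup_cons.1 h4.2.1
  intro p hp
  refine ⟨?_, ?_, ?_⟩
  · rintro rfl
    have := h1.1
    simp only [List.mem_append, List.mem_cons, not_or] at this
    rcases hp with hp | hp | hp
    · exact this.1 hp
    · exact this.2.2.1 hp
    · exact this.2.2.2.2 hp
  · rintro rfl
    have := h3.1
    simp only [List.mem_append, List.mem_cons, not_or] at this
    rcases hp with hp | hp | hp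
    · exact h2.2.2 _ hp _ (by simp) rfl
    · exact this.1 hp
    · exact this.2.2 hp
  · rintro rfl
    rcases hp with hp | hp | hp
    · exact h2.2.2 _ hp _ (by simp) rfl
    · exact h4.2.2 _ hp _ (by simp) rfl
    · exact h5.1 hp

/-- The glued graph has no Hamilton cycle. -/
theorem Glue.nonham (h : Glue G x τ C y σ H f g) (hG : ¬ HC G) (hC : ¬ HC C) : ¬ HC H := by
  rintro ⟨L, hL, hLf⟩
  obtain ⟨a, b, c, P, Q, R, hab, hbc, hca, hcyc, hf⟩ := h.three hL hLf
  have nT : ∀ p, p ∈ P ∨ p ∈ Q ∨ p ∈ R → ∀ d, p ≠ f (τ d) := by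
    intro p hp d e
    have := notT hcyc.1 p hp
    rcases fin3 a b c d hab hbc hca with rfl | rfl | rfl
    · exact this.1 e
    · exact this.2.1 e
    · exact this.2.2 e
  have ch := hcyc.2.2.1
  have c1 := (List.isChain_cons.1 ch).2
  have c2 := (List.isChain_cons.1 c1.right_of_append).2
  have c3 := (List.isChain_cons.1 c2.right_of_append).2
  have mP := h.mono P c1.left_of_append (fun p hp => nT p (Or.inl hp))
  have mQ := h.mono Q c2.left_of_append (fun p hp => nT p (Or.inr (Or.inl hp)))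
  have mR := h.mono R c3 (fun p hp => nT p (Or.inr (Or.inr hp)))
  have e1 := And.intro hcyc hf
  have e2 := rot3 e1
  have e3 := rot3 e2
  rcases mP with mP | mP
  · rcases mQ with mQ | mQ
    · rcases mR with mR | mR
      · exact h.allside mP mQ mR hf
      · exact hG (h.oneside hca mR mP mQ e3.1 e3.2)
    · rcases mR with mR | mR
      · exact hG (h.oneside hbc mQ mR mP e2.1 e2.2)
      · simp only [h.fg] at e1
        exact hC (h.symm.oneside hab mP mQ mR e1.1 e1.2)
  · rcases mQ with mQ | mQ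
    · rcases mR with mR | mR
      · exact hG (h.oneside hab mP mQ mR e1.1 e1.2)
      · simp only [h.fg] at e2
        exact hC (h.symm.oneside hbc mQ mR mP e2.1 e2.2)
    · rcases mR with mR | mR
      · simp only [h.fg] at e3
        exact hC (h.symm.oneside hca mR mP mQ e3.1 e3.2)
      · simp only [h.fg] at hf
        exact h.symm.allside mP mQ mR hf

end

end Run7.h694.Mnh
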