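import Pool.Agent.Run7.h694.GlueCyc

/-! Short cycles of the glued graph. -/

namespace Run7.h694.Mnh

variable {V W U : Type}

theorem run_from {α : Type} (P : α → Prop) : ∀ (l : List α) (z : α), ¬ P z →
    ∃ run t' post, l ++ [z] = run ++ t' :: post ∧ (∀ p ∈ run, P p) ∧ ¬ P t' := by
  intro l
  induction l with
  | nil => intro z hz; exact ⟨[], z, [], rfl, by simp, hz⟩
  | cons a l ih =>
    intro z hz
    by_cases ha : P a
    · obtain ⟨run, t', post, h1, h2, h3⟩ := ih z hz
      refine ⟨a :: run, t', post, by rw [List.cons_append, h1]; rfl, ?_, h3⟩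
      intro p hp
      rcases List.mem_cons.1 hp with rfl | hp
      · exact ha
      · exact h2 p hp
    · exact ⟨[], a, l ++ [z], rfl, by simp, ha⟩

theorem exists_run {α : Type} (P : α → Prop) : ∀ (l : List α) (a z : α), ¬ P a → ¬ P z →
    (∃ p ∈ l, P p) → ∃ pre t run t' post, a :: (l ++ [z]) = pre ++ t :: (run ++ t' :: post) ∧
      run ≠ [] ∧ (∀ p ∈ run, P p) ∧ ¬ P t ∧ ¬ P t' := by
  intro l
  induction l with
  | nil => intro a z _ _ h; simp at h
  | cons b l ih =>
    intro a z ha hz h
    by_cases hb : P b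
    · obtain ⟨run, t', post, h1, h2, h3⟩ := run_from P l z hz
      refine ⟨[], a, b :: run, t', post, ?_, by simp, ?_, ha, h3⟩
      · simp [h1]
      · intro p hp
        rcases List.mem_cons.1 hp with rfl | hp
        · exact hb
        · exact h2 p hp
    · have : ∃ p ∈ l, P p := by
        obtain ⟨p, hp, hp'⟩ := h
        rcases List.mem_cons.1 hp with rfl | hp
        · exact absurd hp' hb
        · exact ⟨p, hp, hp'⟩
      obtain ⟨pre, t, run, t', post, h1, h2⟩ := ih b z hb hz this
      exact ⟨a :: pre, t, run, t', post, by rw [List.cons_append, h1]; rfl, h2⟩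

theorem lift_list {α β : Type} (g : α → β) (T : α → Prop) : ∀ L : List β,
    (∀ p ∈ L, ∃ i, T i ∧ g i = p) → ∃ L0 : List α, L0.map g = L ∧ ∀ i ∈ L0, T i := by
  intro L
  induction L with
  | nil => intro _; exact ⟨[], rfl, by simp⟩
  | cons p L ih =>
    intro h
    obtain ⟨L0, h1, h2⟩ := ih (fun q hq => h q (List.mem_cons_of_mem _ hq))
    obtain ⟨i, hi, rfl⟩ := h p (by simp)
    refine ⟨i :: L0, by simp [h1], ?_⟩
    intro j hj
    rcases List.mem_cons.1 hj with rfl | hj
    · exact hi
    · exact h2 j hj

section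

variable {G : SimpleGraph V} {x : V} {τ : Fin 3 → V} {C : SimpleGraph W} {y : W}
    {σ : Fin 3 → W} {H : SimpleGraph U} {f : V → U} {g : W → U}

theorem Glue.pullList (h : Glue G x τ C y σ H f g) {L : List U}
    (hL : ∀ p ∈ L, ¬ Side y σ g p) (hn : L.Nodup) (hc : L.IsChain H.Adj) :
    ∃ L0 : List V, L0.map f = L ∧ (∀ i ∈ L0, i ≠ x) ∧ L0.Nodup ∧ L0.IsChain G.Adj := by
  obtain ⟨L0, h1, h2⟩ := lift_list f (fun u => u ≠ x) L (fun p hp => h.not_side.1 (hL p hp))
  subst h1
  refine ⟨L0, rfl, h2, List.Nodup.of_map f hn, ?_⟩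
  rw [List.isChain_map] at hc
  exact hc.imp_of_mem_imp (fun a b ha hb hab => (h.fadj a b (h2 a ha) (h2 b hb)).1 hab)

theorem Glue.noside (h : Glue G x τ C y σ H f g) (hG : ∀ L, CycL G L → 7 ≤ L.length)
    {L : List U} (hL : ∀ p ∈ L, ¬ Side y σ g p) (hc : CycL H L) : 7 ≤ L.length := by
  obtain ⟨L0, h1, h2, h3, h4⟩ := h.pullList hL hc.1 hc.2.2.1
  subst h1
  rw [List.length_map]
  refine hG L0 ⟨h3, by simpa using hc.2.1, h4, ?_⟩
  intro a ha b hb
  have ha' : a ∈ L0 := List.mem_of_mem_getLast? ha
  have hb' : b ∈ L0 := List.mem_of_mem_head? hb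
  rw [← h.fadj a b (h2 a ha') (h2 b hb')]
  refine hc.2.2.2 _ ?_ _ ?_
  · simp only [Option.mem_def] at ha
    simp [ha]
  · simp only [Option.mem_def] at hb
    simp [hb]

theorem Glue.isT (h : Glue G x τ C y σ H f g) {p q : U} (hp : ¬ Side y σ g p)
    (hq : Side y σ g q) (hpq : H.Adj p q) : ∃ a, p = f (τ a) := by
  rcases h.tri p with h1 | h1 | h1
  · exact absurd hpq (h.side_sep h1 hq)
  · exact absurd h1 hp
  · exact h1

/-- A cycle with vertices on both sides has at least four vertices on the side of `C`. -/
theorem Glue.run4 (h : Glue G x τ C y σ H f g) (hC : ∀ L, CycL C L → 7 ≤ L.length)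
    {L : List U} (hc : CycL H L) (h1 : ∃ p ∈ L, Side x τ f p) (h2 : ∃ p ∈ L, Side y σ g p) :
    ∃ run : List U, (∀ p ∈ run, Side y σ g p) ∧ run ⊆ L ∧ run.Nodup ∧ 4 ≤ run.length := by
  obtain ⟨a, haL, ha⟩ := h1
  obtain ⟨s, t, rfl⟩ := List.append_of_mem haL
  have hc' : CycL H (a :: (t ++ s)) := by simpa using hc.rot
  have hsub : ∀ p, p ∈ a :: (t ++ s) → p ∈ s ++ a :: t := by
    intro p hp
    simp only [List.mem_append, List.mem_cons] at hp ⊢
    tauto
  have h2' : ∃ p ∈ t ++ s, Side y σ g p := by
    obtain ⟨p, hp, hp'⟩ := h2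
    refine ⟨p, ?_, hp'⟩
    simp only [List.mem_append, List.mem_cons] at hp ⊢
    rcases hp with hp | hp | hp
    · exact Or.inr hp
    · subst hp; exact (h.side_side ha hp').elim
    · exact Or.inl hp
  generalize t ++ s = l at hc' hsub h2'
  have hna : ¬ Side y σ g a := fun e => h.side_side ha e
  obtain ⟨pre, t, run, t', post, e1, e2, e3, e4, e5⟩ :=
    exists_run (Side y σ g) l a a hna hna h2'
  have hch : (a :: (l ++ [a])).IsChain H.Adj := by
    have : a :: (l ++ [a]) = (a :: l) ++ [a] := by simp
    rw [this, List.isChain_append]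
    refine ⟨hc'.2.2.1, by simp, ?_⟩
    intro p hp q hq
    simp at hq
    subst hq
    exact hc'.2.2.2 p hp _ (by simp)
  rw [e1] at hch
  have hch1 := hch.right_of_append
  have hch2 := List.isChain_cons.1 hch1
  -- first and last elements of the run
  obtain ⟨r, run', hr⟩ : ∃ r run', run = r :: run' := by
    cases run with
    | nil => exact absurd rfl e2
    | cons r run' => exact ⟨r, run', rfl⟩
  obtain ⟨z, run'', hz⟩ : ∃ z run'', run = run'' ++ [z] := by
    rcases List.eq_nil_or_concat run with h | ⟨q, b, h⟩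
    · exact absurd h e2
    · exact ⟨b, q, by simpa using h⟩
  have hr' : Side y σ g r := e3 r (by rw [hr]; simp)
  have hz' : Side y σ g z := e3 z (by rw [hz]; simp)
  have htr : H.Adj t r := hch2.1 r (by rw [hr]; simp)
  obtain ⟨α, hα⟩ := h.isT e4 hr' htr
  have hzt : H.Adj z t' := by
    have := (List.isChain_append.1 hch2.2).2.2
    exact this z (by rw [hz]; simp) t' (by simp)
  obtain ⟨β, hβ⟩ := h.isT e5 hz' hzt.symm
  have hta : t ≠ a := by rw [hα]; exact (h.side_not ha).symm
  have hta' : t' ≠ a := by rw [hβ]; exact (h.side_not ha).symm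
  -- positions
  obtain ⟨pre', hpre⟩ : ∃ pre', pre = a :: pre' := by
    cases pre with
    | nil => simp at e1; exact absurd e1.1.symm hta
    | cons b pre' => simp at e1; exact ⟨pre', by rw [e1.1]⟩
  obtain ⟨post', hpost⟩ : ∃ post', post = post' ++ [a] := by
    rcases List.eq_nil_or_concat post with hh | ⟨q, b, hh⟩
    · subst hh
      have : (a :: (l ++ [a])).getLast? = (pre ++ t :: (run ++ [t'])).getLast? := by rw [e1]
      have e6 : (a :: (l ++ [a])).getLast? = some a := by
        have : a :: (l ++ [a]) = (a :: l) ++ [a] := by simp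
        rw [this, List.getLast?_append]; rfl
      have e7 : (pre ++ t :: (run ++ [t'])).getLast? = some t' := by
        have : pre ++ t :: (run ++ [t']) = (pre ++ t :: run) ++ [t'] := by simp
        rw [this, List.getLast?_append]; rfl
      rw [e6, e7] at this
      exact absurd (Option.some.inj this).symm hta'
    · have hh' : post = q ++ [b] := by simpa using hh
      refine ⟨q, ?_⟩
      rw [hh']
      have : (a :: (l ++ [a])).getLast? = (pre ++ t :: (run ++ t' :: post)).getLast? := by rw [e1]
      have e6 : (a :: (l ++ [a])).getLast? = some a := by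
        have : a :: (l ++ [a]) = (a :: l) ++ [a] := by simp
        rw [this, List.getLast?_append]; rfl
      have e7 : (pre ++ t :: (run ++ t' :: post)).getLast? = some b := by
        have : pre ++ t :: (run ++ t' :: post) = (pre ++ t :: (run ++ t' :: q)) ++ [b] := by
          simp [hh']
        rw [this, List.getLast?_append]; rfl
      rw [e6, e7] at this
      rw [Option.some.inj this]
  have hl : l = pre' ++ t :: (run ++ t' :: post') := by
    subst hpre hpost
    have : a :: (l ++ [a]) = a :: ((pre' ++ t :: (run ++ t' :: post')) ++ [a]) := by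
      rw [e1]; simp
    simp only [List.cons.injEq, true_and] at this
    exact List.append_cancel_right this
  have hnl : l.Nodup := (List.nodup_cons.1 hc'.1).2
  rw [hl] at hnl
  have hn1 := (List.nodup_append.1 hnl).2.1
  have hn2 := List.nodup_cons.1 hn1
  have hn3 := List.nodup_append.1 hn2.2
  have htt : t ≠ t' := by
    rintro rfl
    exact hn2.1 (by simp)
  have hαβ : α ≠ β := by
    rintro rfl
    exact htt (by rw [hα, hβ])
  have hrunL : ∀ p ∈ run, p ∈ s ++ a :: _ := fun p hp => hsub p (List.mem_cons_of_mem _ (by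
    rw [hl]; simp [hp]))
  refine ⟨run, e3, hrunL, hn3.1, ?_⟩
  -- the cycle of C
  have hS : ∀ p ∈ t :: (run ++ [t']), ¬ Side x τ f p := by
    intro p hp hs
    simp only [List.mem_append, List.mem_cons, List.not_mem_nil, or_false] at hp
    rcases hp with hp | hp | hp
    · exact h.side_not hs (hp.trans hα)
    · exact h.side_side hs (e3 p hp)
    · exact h.side_not hs (hp.trans hβ)
  have hnod : (t :: (run ++ [t'])).Nodup := by
    have : t :: (run ++ t' :: post') = (t :: (run ++ [t'])) ++ post' := by simp
    rw [this] at hn1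
    exact (List.nodup_append.1 hn1).1
  have hcha : (t :: (run ++ [t'])).IsChain H.Adj := by
    have : t :: (run ++ t' :: post) = (t :: (run ++ [t'])) ++ post := by simp
    rw [this] at hch1
    exact hch1.left_of_append
  obtain ⟨L0, k1, k2, k3, k4⟩ := h.symm.pullList hS hnod hcha
  have hlen : L0.length = run.length + 2 := by
    have := congrArg List.length k1
    simpa using this
  have hhead : L0.head? = some (σ α) := by
    cases L0 with
    | nil => simp at k1
    | cons b L1 =>
      simp only [List.map_cons, List.cons.injEq] at k1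
      have hb : b ≠ y := k2 b (by simp)
      have : g b = g (σ α) := by rw [k1.1, hα, h.fg]
      rw [h.ginj b _ hb (h.ry.nex α) this]
      rfl
  have hlast : L0.getLast? = some (σ β) := by
    have e6 : (L0.map g).getLast? = some t' := by
      rw [k1]
      have : t :: (run ++ [t']) = (t :: run) ++ [t'] := by simp
      rw [this, List.getLast?_append]; rfl
    rw [List.getLast?_map] at e6
    rcases hq : L0.getLast? with _ | b
    · rw [hq] at e6; simp at e6
    · rw [hq] at e6
      simp only [Option.map_some, Option.some.injEq] at e6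
      have hb : b ≠ y := k2 b (List.mem_of_mem_getLast? hq)
      have : g b = g (σ β) := by rw [e6, hβ, h.fg]
      rw [h.ginj b _ hb (h.ry.nex β) this]
  have hcyc : CycL C (y :: L0) := by
    refine ⟨?_, ?_, ?_, ?_⟩
    · rw [List.nodup_cons]
      exact ⟨fun e => k2 y e rfl, k3⟩
    · simp only [List.length_cons]
      rw [hlen]
      have : run.length ≠ 0 := by simpa using e2
      omega
    · rw [List.isChain_cons]
      refine ⟨?_, k4⟩
      intro b hb
      rw [hhead] at hb
      simp at hb
      rw [← hb]
      exact h.ry.adj' α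
    · intro b hb c hc
      simp at hc
      subst hc
      have : (y :: L0).getLast? = L0.getLast? := by
        obtain ⟨q, rfl⟩ := head?_eq_cons hhead
        simp
      rw [this, hlast] at hb
      simp at hb
      rw [← hb]
      exact (h.ry.adj' β).symm
  have := hC _ hcyc
  simp only [List.length_cons] at this
  omega

theorem Glue.girth (h : Glue G x τ C y σ H f g) (hG : ∀ L, CycL G L → 7 ≤ L.length)
    (hC : ∀ L, CycL C L → 7 ≤ L.length) : ∀ L, CycL H L → 7 ≤ L.length := by
  intro L hL
  by_cases h1 : ∃ p ∈ L, Side x τ f p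
  · by_cases h2 : ∃ p ∈ L, Side y σ g p
    · obtain ⟨r1, a1, a2, a3, a4⟩ := h.run4 hC hL h1 h2
      obtain ⟨r2, b1, b2, b3, b4⟩ := h.symm.run4 hG hL h2 h1
      have hsub : r1 ++ r2 ⊆ L := by
        intro p hp
        rcases List.mem_append.1 hp with hp | hp
        · exact a2 hp
        · exact b2 hp
      have hnd : (r1 ++ r2).Nodup := by
        rw [List.nodup_append]
        refine ⟨a3, b3, ?_⟩
        intro p hp q hq e
        subst e
        exact h.side_side (b1 p hq) (a1 p hp)
      have := (List.subperm_of_subset hnd hsub).length_le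
      simp only [List.length_append] at this
      omega
    · push Not at h2
      exact h.noside hG h2 hL
  · push Not at h1
    exact h.symm.noside hC h1 hL

end

end Run7.h694.Mnh
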