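import Pool.Agent.Run7.h694.GlueGirth

/-! The invariant which is preserved by the gluing. -/

namespace Run7.h694.Mnh

variable {V W U : Type}

/-- The invariant. -/
structure Good (G : SimpleGraph V) (X : Finset V) (ρ : V → ℕ) : Prop where
  nh : ¬ HC G
  mx : ∀ u v, u ≠ v → ¬ G.Adj u v → HP G Set.univ u v
  g7 : ∀ L, CycL G L → 7 ≤ L.length
  c7 : ∃ L, CycL G L ∧ L.length = 7
  root : ∀ x ∈ X, ∃ τ, Root G x τ
  ind : ∀ x ∈ X, ∀ z ∈ X, ¬ G.Adj x z
  f1 : ∀ u v, u ∉ X → v ∉ X → G.Adj u v → ρ u ≠ ρ v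
  f2 : ∀ u v w, u ∉ X → v ∉ X → w ∉ X → G.Adj u v → G.Adj u w → ρ v < ρ u → ρ w < ρ u → v = w

/-- The piece which is attached. -/
structure Piece (C : SimpleGraph W) (y : W) (σ : Fin 3 → W) (R : Finset W) (rk lv : W → ℕ) :
    Prop where
  nh : ¬ HC C
  mx : ∀ u v, u ≠ v → ¬ C.Adj u v → HP C Set.univ u v
  g7 : ∀ L, CycL C L → 7 ≤ L.length
  c7 : ∃ L, CycL C L ∧ L.length = 7 ∧ y ∉ L
  ry : Root C y σ
  root : ∀ x ∈ R, ∃ τ, Root C x τ
  ind : ∀ x ∈ R, ∀ z ∈ R, ¬ C.Adj x z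
  yR : y ∉ R
  yadj : ∀ x ∈ R, ¬ C.Adj y x
  f1 : ∀ u v, u ∉ R → v ∉ R → C.Adj u v → rk u ≠ rk v
  f2 : ∀ u v w, u ∉ R → v ∉ R → w ∉ R → C.Adj u v → C.Adj u w → rk v < rk u → rk w < rk u → v = w
  rσ : ∀ a, rk (σ a) = 1
  ri : ∀ i, i ∉ R → i ≠ y → (∀ a, i ≠ σ a) → 2 ≤ rk i
  lσ : ∀ i a, i ≠ y → (∀ b, i ≠ σ b) → C.Adj i (σ a) → lv i = 0
  lR : ∀ i ∈ R, 1 ≤ lv i
  ll : ∀ i j, i ≠ y → (∀ b, i ≠ σ b) → j ≠ y → (∀ b, j ≠ σ b) → C.Adj i j → lv i ≤ lv j + 1

open Classical in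
/-- The new roots. -/
noncomputable def newX (x : V) (X : Finset V) (R : Finset W) (f : V → U) (g : W → U) : Finset U :=
  (X.erase x).image f ∪ R.image g

section

variable {G : SimpleGraph V} {x : V} {τ : Fin 3 → V} {C : SimpleGraph W} {y : W}
    {σ : Fin 3 → W} {H : SimpleGraph U} {f : V → U} {g : W → U} {X : Finset V} {R : Finset W}
    {ρ : V → ℕ} {rk lv : W → ℕ}

open Classical in
/-- Ranks or levels on the new graph: `α` on the old part, `β` on the new part. -/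
noncomputable def extd (y : W) (σ : Fin 3 → W) (g : W → U) (f : V → U) (x : V) (α : V → ℕ)
    (β : W → ℕ) (p : U) : ℕ :=
  if h : ∃ i, i ≠ y ∧ (∀ a, i ≠ σ a) ∧ g i = p then β h.choose
  else if h' : ∃ u, u ≠ x ∧ f u = p then α h'.choose else 0

theorem Glue.ext_f (h : Glue G x τ C y σ H f g) (α : V → ℕ) (β : W → ℕ) {u : V} (hu : u ≠ x) :
    extd y σ g f x α β (f u) = α u := by
  unfold extd
  have h1 : ¬ ∃ i, i ≠ y ∧ (∀ a, i ≠ σ a) ∧ g i = f u := by
    rintro ⟨i, hi, hi', e⟩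
    obtain ⟨a, _, hb⟩ := h.ov u i hu hi e.symm
    exact hi' a hb
  rw [dif_neg h1]
  have h2 : ∃ v, v ≠ x ∧ f v = f u := ⟨u, hu, rfl⟩
  rw [dif_pos h2]
  congr 1
  exact h.finj _ _ h2.choose_spec.1 hu h2.choose_spec.2

theorem Glue.ext_g (h : Glue G x τ C y σ H f g) (α : V → ℕ) (β : W → ℕ) {i : W} (hi : i ≠ y)
    (hi' : ∀ a, i ≠ σ a) : extd y σ g f x α β (g i) = β i := by
  unfold extd
  have h2 : ∃ j, j ≠ y ∧ (∀ a, j ≠ σ a) ∧ g j = g i := ⟨i, hi, hi', rfl⟩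
  rw [dif_pos h2]
  congr 1
  exact h.ginj _ _ h2.choose_spec.1 hi h2.choose_spec.2.2

theorem Glue.mem_newX (h : Glue G x τ C y σ H f g) (hX : Good G X ρ) (hx : x ∈ X)
    (hp : Piece C y σ R rk lv) : (∀ u, u ≠ x → (f u ∈ newX x X R f g ↔ u ∈ X)) ∧
      (∀ i, i ≠ y → (∀ a, i ≠ σ a) → (g i ∈ newX x X R f g ↔ i ∈ R)) := by
  classical
  have nyR : ∀ i ∈ R, i ≠ y ∧ ∀ a, i ≠ σ a := by
    intro i hi
    refine ⟨fun e => hp.yR (e ▸ hi), fun a e => ?_⟩
    exact hp.yadj i hi ((hp.ry.adj i).2 ⟨a, e⟩)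
  constructor
  · intro u hu
    unfold newX
    rw [Finset.mem_union, Finset.mem_image, Finset.mem_image]
    constructor
    · rintro (⟨v, hv, e⟩ | ⟨i, hi, e⟩)
      · rw [Finset.mem_erase] at hv
        rw [← h.finj _ _ hv.1 hu e]; exact hv.2
      · obtain ⟨a, _, hb⟩ := h.ov u i hu (nyR i hi).1 e.symm
        exact absurd hb ((nyR i hi).2 a)
    · intro hu'
      exact Or.inl ⟨u, Finset.mem_erase.2 ⟨hu, hu'⟩, rfl⟩
  · intro i hi hi'
    unfold newX
    rw [Finset.mem_union, Finset.mem_image, Finset.mem_image]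
    constructor
    · rintro (⟨v, hv, e⟩ | ⟨j, hj, e⟩)
      · rw [Finset.mem_erase] at hv
        obtain ⟨a, _, hb⟩ := h.ov v i hv.1 hi e
        exact absurd hb (hi' a)
      · rw [← h.ginj _ _ (nyR j hj).1 hi e]; exact hj
    · intro hi''
      exact Or.inr ⟨i, hi'', rfl⟩

/-- Induction on the two kinds of vertices. -/
theorem Glue.cases (h : Glue G x τ C y σ H f g) {P : U → Prop} (h1 : ∀ u, u ≠ x → P (f u))
    (h2 : ∀ i, i ≠ y → (∀ a, i ≠ σ a) → P (g i)) : ∀ p, P p := by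
  intro p
  rcases h.cov p with ⟨u, hu, rfl⟩ | ⟨i, hi, rfl⟩
  · exact h1 u hu
  · by_cases hc : ∃ c, i = σ c
    · obtain ⟨c, rfl⟩ := hc
      rw [← h.fg]; exact h1 _ (h.rx.nex c)
    · push Not at hc
      exact h2 i hi hc

theorem Glue.adj_fg (h : Glue G x τ C y σ H f g) {u : V} {i : W} (hu : u ≠ x) (hi : i ≠ y)
    (hi' : ∀ a, i ≠ σ a) (ha : H.Adj (f u) (g i)) : ∃ a, u = τ a ∧ C.Adj (σ a) i := by
  by_cases hc : ∃ c, u = τ c
  · obtain ⟨c, rfl⟩ := hc
    rw [h.fg, h.gadj _ _ (h.ry.nex c) hi] at ha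
    exact ⟨c, rfl, ha⟩
  · push Not at hc
    exact absurd ha (h.sep u i hu hc hi hi')

theorem Glue.good (h : Glue G x τ C y σ H f g) (hX : Good G X ρ) (hx : x ∈ X)
    (hp : Piece C y σ R rk lv) (B : ℕ) (hB : ∀ v, ρ v ≤ B) :
    Good H (newX x X R f g) (extd y σ g f x ρ (fun i => B + rk i)) := by
  classical
  obtain ⟨mf, mg⟩ := h.mem_newX hX hx hp
  have nyR : ∀ i ∈ R, i ≠ y ∧ ∀ a, i ≠ σ a := by
    intro i hi
    refine ⟨fun e => hp.yR (e ▸ hi), fun a e => ?_⟩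
    exact hp.yadj i hi ((hp.ry.adj i).2 ⟨a, e⟩)
  have nX : ∀ u ∈ X, u ≠ x → ∀ a, u ≠ τ a := by
    intro u hu hux a e
    exact hX.ind x hx u hu ((h.rx.adj u).2 ⟨a, e⟩)
  have tX : ∀ a, τ a ∉ X := by
    intro a ha
    exact hX.ind x hx _ ha (h.rx.adj' a)
  have sR : ∀ a, σ a ∉ R := by
    intro a ha
    exact hp.yadj _ ha (h.ry.adj' a)
  have xX : ∀ p, p ∈ newX x X R f g → (∃ u, u ∈ X ∧ u ≠ x ∧ f u = p) ∨ (∃ i, i ∈ R ∧ g i = p) := by
    intro p hp'
    unfold newX at hp'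
    rw [Finset.mem_union, Finset.mem_image, Finset.mem_image] at hp'
    rcases hp' with ⟨v, hv, e⟩ | ⟨j, hj, e⟩
    · rw [Finset.mem_erase] at hv
      exact Or.inl ⟨v, hv.2, hv.1, e⟩
    · exact Or.inr ⟨j, hj, e⟩
  refine ⟨h.nonham hX.nh hp.nh, h.maxi hX.mx hp.mx, h.girth hX.g7 hp.g7, ?_, ?_, ?_, ?_, ?_⟩
  · obtain ⟨L, hL, hL7, hyL⟩ := hp.c7
    have ny : ∀ i ∈ L, i ≠ y := fun i hi e => hyL (e ▸ hi)
    refine ⟨L.map g, ⟨?_, by simpa using hL.2.1, ?_, ?_⟩, by simpa using hL7⟩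
    · refine List.Nodup.map_on ?_ hL.1
      intro i hi j hj e
      exact h.ginj i j (ny i hi) (ny j hj) e
    · rw [List.isChain_map]
      exact hL.2.2.1.imp_of_mem_imp (fun a b ha hb hab => (h.gadj a b (ny a ha) (ny b hb)).2 hab)
    · intro a ha b hb
      rw [List.getLast?_map] at ha
      rw [List.head?_map] at hb
      simp only [Option.mem_def, Option.map_eq_some_iff] at ha hb
      obtain ⟨a', ha', rfl⟩ := ha
      obtain ⟨b', hb', rfl⟩ := hb
      rw [h.gadj _ _ (ny _ (List.mem_of_mem_getLast? ha')) (ny _ (List.mem_of_mem_head? hb'))]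
      exact hL.2.2.2 _ ha' _ hb'
  · intro p hp'
    rcases xX p hp' with ⟨u, hu, hux, rfl⟩ | ⟨i, hi, rfl⟩
    · obtain ⟨τ1, h1⟩ := hX.root u hu
      exact ⟨_, h.root h1 hux (hX.ind u hu x hx)⟩
    · obtain ⟨τ1, h1⟩ := hp.root i hi
      exact ⟨_, h.symm.root h1 (nyR i hi).1 (fun e => hp.yadj i hi e.symm)⟩
  · intro p hp' q hq
    rcases xX p hp' with ⟨u, hu, hux, rfl⟩ | ⟨i, hi, rfl⟩
    · rcases xX q hq with ⟨v, hv, hvx, rfl⟩ | ⟨j, hj, rfl⟩
      · rw [h.fadj u v hux hvx]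
        exact hX.ind u hu v hv
      · exact h.sep u j hux (nX u hu hux) (nyR j hj).1 (nyR j hj).2
    · rcases xX q hq with ⟨v, hv, hvx, rfl⟩ | ⟨j, hj, rfl⟩
      · exact fun e => h.sep v i hvx (nX v hv hvx) (nyR i hi).1 (nyR i hi).2 e.symm
      · rw [h.gadj i j (nyR i hi).1 (nyR j hj).1]
        exact hp.ind i hi j hj
  · -- ranks of adjacent vertices are different
    refine h.cases ?_ ?_
    · intro u hu
      refine h.cases ?_ ?_
      · intro v hv huX hvX ha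
        rw [h.ext_f _ _ hu, h.ext_f _ _ hv]
        rw [mf u hu] at huX
        rw [mf v hv] at hvX
        exact hX.f1 u v huX hvX ((h.fadj u v hu hv).1 ha)
      · intro i hi hi' huX hiX ha
        rw [h.ext_f _ _ hu, h.ext_g _ _ hi hi']
        rw [mg i hi hi'] at hiX
        have h1 := hp.ri i hiX hi hi'
        have h2 := hB u
        omega
    · intro i hi hi'
      refine h.cases ?_ ?_
      · intro v hv hiX hvX ha
        rw [h.ext_f _ _ hv, h.ext_g _ _ hi hi']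
        rw [mg i hi hi'] at hiX
        have h1 := hp.ri i hiX hi hi'
        have h2 := hB v
        omega
      · intro j hj hj' hiX hjX ha
        rw [h.ext_g _ _ hi hi', h.ext_g _ _ hj hj']
        rw [mg i hi hi'] at hiX
        rw [mg j hj hj'] at hjX
        have := hp.f1 i j hiX hjX ((h.gadj i j hi hj).1 ha)
        omega
  · -- at most one neighbour of smaller rank
    refine h.cases ?_ ?_
    · intro u hu
      refine h.cases ?_ ?_
      · intro v hv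
        refine h.cases ?_ ?_
        · intro w hw huX hvX hwX ha hb
          rw [h.ext_f _ _ hu, h.ext_f _ _ hv, h.ext_f _ _ hw]
          rw [mf u hu] at huX
          rw [mf v hv] at hvX
          rw [mf w hw] at hwX
          intro h1 h2
          rw [hX.f2 u v w huX hvX hwX ((h.fadj u v hu hv).1 ha) ((h.fadj u w hu hw).1 hb) h1 h2]
        · intro i hi hi' huX hvX hiX ha hb
          rw [h.ext_f _ _ hu, h.ext_f _ _ hv, h.ext_g _ _ hi hi']
          intro h1 h2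
          have := hB u
          omega
      · intro i hi hi' w huX hiX hwX ha hb
        rw [h.ext_f _ _ hu, h.ext_g _ _ hi hi']
        intro h1 h2
        have := hB u
        omega
    · intro i hi hi'
      -- a neighbour of smaller rank comes from a neighbour in the piece
      have key : ∀ q, q ∉ newX x X R f g → H.Adj (g i) q → i ∉ R →
          extd y σ g f x ρ (fun i => B + rk i) q < B + rk i →
          ∃ j, j ∉ R ∧ C.Adj i j ∧ rk j < rk i ∧ g j = q := by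
        refine h.cases ?_ ?_
        · intro v hv hvX ha hiR _
          obtain ⟨a, rfl, ha'⟩ := h.adj_fg hv hi hi' ha.symm
          refine ⟨σ a, sR a, ha'.symm, ?_, (h.fg a).symm⟩
          rw [hp.rσ]
          have := hp.ri i hiR hi hi'
          omega
        · intro j hj hj' hjX ha hiR hlt
          rw [h.ext_g _ _ hj hj'] at hlt
          rw [mg j hj hj'] at hjX
          exact ⟨j, hjX, (h.gadj i j hi hj).1 ha, by omega, rfl⟩
      intro q r hiX hqX hrX ha hb h1 h2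
      rw [h.ext_g _ _ hi hi'] at h1 h2
      rw [mg i hi hi'] at hiX
      obtain ⟨j, j1, j2, j3, rfl⟩ := key q hqX ha hiX h1
      obtain ⟨k, k1, k2, k3, rfl⟩ := key r hrX hb hiX h2
      rw [hp.f2 i j k hiX j1 k1 j2 k2 j3 k3]

/-- A level function changes by at most one along edges. -/
def Lip (G : SimpleGraph V) (lam : V → ℕ) : Prop := ∀ u v, G.Adj u v → lam u ≤ lam v + 1

theorem Glue.lip (h : Glue G x τ C y σ H f g) (hp : Piece C y σ R rk lv) {lam : V → ℕ}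
    (hl : Lip G lam) : Lip H (extd y σ g f x lam (fun i => lam x + lv i)) := by
  have ht : ∀ a, lam (τ a) ≤ lam x + 1 := fun a => hl _ _ (h.rx.adj' a).symm
  have ht' : ∀ a, lam x ≤ lam (τ a) + 1 := fun a => hl _ _ (h.rx.adj' a)
  refine h.cases ?_ ?_
  · intro u hu
    refine h.cases ?_ ?_
    · intro v hv ha
      rw [h.ext_f _ _ hu, h.ext_f _ _ hv]
      exact hl u v ((h.fadj u v hu hv).1 ha)
    · intro i hi hi' ha
      rw [h.ext_f _ _ hu, h.ext_g _ _ hi hi']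
      obtain ⟨a, rfl, ha'⟩ := h.adj_fg hu hi hi' ha
      have := hp.lσ i a hi hi' ha'.symm
      have := ht a
      omega
  · intro i hi hi'
    refine h.cases ?_ ?_
    · intro v hv ha
      rw [h.ext_f _ _ hv, h.ext_g _ _ hi hi']
      obtain ⟨a, rfl, ha'⟩ := h.adj_fg hv hi hi' ha.symm
      have := hp.lσ i a hi hi' ha'.symm
      have := ht' a
      omega
    · intro j hj hj' ha
      rw [h.ext_g _ _ hi hi', h.ext_g _ _ hj hj']
      have := hp.ll i j hi hi' hj hj' ((h.gadj i j hi hj).1 ha)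
      omega

end

end Run7.h694.Mnh
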