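import Pool.Agent.Run7.h694.Cone

/-! Graphs of large girth in which one vertex is joined by Hamilton paths to almost all others. -/

namespace Run7.h694.Mnh

/-- End vertices which can be reached by rotations; the second argument is the part of the path
which is still in its original position. -/
inductive Rc {V : Type} (G : SimpleGraph V) (S : List V) (e : V) : V → List V → Prop
  | base : Rc G S e e S
  | step (a b c : V) (T1 T2 : List V) : Rc G S e a (T1 ++ c :: b :: T2) → G.Adj a c →
      Rc G S e b (T1 ++ [c])

variable {V : Type}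

theorem Rc.path {G : SimpleGraph V} {S : List V} {e : V} (hn : (S ++ [e]).Nodup)
    (hc : (S ++ [e]).IsChain G.Adj) (hcov : ∀ v, v ∈ S ++ [e]) {p : V} {T : List V}
    (h : Rc G S e p T) : ∃ Y : List V, (T ++ (Y ++ [p])).Nodup ∧
      (T ++ (Y ++ [p])).IsChain G.Adj ∧ (∀ v, v ∈ T ++ (Y ++ [p])) ∧
      (T ++ (Y ++ [p])).head? = (S ++ [e]).head? := by
  induction h with
  | base => exact ⟨[], by simpa using hn, by simpa using hc, by simpa using hcov, rfl⟩
  | step a b c T1 T2 _ hac ih =>
    obtain ⟨Y, h1, h2, h3, h4⟩ := ih
    have e1 : (T1 ++ c :: b :: T2) ++ (Y ++ [a]) = (T1 ++ [c]) ++ (b :: (T2 ++ (Y ++ [a]))) := by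
      simp
    rw [e1] at h1 h2 h3 h4
    have e2 : (T1 ++ [c]) ++ ((T2 ++ (Y ++ [a])).reverse ++ [b]) =
        (T1 ++ [c]) ++ (b :: (T2 ++ (Y ++ [a]))).reverse := by simp
    refine ⟨(T2 ++ (Y ++ [a])).reverse, ?_, ?_, ?_, ?_⟩
    · rw [e2]
      exact (List.Perm.append_left _ (List.reverse_perm _)).nodup_iff.2 h1
    · rw [e2, List.isChain_append]
      have h2' := List.isChain_append.1 h2
      refine ⟨h2'.1, ?_, ?_⟩
      · rw [List.isChain_reverse]
        exact h2'.2.1.imp fun a b h => h.symm
      · intro u hu v hv
        have : (b :: (T2 ++ (Y ++ [a]))).getLast? = some a := by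
          have : b :: (T2 ++ (Y ++ [a])) = (b :: (T2 ++ Y)) ++ [a] := by simp
          rw [this, List.getLast?_append]; rfl
        rw [List.head?_reverse, this] at hv
        simp at hu hv
        subst hu hv
        exact hac.symm
    · intro v
      rw [e2]
      have := h3 v
      rw [List.mem_append] at this ⊢
      rw [List.mem_reverse]
      exact this
    · rw [e2, ← h4]
      cases T1 <;> simp

theorem Rc.up {G : SimpleGraph V} {N : Set V} {S : List V} {e p : V} {T : List V}
    (h : Rc G S e p T) : Rc (cone G N) (none :: S.map some) (some e) (some p)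
      (none :: T.map some) := by
  induction h with
  | base => exact Rc.base
  | step a b c T1 T2 _ hac ih =>
    have e1 : none :: (T1 ++ c :: b :: T2).map some =
        (none :: T1.map some) ++ some c :: some b :: T2.map some := by simp
    rw [e1] at ih
    have := Rc.step (some a) (some b) (some c) (none :: T1.map some) (T2.map some) ih hac
    simpa using this

/-- The number of neighbours. -/
noncomputable def dg (G : SimpleGraph V) (v : V) : ℕ := (G.neighborSet v).ncard

theorem dg_cone_none (G : SimpleGraph V) [Finite V] (N : Set V) : dg (cone G N) none = N.ncard := by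
  unfold dg
  have : (cone G N).neighborSet none = some '' N := by
    ext p
    cases p with
    | none =>
      constructor
      · intro h; exact h.elim
      · rintro ⟨q, _, e⟩; simp at e
    | some v =>
      constructor
      · intro h; exact ⟨v, h, rfl⟩
      · rintro ⟨q, hq, e⟩
        rw [← Option.some.inj e]; exact hq
  rw [this]
  exact Set.ncard_image_of_injective _ (Option.some_injective _)

theorem dg_cone_le (G : SimpleGraph V) [Finite V] (N : Set V) (v : V) :
    dg (cone G N) (some v) ≤ dg G v + 1 := by
  unfold dg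
  have : (cone G N).neighborSet (some v) ⊆ insert none (some '' (G.neighborSet v)) := by
    intro p hp
    cases p with
    | none => left; rfl
    | some w => right; exact ⟨w, hp, rfl⟩
  refine (Set.ncard_le_ncard this (Set.toFinite _)).trans ?_
  refine (Set.ncard_insert_le _ _).trans ?_
  rw [Set.ncard_image_of_injective _ (Option.some_injective _)]

theorem dg_cone_notin (G : SimpleGraph V) [Finite V] {N : Set V} {v : V} (hv : v ∉ N) :
    dg (cone G N) (some v) ≤ dg G v := by
  unfold dg
  have : (cone G N).neighborSet (some v) ⊆ some '' (G.neighborSet v) := by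
    intro p hp
    cases p with
    | none => exact absurd hp hv
    | some w => exact ⟨w, hp, rfl⟩
  refine (Set.ncard_le_ncard this (Set.toFinite _)).trans ?_
  rw [Set.ncard_image_of_injective _ (Option.some_injective _)]

/-- The state of the construction. The path is `s :: (S ++ [e])`. -/
structure Heap (g : ℕ) (G : SimpleGraph V) (s : V) (S : List V) (e : V) (A Γ : Finset V) :
    Prop where
  nod : (s :: (S ++ [e])).Nodup
  cov : ∀ v, v ∈ s :: (S ++ [e])
  ch : (s :: (S ++ [e])).IsChain G.Adj
  cyc : ∀ L, CycL G L → g ≤ L.length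
  deg : ∀ v, dg G v ≤ 5
  sdeg : dg G s ≤ 2
  av : ∀ a ∈ A, ∃ T, Rc G (s :: S) e a (s :: T)
  avdeg : ∀ a ∈ A, dg G a ≤ 4
  gam : ∀ p ∈ Γ, ∃ T, Rc G (s :: S) e p T
  sA : s ∉ A
  sΓ : s ∉ Γ

/-- Vertices of `D` are far away from `s`. -/
def Far (G : SimpleGraph V) (s : V) (D : Set V) (j : ℕ) : Prop :=
  ∀ a ∈ D, ∀ P : List V, P.Nodup → P.IsChain G.Adj → P.head? = some s → P.getLast? = some a →
    j < P.length

theorem getLast?_none_cons {α : Type} {P : List α} {b : α} {c : α} (hb : P.getLast? = some b) :
    (c :: P).getLast? = some b := by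
  obtain ⟨q, rfl⟩ := getLast?_eq_append hb
  have : c :: (q ++ [b]) = (c :: q) ++ [b] := by simp
  rw [this, List.getLast?_append]; rfl

theorem Far.leaf {G : SimpleGraph V} {s : V} {D : Set V} {j : ℕ} (h : Far G s D j) :
    Far (cone G {s}) none (some '' D) (j + 1) := by
  rintro _ ⟨a, ha, rfl⟩ P hn hc hh hl
  obtain ⟨P', rfl⟩ := head?_eq_cons hh
  have hn' := List.nodup_cons.1 hn
  obtain ⟨P0, rfl⟩ := list_some hn'.1
  have hch := List.isChain_cons.1 hc
  have hne : P0 ≠ [] := by
    rintro rfl
    simp at hl
  obtain ⟨b, hb⟩ : ∃ b, P0.head? = some b := by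
    cases P0 with
    | nil => exact absurd rfl hne
    | cons a P => exact ⟨a, rfl⟩
  have h1 : b = s := by
    have := hch.1 (some b) (by rw [List.head?_map, hb]; rfl)
    exact this
  obtain ⟨c, hc'⟩ : ∃ c, P0.getLast? = some c := by
    rcases List.eq_nil_or_concat P0 with h | ⟨q, b, h⟩
    · exact absurd h hne
    · exact ⟨b, by rw [h]; simp⟩
  have h2 : c = a := by
    have e : (none :: P0.map some).getLast? = some (some c) :=
      getLast?_none_cons (by rw [List.getLast?_map, hc']; rfl)
    rw [e] at hl
    exact Option.some.inj (Option.some.inj hl)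
  have := h a ha P0 (List.Nodup.of_map some hn'.2) (by
    have := hch.2
    rw [List.isChain_map] at this
    exact this) (by rw [hb, h1]) (by rw [hc', h2])
  simp only [List.length_cons, List.length_map]
  omega

theorem Far.zero (G : SimpleGraph V) (s : V) (D : Set V) : Far G s D 0 := by
  intro a _ P _ _ hh _
  cases P with
  | nil => simp at hh
  | cons b P => simp

/-- Cycles of a cone over two vertices which are far apart. -/
theorem cyc_cone2 {G : SimpleGraph V} {s a : V} {g j : ℕ} (hc : ∀ L, CycL G L → g ≤ L.length)
    (hf : Far G s {a} j) (hj : g ≤ j + 2) : ∀ L, CycL (cone G {v | v = s ∨ v = a}) L → g ≤ L.length := by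
  intro L hL
  rcases cone_cyc hL with ⟨L0, h1, rfl⟩ | ⟨P, u, v, h1, h2, h3, h4, hu, hv, huv, hlen⟩
  · rw [List.length_map]; exact hc L0 h1
  · rw [hlen]
    rcases hu with hu | hu
    · rcases hv with hv | hv
      · exact absurd (hu.trans hv.symm) huv
      · have := hf a rfl P h1 h2 (by rw [h3, hu]) (by rw [h4, hv])
        omega
    · rcases hv with hv | hv
      · have := hf a rfl P.reverse (by simpa using h1) (by
          rw [List.isChain_reverse]
          exact h2.imp fun a b h => h.symm) (by rw [List.head?_reverse, h4, hv])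
          (by rw [List.getLast?_reverse, h3, hu])
        rw [List.length_reverse] at this
        omega
      · exact absurd (hu.trans hv.symm) huv

section

variable {g : ℕ} {G : SimpleGraph V} {s : V} {S : List V} {e : V} {A Γ : Finset V}

open Classical in
/-- Embedding of a finite set. -/
noncomputable def upF (A : Finset V) : Finset (Option V) := A.image some

theorem mem_upF {A : Finset V} {v : V} : some v ∈ upF A ↔ v ∈ A := by
  classical
  simp [upF]

theorem none_upF {A : Finset V} : none ∉ upF A := by
  classical
  simp [upF]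

theorem card_upF (A : Finset V) : (upF A).card = A.card := by
  classical
  exact Finset.card_image_of_injective _ (Option.some_injective _)

theorem upF_cases {A : Finset V} {p : Option V} (h : p ∈ upF A) : ∃ v ∈ A, p = some v := by
  cases p with
  | none => exact absurd h none_upF
  | some v => exact ⟨v, mem_upF.1 h, rfl⟩

theorem path_up (hn : (s :: (S ++ [e])).Nodup) (hcov : ∀ v, v ∈ s :: (S ++ [e]))
    (hch : (s :: (S ++ [e])).IsChain G.Adj) {N : Set V} (hs : s ∈ N) :
    (none :: (((s :: S).map some) ++ [some e])).Nodup ∧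
    (∀ v, v ∈ none :: (((s :: S).map some) ++ [some e])) ∧
    (none :: (((s :: S).map some) ++ [some e])).IsChain (cone G N).Adj := by
  have e1 : ((s :: S).map some) ++ [some e] = (s :: (S ++ [e])).map some := by simp
  rw [e1]
  refine ⟨?_, ?_, ?_⟩
  · rw [List.nodup_cons]
    exact ⟨by simp, hn.map (Option.some_injective _)⟩
  · intro v
    cases v with
    | none => simp
    | some v => exact List.mem_cons_of_mem _ (List.mem_map.2 ⟨v, hcov v, rfl⟩)
  · rw [List.isChain_cons]
    refine ⟨?_, ?_⟩
    · intro q hq
      simp at hq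
      subst hq
      exact hs
    · rw [List.isChain_map]
      exact hch

theorem Heap.leaf [Finite V] (h : Heap g G s S e A Γ) :
    Heap g (cone G {s}) none ((s :: S).map some) (some e) (upF A) (upF Γ) := by
  obtain ⟨p1, p2, p3⟩ := path_up h.nod h.cov h.ch (N := {s}) rfl
  refine ⟨p1, p2, p3, ?_, ?_, ?_, ?_, ?_, ?_, none_upF, none_upF⟩
  · intro L hL
    rcases cone_cyc hL with ⟨L0, h1, rfl⟩ | ⟨P, u, v, _, _, _, _, hu, hv, huv, _⟩
    · rw [List.length_map]; exact h.cyc L0 h1
    · exact absurd ((hu : u = s).trans (hv : v = s).symm) huv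
  · intro v
    cases v with
    | none => rw [dg_cone_none, Set.ncard_singleton]; norm_num
    | some v =>
      by_cases hv : v = s
      · rw [hv]
        exact (dg_cone_le G _ s).trans (by have := h.sdeg; omega)
      · exact (dg_cone_notin G (by simpa using hv)).trans (h.deg v)
  · rw [dg_cone_none, Set.ncard_singleton]; norm_num
  · intro a ha
    obtain ⟨v, hv, rfl⟩ := upF_cases ha
    obtain ⟨T, hT⟩ := h.av v hv
    exact ⟨(s :: T).map some, hT.up⟩
  · intro a ha
    obtain ⟨v, hv, rfl⟩ := upF_cases ha
    have hvs : v ≠ s := fun e => h.sA (e ▸ hv)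
    exact (dg_cone_notin G (by simpa using hvs)).trans (h.avdeg v hv)
  · intro a ha
    obtain ⟨v, hv, rfl⟩ := upF_cases ha
    obtain ⟨T, hT⟩ := h.gam v hv
    exact ⟨_, hT.up⟩

open Classical in
/-- Adding a vertex adjacent to `s` and to `a`. -/
theorem Heap.cone2 [Finite V] (h : Heap g G s S e A Γ) {a : V} (ha : a ∈ A) {j : ℕ}
    (hf : Far G s {a} j) (hj : g ≤ j + 2) {A' : Finset V} (hA : A' ⊆ A)
    (hA' : a ∈ A' → dg G a ≤ 3) :
    Heap g (cone G {v | v = s ∨ v = a}) none ((s :: S).map some) (some e)
      (insert (some s) (upF A')) (insert (some s) (upF Γ)) := by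
  have has : a ≠ s := fun e => h.sA (e ▸ ha)
  obtain ⟨p1, p2, p3⟩ := path_up h.nod h.cov h.ch (N := {v | v = s ∨ v = a}) (Or.inl rfl)
  have hnone : dg (cone G {v | v = s ∨ v = a}) none ≤ 2 := by
    rw [dg_cone_none]
    have : {v | v = s ∨ v = a} = {s, a} := by ext v; simp
    rw [this]
    exact (Set.ncard_insert_le _ _).trans (by rw [Set.ncard_singleton])
  obtain ⟨T, hT⟩ := h.av a ha
  have hsr : Rc (cone G {v | v = s ∨ v = a}) (none :: (s :: S).map some) (some e) (some s)
      [none] := by
    have h1 : Rc (cone G {v | v = s ∨ v = a}) (none :: (s :: S).map some) (some e) (some a)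
      ([] ++ none :: some s :: T.map some) := hT.up
    exact Rc.step (some a) (some s) none [] (T.map some) h1 (Or.inr rfl)
  refine ⟨p1, p2, p3, cyc_cone2 h.cyc hf hj, ?_, hnone, ?_, ?_, ?_, ?_, ?_⟩
  · intro v
    cases v with
    | none => exact hnone.trans (by norm_num)
    | some v =>
      by_cases hv : v = s
      · rw [hv]
        exact (dg_cone_le G _ s).trans (by have := h.sdeg; omega)
      · by_cases hv' : v = a
        · rw [hv']
          exact (dg_cone_le G _ a).trans (by have := h.avdeg a ha; omega)
        · exact (dg_cone_notin G (by simp [hv, hv'])).trans (h.deg v)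
  · intro p hp
    rcases Finset.mem_insert.1 hp with rfl | hp
    · exact ⟨[], hsr⟩
    · obtain ⟨v, hv, rfl⟩ := upF_cases hp
      obtain ⟨T', hT'⟩ := h.av v (hA hv)
      exact ⟨(s :: T').map some, hT'.up⟩
  · intro p hp
    rcases Finset.mem_insert.1 hp with rfl | hp
    · exact (dg_cone_le G _ s).trans (by have := h.sdeg; omega)
    · obtain ⟨v, hv, rfl⟩ := upF_cases hp
      by_cases hva : v = a
      · rw [hva]
        have := hA' (hva ▸ hv)
        exact (dg_cone_le G _ a).trans (by omega)
      · have hvs : v ≠ s := fun e => h.sA (e ▸ hA hv)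
        exact (dg_cone_notin G (by simp [hvs, hva])).trans (h.avdeg v (hA hv))
  · intro p hp
    rcases Finset.mem_insert.1 hp with rfl | hp
    · exact ⟨_, hsr⟩
    · obtain ⟨v, hv, rfl⟩ := upF_cases hp
      obtain ⟨T', hT'⟩ := h.gam v hv
      exact ⟨_, hT'.up⟩
  · intro hp
    rcases Finset.mem_insert.1 hp with e | hp
    · simp at e
    · exact none_upF hp
  · intro hp
    rcases Finset.mem_insert.1 hp with e | hp
    · simp at e
    · exact none_upF hp

open Classical in
theorem card_insert_up {s : V} {A : Finset V} (h : s ∉ A) :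
    (insert (some s) (upF A)).card = A.card + 1 := by
  rw [Finset.card_insert_of_notMem (fun h' => h (mem_upF.1 h')), card_upF]

/-- Cycles survive. -/
theorem cyc_up {N : Set V} {L : List V} (hL : CycL G L) : CycL (cone G N) (L.map some) := by
  refine ⟨hL.1.map (Option.some_injective _), by simpa using hL.2.1, ?_, ?_⟩
  · rw [List.isChain_map]; exact hL.2.2.1
  · intro a ha b hb
    rw [List.getLast?_map] at ha
    rw [List.head?_map] at hb
    simp only [Option.mem_def, Option.map_eq_some_iff] at ha hb
    obtain ⟨a', ha', rfl⟩ := ha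
    obtain ⟨b', hb', rfl⟩ := hb
    exact hL.2.2.2 _ ha' _ hb'

end

/-- Balls are small. -/
theorem ball_bound {G : SimpleGraph V} [Finite V] (hd : ∀ v, dg G v ≤ 5) (s : V) (k : ℕ) :
    ∃ B : Finset V, B.card ≤ 6 ^ k ∧ ∀ (P : List V) (w : V), P.IsChain G.Adj →
      P.head? = some s → P.getLast? = some w → P.length ≤ k + 1 → w ∈ B := by
  classical
  haveI := Fintype.ofFinite V
  induction k with
  | zero =>
    refine ⟨{s}, by simp, ?_⟩
    intro P w _ hh hl hlen
    obtain ⟨t, rfl⟩ := head?_eq_cons hh
    cases t with
    | nil => simp at hl; simp [hl]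
    | cons a t => simp at hlen
  | succ k ih =>
    obtain ⟨B, hB, hP⟩ := ih
    refine ⟨B ∪ B.biUnion (fun v => (G.neighborSet v).toFinset), ?_, ?_⟩
    · refine (Finset.card_union_le _ _).trans ?_
      have h1 : (B.biUnion (fun v => (G.neighborSet v).toFinset)).card ≤ B.card * 5 := by
        refine Finset.card_biUnion_le_card_mul _ _ _ ?_
        intro v _
        have := hd v
        unfold dg at this
        rw [Set.ncard_eq_toFinset_card'] at this
        exact this
      have : 6 ^ (k + 1) = 6 * 6 ^ k := by rw [pow_succ]; ring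
      omega
    · intro P w hc hh hl hlen
      obtain ⟨Q, rfl⟩ := getLast?_eq_append hl
      rcases List.eq_nil_or_concat Q with h | ⟨Q', b, h⟩
      · subst h
        refine Finset.mem_union_left _ (hP _ w hc hh hl (by simp))
      · have h' : Q = Q' ++ [b] := by simpa using h
        subst h'
        refine Finset.mem_union_right _ ?_
        rw [Finset.mem_biUnion]
        have hcc := List.isChain_append.1 hc
        refine ⟨b, hP (Q' ++ [b]) b hcc.1 ?_ (by simp) ?_, ?_⟩
        · cases Q' with
          | nil => simpa using hh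
          | cons a Q' => simpa using hh
        · simp only [List.length_append, List.length_cons, List.length_nil] at hlen ⊢
          omega
        · rw [Set.mem_toFinset]
          exact hcc.2.2 b (by simp) w (by simp)

end Run7.h694.Mnh
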