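import Pool.Agent.Run7.h694.Heap

/-! The pieces in which almost all vertices are ends of Hamilton paths from a terminal. -/

namespace Run7.h694.Mnh

/-- Bundled states. -/
def HS (g n j α γ : ℕ) : Prop :=
  ∃ (V : Type) (_ : Finite V) (G : SimpleGraph V) (s : V) (S : List V) (e : V) (A Γ : Finset V),
    Heap g G s S e A Γ ∧ Nat.card V = n ∧ Far G s (A : Set V) j ∧ A.card = α ∧ γ ≤ Γ.card ∧
    (∃ a ∈ A, dg G a ≤ 3) ∧ (∃ L, CycL G L ∧ L.length = g)

/-- The first states: paths. -/
theorem exists_path (g k : ℕ) :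
    ∃ (V : Type) (_ : Finite V) (G : SimpleGraph V) (s : V) (S : List V) (e : V),
    Heap g G s S e {e} ∅ ∧ Nat.card V = 2 + k ∧ Far G s {e} (k + 1) ∧ dg G e ≤ 3 ∧
      S.length = k := by
  classical
  induction k with
  | zero =>
    have hN : ∀ v : Option Unit, (cone (⊥ : SimpleGraph Unit) {()}).neighborSet v ⊆ Set.univ :=
      fun v => Set.subset_univ _
    have hdg : ∀ v : Option Unit, dg (cone (⊥ : SimpleGraph Unit) {()}) v ≤ 2 := by
      intro v
      unfold dg
      refine (Set.ncard_le_ncard (hN v) (Set.toFinite _)).trans ?_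
      rw [Set.ncard_univ]
      simp
    refine ⟨Option Unit, inferInstance, cone (⊥ : SimpleGraph Unit) {()}, none, [], some (), ?_,
      by simp, ?_, (hdg _).trans (by norm_num), rfl⟩
    · refine ⟨by simp, ?_, ?_, ?_, ?_, hdg _, ?_, ?_, by simp, by simp, by simp⟩
      · intro v
        cases v with
        | none => simp
        | some v => simp
      · show [none, some ()].IsChain _
        rw [List.isChain_cons_cons]
        exact ⟨rfl, by simp⟩
      · intro L hL
        have h1 := hL.1.length_le_card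
        have h2 := hL.2.1
        simp at h1
        omega
      · intro v; exact (hdg v).trans (by norm_num)
      · intro a ha
        rw [Finset.mem_singleton] at ha
        subst ha
        exact ⟨[], Rc.base⟩
      · intro a _
        exact (hdg a).trans (by norm_num)
    · intro a ha P hn hc hh hl
      have ha' : a = some () := ha
      subst ha'
      obtain ⟨t, rfl⟩ := head?_eq_cons hh
      cases t with
      | nil => simp at hl
      | cons b t => simp
  | succ k ih =>
    obtain ⟨V, _, G, s, S, e, h, hc, hf, hd, hl⟩ := ih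
    have hes : e ≠ s := fun e' => h.sA (by rw [e']; simp)
    have h' := h.leaf
    have e1 : upF ({e} : Finset V) = {some e} := by
      unfold upF; simp
    have e2 : upF (∅ : Finset V) = ∅ := by
      unfold upF; simp
    rw [e1, e2] at h'
    refine ⟨Option V, inferInstance, cone G {s}, none, (s :: S).map some, some e, h', ?_, ?_, ?_, ?_⟩
    · rw [Finite.card_option, hc]; ring
    · have := hf.leaf
      rw [Set.image_singleton] at this
      exact this
    · exact (dg_cone_notin G (by simpa using hes)).trans hd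
    · simp [hl]

theorem HS.init (g : ℕ) (hg : 3 ≤ g) : HS g g 0 2 0 := by
  classical
  obtain ⟨V, _, G, s, S, e, h, hc, hf, hd, hl⟩ := exists_path g (g - 3)
  have hes : e ≠ s := fun e' => h.sA (by rw [e']; simp)
  have h' := h.cone2 (a := e) (Finset.mem_singleton_self e) hf (by omega) (A' := {e})
    (Finset.Subset.refl _) (fun _ => hd)
  refine ⟨Option V, inferInstance, _, none, _, some e, _, _, h', ?_, Far.zero _ _ _, ?_,
    Nat.zero_le _, ?_, ?_⟩
  · rw [Finite.card_option, hc]; omega
  · rw [card_insert_up (by simpa using hes.symm)]; simp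
  · refine ⟨some s, Finset.mem_insert_self _ _, ?_⟩
    exact (dg_cone_le G _ s).trans (by have := h.sdeg; omega)
  · obtain ⟨p1, p2, p3⟩ := path_up h.nod h.cov h.ch (N := {v | v = s ∨ v = e}) (Or.inl rfl)
    refine ⟨none :: (((s :: S).map some) ++ [some e]), ⟨p1, ?_, p3, ?_⟩, ?_⟩
    · simp
    · intro a ha b hb
      have h1 : (none :: (((s :: S).map some) ++ [some e])).getLast? = some (some e) := by
        have : none :: (((s :: S).map some) ++ [some e]) =
          (none :: ((s :: S).map some)) ++ [some e] := by simp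
        rw [this, List.getLast?_append]; rfl
      rw [h1] at ha
      simp at ha hb
      subst ha hb
      exact Or.inr rfl
    · simp only [List.length_cons, List.length_append, List.length_map, List.length_nil]
      omega

theorem HS.leaf {g n j α γ : ℕ} (h : HS g n j α γ) : HS g (n + 1) (j + 1) α γ := by
  obtain ⟨V, _, G, s, S, e, A, Γ, h1, h2, h3, h4, h5, ⟨a, ha, ha'⟩, ⟨L, hL, hL'⟩⟩ := h
  refine ⟨Option V, inferInstance, _, none, _, some e, _, _, h1.leaf, ?_, ?_, ?_, ?_, ?_, ?_⟩
  · rw [Finite.card_option, h2]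
  · have := h3.leaf
    intro b hb
    refine this b ?_
    obtain ⟨v, hv, rfl⟩ := upF_cases (Finset.mem_coe.1 hb)
    exact ⟨v, hv, rfl⟩
  · rw [card_upF, h4]
  · rw [card_upF]; exact h5
  · have has : a ≠ s := fun e' => h1.sA (e' ▸ ha)
    exact ⟨some a, mem_upF.2 ha, (dg_cone_notin G (by simpa using has)).trans ha'⟩
  · exact ⟨_, cyc_up hL, by simpa using hL'⟩

theorem HS.leafs {g n j α γ : ℕ} (h : HS g n j α γ) (k : ℕ) : HS g (n + k) (j + k) α γ := by
  induction k with
  | zero => exact h
  | succ k ih => exact ih.leaf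

theorem HS.sparse {g n j α γ : ℕ} (h : HS g n j α γ) : HS g (n + g + 1) 0 (α + 1) γ := by
  classical
  obtain ⟨V, _, G, s, S, e, A, Γ, h1, h2, h3, h4, h5, ⟨a, ha, ha'⟩, ⟨L, hL, hL'⟩⟩ := h.leafs g
  have hf : Far G s {a} (j + g) := by
    intro b hb
    have : b = a := hb
    subst this
    exact h3 b ha
  have h' := h1.cone2 ha hf (by omega) (Finset.Subset.refl A) (fun _ => ha')
  refine ⟨Option V, inferInstance, _, none, _, some e, _, _, h', ?_, Far.zero _ _ _, ?_, ?_, ?_, ?_⟩
  · rw [Finite.card_option, h2]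
  · rw [card_insert_up h1.sA, h4]
  · rw [card_insert_up h1.sΓ]; omega
  · refine ⟨some s, Finset.mem_insert_self _ _, ?_⟩
    exact (dg_cone_le G _ s).trans (by have := h1.sdeg; omega)
  · exact ⟨_, cyc_up hL, by simpa using hL'⟩

theorem HS.sparses {g n α γ : ℕ} (h : HS g n 0 α γ) (M : ℕ) :
    HS g (n + M * (g + 1)) 0 (α + M) γ := by
  induction M with
  | zero => simpa using h
  | succ M ih =>
    have := ih.sparse
    have e1 : n + (M + 1) * (g + 1) = n + M * (g + 1) + g + 1 := by ring
    rw [e1]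
    exact this

theorem HS.dense {g n α γ : ℕ} (h : HS g n 0 α γ) (hα : 6 ^ g < α) :
    HS g (n + 1) 0 α (γ + 1) := by
  classical
  obtain ⟨V, _, G, s, S, e, A, Γ, h1, h2, h3, h4, h5, _, ⟨L, hL, hL'⟩⟩ := h
  obtain ⟨B, hB, hP⟩ := ball_bound h1.deg s g
  obtain ⟨a, ha, haB⟩ : ∃ a ∈ A, a ∉ B := by
    by_contra hcon
    push Not at hcon
    have := Finset.card_le_card (show A ⊆ B from hcon)
    omega
  have hf : Far G s {a} (g + 1) := by
    intro b hb P hn hc hh hl
    have hb' : b = a := hb
    rw [hb'] at hl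
    by_contra hcon
    push Not at hcon
    exact haB (hP P a hc hh hl hcon)
  have h' := h1.cone2 ha hf (by omega) (Finset.erase_subset a A)
    (fun h => absurd rfl (Finset.ne_of_mem_erase h))
  refine ⟨Option V, inferInstance, _, none, _, some e, _, _, h', ?_, Far.zero _ _ _, ?_, ?_, ?_, ?_⟩
  · rw [Finite.card_option, h2]
  · rw [card_insert_up (fun h => h1.sA (Finset.mem_of_mem_erase h)),
      Finset.card_erase_of_mem ha, h4]
    have : 0 < A.card := Finset.card_pos.2 ⟨a, ha⟩
    omega
  · rw [card_insert_up h1.sΓ]; omega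
  · refine ⟨some s, Finset.mem_insert_self _ _, ?_⟩
    exact (dg_cone_le G _ s).trans (by have := h1.sdeg; omega)
  · exact ⟨_, cyc_up hL, by simpa using hL'⟩

theorem HS.denses {g n α γ : ℕ} (h : HS g n 0 α γ) (hα : 6 ^ g < α) (m : ℕ) :
    HS g (n + m) 0 α (γ + m) := by
  induction m with
  | zero => exact h
  | succ m ih => exact ih.dense hα

/-- States of the final stage. -/
def HF (g n j γ : ℕ) : Prop :=
  ∃ (V : Type) (_ : Finite V) (G : SimpleGraph V) (s : V) (S : List V) (e : V) (A Γ : Finset V)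
    (b d : V) (S1 S2 : List V),
    Heap g G s S e A Γ ∧ Nat.card V = n ∧ γ ≤ Γ.card ∧ (∃ L, CycL G L ∧ L.length = g) ∧
    s :: S = S1 ++ b :: d :: S2 ∧ S1 ≠ [] ∧ (∃ T, Rc G (s :: S) e b T) ∧ Far G s {d} j

theorem HF.leaf {g n j γ : ℕ} (h : HF g n j γ) : HF g (n + 1) (j + 1) γ := by
  obtain ⟨V, _, G, s, S, e, A, Γ, b, d, S1, S2, h1, h2, h3, ⟨L, hL, hL'⟩, h4, h5, ⟨T, hT⟩, h6⟩ := h
  refine ⟨Option V, inferInstance, _, none, _, some e, _, _, some b, some d, none :: S1.map some,
    S2.map some, h1.leaf, ?_, ?_, ⟨_, cyc_up hL, by simpa using hL'⟩, ?_, by simp,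
    ⟨_, hT.up⟩, ?_⟩
  · rw [Finite.card_option, h2]
  · rw [card_upF]; exact h3
  · rw [h4]; simp
  · have := h6.leaf
    rw [Set.image_singleton] at this
    exact this

theorem HF.leafs {g n j γ : ℕ} (h : HF g n j γ) (k : ℕ) : HF g (n + k) (j + k) γ := by
  induction k with
  | zero => exact h
  | succ k ih => exact ih.leaf

theorem HS.toHF {g n α γ : ℕ} (h : HS g n 0 α γ) (hα : 0 < α) : HF g (n + g + 2) 0 γ := by
  classical
  obtain ⟨V, _, G, s, S, e, A, Γ, h1, h2, h3, h4, h5, ⟨a0, ha0, ha0'⟩, ⟨L, hL, hL'⟩⟩ := h.leafs g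
  -- one more leaf
  have hl := h1.leaf
  have hf : Far (cone G {s}) none {some a0} (0 + g + 1) := by
    intro b hb
    have hb' : b = some a0 := hb
    subst hb'
    exact h3.leaf (some a0) ⟨a0, ha0, rfl⟩
  have hc := hl.cone2 (mem_upF.2 ha0) hf (by omega) (Finset.empty_subset (upF A))
    (fun h => absurd h (Finset.notMem_empty _))
  refine ⟨Option (Option V), inferInstance, _, none, _, some (some e), _, _, some none,
    some (some s), [none], (S.map some).map some, hc, ?_, ?_, ?_, ?_, by simp, ?_, Far.zero _ _ _⟩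
  · rw [Finite.card_option, Finite.card_option, h2]
  · rw [card_insert_up hl.sΓ, card_upF]; omega
  · exact ⟨_, cyc_up (cyc_up hL), by simpa using hL'⟩
  · simp
  · exact hc.gam _ (@Finset.mem_insert_self _ (_) _ _)

/-- The outer vertex. -/
theorem assemble {V : Type} [Finite V] {G : SimpleGraph V} {s e b d : V} {S1 S2 : List V}
    (nod : (S1 ++ b :: d :: S2 ++ [e]).Nodup) (cov : ∀ v, v ∈ S1 ++ b :: d :: S2 ++ [e])
    (ch : (S1 ++ b :: d :: S2 ++ [e]).IsChain G.Adj) (hs : S1.head? = some s)
    (hds : G.Adj d s) (hb : ∃ T, Rc G (S1 ++ b :: d :: S2) e b T) :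
    Deg3 (cone G {v | v = s ∨ v = e ∨ v = b}) none ![some s, some e, some b] ∧
    Q1 (cone G {v | v = s ∨ v = e ∨ v = b}) none ![some s, some e, some b] ∧
    (∀ p, (∃ T, Rc G (S1 ++ b :: d :: S2) e p T) →
      HP (cone G {v | v = s ∨ v = e ∨ v = b}) {w | w ≠ none} (some p) (some s)) := by
  obtain ⟨S1', hS1⟩ := head?_eq_cons hs
  have hse : s ≠ e := by
    rintro rfl
    rw [hS1] at nod
    have := (List.nodup_append.1 nod).2.2 s (by simp) s (by simp)
    exact this rfl
  have hsb : s ≠ b := by
    rintro rfl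
    rw [hS1] at nod
    have e1 : s :: S1' ++ s :: d :: S2 ++ [e] = s :: (S1' ++ s :: d :: S2 ++ [e]) := by simp
    rw [e1] at nod
    exact (List.nodup_cons.1 nod).1 (by simp)
  have heb : e ≠ b := by
    rintro rfl
    have := (List.nodup_append.1 nod).2.2 e (by simp) e (by simp)
    exact this rfl
  have hhead : (S1 ++ b :: d :: S2 ++ [e]).head? = some s := by rw [hS1]; rfl
  -- lifting paths of G
  have lft : ∀ p q : V, HP G Set.univ p q →
      HP (cone G {v | v = s ∨ v = e ∨ v = b}) {w | w ≠ none} (some p) (some q) := by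
    intro p q h
    refine (h.map (H := cone G {v | v = s ∨ v = e ∨ v = b}) some
      (fun a b _ _ h => Option.some.inj h) (fun a b _ _ h => h)).congr ?_
    intro w
    cases w with
    | none =>
      constructor
      · rintro ⟨a, _, h⟩; simp at h
      · intro h; exact absurd rfl h
    | some w =>
      constructor
      · intro _ h; simp at h
      · intro _; exact ⟨w, trivial, rfl⟩
  have hrot : ∀ p, (∃ T, Rc G (S1 ++ b :: d :: S2) e p T) → HP G Set.univ s p := by
    rintro p ⟨T, hT⟩
    obtain ⟨Y, k1, k2, k3, k4⟩ := hT.path nod ch cov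
    refine ⟨_, k1, fun w => ⟨fun _ => trivial, fun _ => k3 w⟩, k2, k4.trans hhead, ?_⟩
    have : T ++ (Y ++ [p]) = (T ++ Y) ++ [p] := by simp
    rw [this, List.getLast?_append]; rfl
  have p01 : HP G Set.univ s e := by
    refine ⟨_, nod, fun w => ⟨fun _ => trivial, fun _ => cov w⟩, ch, hhead, ?_⟩
    rw [List.getLast?_append]; rfl
  have p02 : HP G Set.univ s b := hrot b hb
  have p12 : HP G Set.univ e b := by
    have e1 : S1 ++ b :: d :: S2 ++ [e] = (S1 ++ [b]) ++ (d :: (S2 ++ [e])) := by simp
    rw [e1] at nod ch cov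
    have hc2 := List.isChain_append.1 ch
    refine ⟨(d :: (S2 ++ [e])).reverse ++ (S1 ++ [b]), ?_, ?_, ?_, ?_, ?_⟩
    · have := (List.perm_append_comm.nodup_iff).1 nod
      exact ((List.Perm.append_right _ (List.reverse_perm _)).nodup_iff).2 this
    · intro w
      refine ⟨fun _ => trivial, fun _ => ?_⟩
      have := cov w
      rw [List.mem_append] at this ⊢
      rw [List.mem_reverse]
      exact this.symm
    · rw [List.isChain_append]
      refine ⟨?_, hc2.1, ?_⟩
      · rw [List.isChain_reverse]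
        exact hc2.2.1.imp fun a b h => h.symm
      · intro p hp q hq
        rw [List.getLast?_reverse] at hp
        have hq' : (S1 ++ [b]).head? = some s := by rw [hS1]; rfl
        rw [hq'] at hq
        simp at hp hq
        rw [← hp, ← hq]
        exact hds
    · have : (d :: (S2 ++ [e])).reverse = e :: (d :: S2).reverse := by simp
      rw [this]; rfl
    · have : (d :: (S2 ++ [e])).reverse ++ (S1 ++ [b]) =
        ((d :: (S2 ++ [e])).reverse ++ S1) ++ [b] := by simp
      rw [this, List.getLast?_append]; rfl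
  refine ⟨⟨?_, ?_⟩, ?_, ?_⟩
  · intro x y hxy
    fin_cases x <;> fin_cases y
    · rfl
    · exact absurd (Option.some.inj hxy) hse
    · exact absurd (Option.some.inj hxy) hsb
    · exact absurd (Option.some.inj hxy).symm hse
    · rfl
    · exact absurd (Option.some.inj hxy) heb
    · exact absurd (Option.some.inj hxy).symm hsb
    · exact absurd (Option.some.inj hxy).symm heb
    · rfl
  · intro p
    constructor
    · intro hp
      cases p with
      | none => exact hp.elim
      | some p =>
        rcases (hp : p = s ∨ p = e ∨ p = b) with h | h | h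
        · exact ⟨0, by rw [h]; rfl⟩
        · exact ⟨1, by rw [h]; rfl⟩
        · exact ⟨2, by rw [h]; rfl⟩
    · rintro ⟨x, rfl⟩
      fin_cases x
      · exact Or.inl rfl
      · exact Or.inr (Or.inl rfl)
      · exact Or.inr (Or.inr rfl)
  · intro x y hxy
    fin_cases x <;> fin_cases y
    · exact absurd rfl hxy
    · exact lft _ _ p01
    · exact lft _ _ p02
    · exact lft _ _ p01.symm
    · exact absurd rfl hxy
    · exact lft _ _ p12
    · exact lft _ _ p02.symm
    · exact lft _ _ p12.symm
    · exact absurd rfl hxy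
  · intro p hp
    exact lft _ _ (hrot p hp).symm

/-- The pieces with many ends. -/
theorem exists_QS (g : ℕ) (hg : 3 ≤ g) : ∃ c0 : ℕ, ∀ m : ℕ, ∃ (W : Type) (_ : Finite W)
    (H : SimpleGraph W) (y : W) (σ : Fin 3 → W) (Γ : Finset W), Deg3 H y σ ∧ Q1 H y σ ∧
      (∀ p ∈ Γ, p ≠ y ∧ HP H {w | w ≠ y} p (σ 0)) ∧ m ≤ Γ.card ∧ Nat.card W = c0 + m ∧
      (∀ L, CycL H L → y ∉ L → g ≤ L.length) ∧
      (∃ L, CycL H L ∧ y ∉ L ∧ L.length = g) := by
  classical
  refine ⟨g + (6 ^ g) * (g + 1) + g + 2 + g + 2, ?_⟩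
  intro m
  have h1 := ((HS.init g hg).sparses (6 ^ g)).denses (Nat.lt_add_of_pos_left (by norm_num)) m
  obtain ⟨V, _, G, s, S, e, A, Γ, b, d, S1, S2, k1, k2, k3, ⟨L, hL, hL'⟩, k4, k5, ⟨T, hT⟩, k6⟩ :=
    ((h1.toHF (by positivity)).leafs g)
  obtain ⟨p1, p2, p3⟩ := path_up k1.nod k1.cov k1.ch (N := {v | v = s ∨ v = d}) (Or.inl rfl)
  have hlist : none :: (((s :: S).map some) ++ [some e]) =
      (none :: S1.map some) ++ some b :: some d :: S2.map some ++ [some e] := by
    rw [k4]; simp
  have hlist2 : none :: ((s :: S).map some) =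
      (none :: S1.map some) ++ some b :: some d :: S2.map some := by
    rw [k4]; simp
  rw [hlist] at p1 p2 p3
  have up := fun (p : V) (hp : ∃ T, Rc G (s :: S) e p T) =>
    (show ∃ T, Rc (cone G {v | v = s ∨ v = d})
      ((none :: S1.map some) ++ some b :: some d :: S2.map some) (some e) (some p) T from by
      obtain ⟨T', hT'⟩ := hp
      rw [← hlist2]
      exact ⟨_, hT'.up⟩)
  obtain ⟨q1, q2, q3⟩ := assemble p1 p2 p3 rfl
    (show (cone G {v | v = s ∨ v = d}).Adj (some d) none from Or.inr rfl) (up b ⟨T, hT⟩)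
  have hcyc := cyc_cone2 k1.cyc k6 (by omega)
  refine ⟨Option (Option V), inferInstance, _, none, _, upF (upF Γ), q1, q2, ?_, ?_, ?_, ?_, ?_⟩
  · intro p hp
    obtain ⟨p', hp', rfl⟩ := upF_cases hp
    obtain ⟨p'', hp'', rfl⟩ := upF_cases hp'
    exact ⟨by simp, q3 _ (up _ (k1.gam _ hp''))⟩
  · rw [card_upF, card_upF]; omega
  · rw [Finite.card_option, Finite.card_option, k2]
    ring
  · intro L hL hn
    obtain ⟨L0, rfl⟩ := list_some hn
    rcases cone_cyc hL with ⟨L1, h1, h2⟩ | ⟨P, a, b', h1, h2, h3, h4, h5, h6, h7, h8⟩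
    · rw [h2, List.length_map]
      exact hcyc L1 h1
    · -- the list avoids the cone vertex
      rw [List.length_map]
      refine hcyc L0 ⟨List.Nodup.of_map some hL.1, by simpa using hL.2.1, ?_, ?_⟩
      · have := hL.2.2.1
        rw [List.isChain_map] at this
        exact this
      · intro a ha b hb
        refine (hL.2.2.2 (some a) ?_ (some b) ?_ :
          (cone (cone G {v | v = s ∨ v = d}) _).Adj (some a) (some b))
        · simp only [Option.mem_def] at ha
          simp [ha]
        · simp only [Option.mem_def] at hb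
          simp [hb]
  · exact ⟨_, cyc_up (cyc_up hL), by simp, by simpa using hL'⟩

end Run7.h694.Mnh
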