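import Pool.Agent.Run7.h694.Skel
import Pool.Agent.Run7.h694.Cox

/-! Replacing the roots of a maximally nonhamiltonian graph by pieces of large girth. -/

namespace Run7.h694.Mnh

/-- The state while the roots are replaced; `c` is a labelling of the vertices such that vertices
with different nonzero labels are joined by a Hamilton path. -/
structure SB {V : Type} (g t : ℕ) (G : SimpleGraph V) (X : Finset V) (c : V → ℕ)
    (J : Finset ℕ) : Prop where
  nh : ¬ HC G
  rt : ∀ x ∈ X, ∃ τ, Deg3 G x τ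
  ind : ∀ x ∈ X, ∀ z ∈ X, ¬ G.Adj x z
  cyc : ∀ L, CycL G L → g ≤ L.length ∨ ∃ x ∈ X, x ∈ L
  path : ∀ u v, c u ≠ 0 → c v ≠ 0 → c u ≠ c v → HP G Set.univ u v
  cX : ∀ x ∈ X, c x ≠ 0 ∧ ∀ v, c v = c x → v = x
  cJ : ∀ j ∈ J, j ≠ 0 ∧ ((∃ x ∈ X, c x = j) ∨ t ≤ Nat.card {v // c v = j})

section

variable {W : Type} [Finite W] {H : SimpleGraph W} {y : W} {σ : Fin 3 → W} {Γ : Finset W}

theorem SB.step {V : Type} [Finite V] {g t : ℕ} {G : SimpleGraph V} {X : Finset V} {c : V → ℕ}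
    {J : Finset ℕ} (h : SB g t G X c J) (dH : Deg3 H y σ) (qH : Q1 H y σ)
    (q2 : ∀ p ∈ Γ, p ≠ y ∧ ∀ a, HP H {w | w ≠ y} p (σ a)) (ht : t ≤ Γ.card)
    (cH : ∀ L, CycL H L → g ≤ L.length) (cg : ∃ L, CycL H L ∧ y ∉ L ∧ L.length = g)
    {x : V} (hx : x ∈ X) :
    ∃ (U : Type) (_ : Finite U) (K : SimpleGraph U) (X' : Finset U) (c' : U → ℕ),
      SB g t K X' c' J ∧ X'.card + 1 = X.card ∧ Nat.card U + 2 = Nat.card V + Nat.card W ∧
      (∃ L, CycL K L ∧ L.length = g) := by
  classical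
  obtain ⟨τ, dx⟩ := h.rt x hx
  obtain ⟨K, f, g', hs⟩ := exists_star dx dH
  -- the new labels
  obtain ⟨c', hcf, hcg⟩ : ∃ c' : SV x y → ℕ, (∀ u, u ≠ x → c' (f u) = c u) ∧
      (∀ i, i ≠ y → c' (g' i) = if i ∈ Γ then c x else 0) := by
    refine ⟨fun p => if hp : ∃ u, u ≠ x ∧ f u = p then c hp.choose
      else if hp' : ∃ i, i ≠ y ∧ g' i = p then (if hp'.choose ∈ Γ then c x else 0) else 0, ?_, ?_⟩
    · intro u hu
      have hp : ∃ v, v ≠ x ∧ f v = f u := ⟨u, hu, rfl⟩
      simp only [dif_pos hp]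
      rw [hs.finj _ _ hp.choose_spec.1 hu hp.choose_spec.2]
    · intro i hi
      have hp : ¬ ∃ v, v ≠ x ∧ f v = g' i := by
        rintro ⟨v, hv, e⟩
        exact hs.disj v i hv hi e
      have hp' : ∃ j, j ≠ y ∧ g' j = g' i := ⟨i, hi, rfl⟩
      simp only [dif_neg hp, dif_pos hp']
      rw [hs.ginj _ _ hp'.choose_spec.1 hi hp'.choose_spec.2]
  refine ⟨SV x y, inferInstance, K, imF f (X.erase x), c', ?_, ?_, card_SV, ?_⟩
  · refine ⟨hs.nonham h.nh, ?_, ?_, ?_, ?_, ?_, ?_⟩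
    · intro p hp
      obtain ⟨v, hv, rfl⟩ := mem_imF.1 hp
      rw [Finset.mem_erase] at hv
      obtain ⟨τ1, h1⟩ := h.rt v hv.2
      exact ⟨_, hs.deg h1 hv.1 (h.ind v hv.2 x hx)⟩
    · intro p hp q hq
      obtain ⟨v, hv, rfl⟩ := mem_imF.1 hp
      obtain ⟨w, hw, rfl⟩ := mem_imF.1 hq
      rw [Finset.mem_erase] at hv hw
      rw [hs.fadj _ _ hv.1 hw.1]
      exact h.ind v hv.2 w hw.2
    · intro L hL
      rcases hs.cyc hL with ⟨L0, k1, k2, rfl⟩ | ⟨L0, k1, k2, rfl⟩ |
        ⟨M0, N0, k1, k2, k3, k4, k5, k6⟩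
      · rw [List.length_map]
        rcases h.cyc L0 k1 with h' | ⟨z, hz, hz'⟩
        · exact Or.inl h'
        · right
          exact ⟨f z, mem_imF.2 ⟨z, Finset.mem_erase.2 ⟨k2 z hz', hz⟩, rfl⟩,
            List.mem_map.2 ⟨z, hz', rfl⟩⟩
      · left
        rw [List.length_map]
        exact cH L0 k1
      · left
        have m1 := cH _ k1
        have m2 := k2.2.1
        simp only [List.length_cons] at m1 m2
        omega
    · have fg : ∀ u i, u ≠ x → i ≠ y → c' (f u) ≠ 0 → c' (g' i) ≠ 0 → c' (f u) ≠ c' (g' i) →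
          HP K Set.univ (g' i) (f u) := by
        intro u i hu hi h1 h2 h3
        rw [hcf u hu] at h1 h3
        rw [hcg i hi] at h2 h3
        by_cases hiΓ : i ∈ Γ
        · rw [if_pos hiΓ] at h2 h3
          have h4 := h.path x u h2 h1 h3.symm
          exact (hs.start (fun a _ => (q2 i hiΓ).2 a) hu h4).congr hs.uni
        · rw [if_neg hiΓ] at h2
          exact absurd rfl h2
      refine hs.cases ?_ ?_
      · intro u hu
        refine hs.cases ?_ ?_
        · intro v hv h1 h2 h3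
          rw [hcf u hu] at h1 h3
          rw [hcf v hv] at h2 h3
          exact (hs.lift qH (Set.mem_univ x) hu hv (h.path u v h1 h2 h3)).congr hs.uni
        · intro i hi h1 h2 h3
          exact (fg u i hu hi h1 h2 h3).symm
      · intro i hi
        refine hs.cases ?_ ?_
        · intro v hv h1 h2 h3
          exact fg v i hv hi h2 h1 h3.symm
        · intro j hj h1 h2 h3
          rw [hcg i hi] at h1 h3
          rw [hcg j hj] at h2 h3
          by_cases hiΓ : i ∈ Γ
          · by_cases hjΓ : j ∈ Γ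
            · rw [if_pos hiΓ, if_pos hjΓ] at h3
              exact absurd rfl h3
            · rw [if_neg hjΓ] at h2
              exact absurd rfl h2
          · rw [if_neg hiΓ] at h1
            exact absurd rfl h1
    · intro p hp
      obtain ⟨v, hv, rfl⟩ := mem_imF.1 hp
      rw [Finset.mem_erase] at hv
      obtain ⟨hc1, hc2⟩ := h.cX v hv.2
      rw [hcf v hv.1]
      refine ⟨hc1, ?_⟩
      refine hs.cases ?_ ?_
      · intro u hu e
        rw [hcf u hu] at e
        rw [hc2 u e]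
      · intro i hi e
        rw [hcg i hi] at e
        by_cases hiΓ : i ∈ Γ
        · rw [if_pos hiΓ] at e
          exact absurd (hc2 x e).symm hv.1
        · rw [if_neg hiΓ] at e
          exact absurd e.symm hc1
    · intro j hj
      obtain ⟨hj0, hj1⟩ := h.cJ j hj
      refine ⟨hj0, ?_⟩
      by_cases hjx : j = c x
      · right
        refine ht.trans ?_
        have : Γ.card = Nat.card {p // p ∈ Γ} := by simp
        rw [this]
        refine Nat.card_le_card_of_injective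
          (fun p => ⟨g' p.1, by rw [hcg _ (q2 _ p.2).1, if_pos p.2, hjx]⟩) ?_
        intro p q e
        simp only [Subtype.mk.injEq] at e
        exact Subtype.ext (hs.ginj _ _ (q2 _ p.2).1 (q2 _ q.2).1 e)
      · rcases hj1 with ⟨z, hz, hz'⟩ | hj1
        · left
          have hzx : z ≠ x := by
            rintro rfl
            exact hjx hz'.symm
          exact ⟨f z, mem_imF.2 ⟨z, Finset.mem_erase.2 ⟨hzx, hz⟩, rfl⟩, by rw [hcf z hzx, hz']⟩
        · right
          refine hj1.trans ?_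
          have hne : ∀ p : {v // c v = j}, p.1 ≠ x := by
            rintro ⟨p, hp⟩ e
            simp only at e
            rw [e] at hp
            exact hjx hp.symm
          refine Nat.card_le_card_of_injective
            (fun p => ⟨f p.1, by rw [hcf _ (hne p)]; exact p.2⟩) ?_
          intro p q e
          simp only [Subtype.mk.injEq] at e
          exact Subtype.ext (hs.finj _ _ (hne p) (hne q) e)
  · rw [card_imF, Finset.card_erase_of_mem hx]
    · have : 0 < X.card := Finset.card_pos.2 ⟨x, hx⟩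
      omega
    · intro a ha b hb e
      rw [Finset.mem_erase] at ha hb
      exact hs.finj _ _ ha.1 hb.1 e
  · obtain ⟨L, h1, h2, h3⟩ := cg
    exact ⟨L.map g', hs.symm.cyc_map h1 h2, by simpa using h3⟩

theorem SB.all {g t : ℕ} {J : Finset ℕ} (dH : Deg3 H y σ) (qH : Q1 H y σ)
    (q2 : ∀ p ∈ Γ, p ≠ y ∧ ∀ a, HP H {w | w ≠ y} p (σ a)) (ht : t ≤ Γ.card)
    (cH : ∀ L, CycL H L → g ≤ L.length) (cg : ∃ L, CycL H L ∧ y ∉ L ∧ L.length = g) (k : ℕ) :
    ∀ (V : Type) (_ : Finite V) (G : SimpleGraph V) (X : Finset V) (c : V → ℕ),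
      SB g t G X c J → X.card = k + 1 →
    ∃ (U : Type) (_ : Finite U) (K : SimpleGraph U) (c' : U → ℕ), SB g t K ∅ c' J ∧
      Nat.card U + 2 * (k + 1) = Nat.card V + (k + 1) * Nat.card W ∧
      (∃ L, CycL K L ∧ L.length = g) := by
  induction k with
  | zero =>
    intro V _ G X c h hX
    obtain ⟨x, hx⟩ := Finset.card_pos.1 (by omega : 0 < X.card)
    obtain ⟨U, _, K, X', c', h1, h2, h3, h4⟩ := h.step dH qH q2 ht cH cg hx
    have : X' = ∅ := Finset.card_eq_zero.1 (by omega)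
    subst this
    exact ⟨U, inferInstance, K, c', h1, by omega, h4⟩
  | succ k ih =>
    intro V _ G X c h hX
    obtain ⟨x, hx⟩ := Finset.card_pos.1 (by omega : 0 < X.card)
    obtain ⟨U, _, K, X', c', h1, h2, h3, h4⟩ := h.step dH qH q2 ht cH cg hx
    obtain ⟨U2, i2, K2, c2, k1, k2, k3⟩ := ih U inferInstance K X' c' h1 (by omega)
    refine ⟨U2, i2, K2, c2, k1, ?_, k3⟩
    have e1 : (k + 1 + 1) * Nat.card W = (k + 1) * Nat.card W + Nat.card W := by ring
    rw [e1]
    omega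

end

theorem Root.deg3 {V : Type} {G : SimpleGraph V} {x : V} {τ : Fin 3 → V} (h : Root G x τ) :
    Deg3 G x τ := ⟨h.inj, h.adj⟩

/-- The starting state. -/
theorem exists_SB (g t k : ℕ) : ∃ (V : Type) (_ : Finite V) (G : SimpleGraph V) (X : Finset V)
    (c : V → ℕ) (J : Finset ℕ), SB g t G X c J ∧ X.card = 9 + 7 * k ∧ J.card = 9 + 7 * k ∧
    Nat.card V = 28 + 23 * k := by
  classical
  obtain ⟨V, _, G, X, ρ, h1, h2, h3⟩ := phase1 cox_piece (by simp) (by decide +kernel) k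
  let e : {x // x ∈ X} ≃ Fin X.card := X.equivFin
  let c : V → ℕ := fun v => if h : v ∈ X then (e ⟨v, h⟩).val + 1 else 0
  have hc1 : ∀ v (h : v ∈ X), c v = (e ⟨v, h⟩).val + 1 := by
    intro v h
    simp only [c]
    rw [dif_pos h]
  have hc0 : ∀ v, v ∉ X → c v = 0 := by
    intro v h
    simp only [c]
    rw [dif_neg h]
  have hcX : ∀ v, c v ≠ 0 → v ∈ X := by
    intro v h
    by_contra hv
    exact h (hc0 v hv)
  refine ⟨V, inferInstance, G, X, c, (Finset.range X.card).image (fun i => i + 1), ?_, h3, ?_, ?_⟩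
  · refine ⟨h1.nh, ?_, h1.ind, ?_, ?_, ?_, ?_⟩
    · intro x hx
      obtain ⟨τ, hτ⟩ := h1.root x hx
      exact ⟨τ, hτ.deg3⟩
    · intro L hL
      obtain ⟨w, hw, hw'⟩ := h1.forest hL
      exact Or.inr ⟨w, hw', hw⟩
    · intro u v hu hv huv
      refine h1.mx u v (fun e' => huv (by rw [e'])) ?_
      exact h1.ind u (hcX u hu) v (hcX v hv)
    · intro x hx
      refine ⟨by rw [hc1 x hx]; omega, ?_⟩
      intro v hv
      have hvX : v ∈ X := hcX v (by rw [hv, hc1 x hx]; omega)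
      rw [hc1 v hvX, hc1 x hx] at hv
      have h4 : e ⟨v, hvX⟩ = e ⟨x, hx⟩ := Fin.ext (by omega)
      have := e.injective h4
      simpa using this
    · intro j hj
      obtain ⟨i, hi, rfl⟩ := Finset.mem_image.1 hj
      rw [Finset.mem_range] at hi
      refine ⟨by omega, Or.inl ⟨(e.symm ⟨i, hi⟩).1, (e.symm ⟨i, hi⟩).2, ?_⟩⟩
      rw [hc1 _ (e.symm ⟨i, hi⟩).2]
      simp
  · rw [Finset.card_image_of_injective _ (fun a b h => by simpa using h), Finset.card_range, h3]
  · rw [Nat.card_eq_fintype_card, h2]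

/-- Counting the pairs which are not joined by a Hamilton path. -/
theorem count_bad {V : Type} [Finite V] {g t : ℕ} {G : SimpleGraph V} {c : V → ℕ} {J : Finset ℕ}
    (h : SB g t G ∅ c J) :
    Nat.card {p : V × V // p.1 ≠ p.2 ∧ ¬ G.Adj p.1 p.2 ∧ ¬ HP G Set.univ p.1 p.2} +
      J.card * (J.card - 1) * (t * t) ≤ Nat.card V * Nat.card V := by
  classical
  haveI := Fintype.ofFinite V
  have hJ : ∀ j ∈ J, t ≤ Nat.card {v // c v = j} := by
    intro j hj
    rcases (h.cJ j hj).2 with ⟨x, hx, _⟩ | h'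
    · exact absurd hx (Finset.notMem_empty x)
    · exact h'
  -- choose `t` vertices of every label
  have hφ : ∀ j : {j // j ∈ J}, ∃ φ : Fin t → V, Function.Injective φ ∧ ∀ a, c (φ a) = j.1 := by
    intro j
    have h1 := hJ j.1 j.2
    have h2 : Nonempty (Fin t ↪ {v // c v = j.1}) := by
      rw [Function.Embedding.nonempty_iff_card_le, Fintype.card_fin, ← Nat.card_eq_fintype_card]
      exact h1
    obtain ⟨φ⟩ := h2
    exact ⟨fun a => (φ a).1, fun a b hab => φ.injective (Subtype.ext hab), fun a => (φ a).2⟩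
  choose φ hφ1 hφ2 using hφ
  -- the injection
  let P : Type := {q : {j // j ∈ J} × {j // j ∈ J} // q.1 ≠ q.2} × (Fin t × Fin t)
  let Bad : Type := {p : V × V // p.1 ≠ p.2 ∧ ¬ G.Adj p.1 p.2 ∧ ¬ HP G Set.univ p.1 p.2}
  let F : Bad ⊕ P → V × V := fun x => match x with
    | Sum.inl p => p.1
    | Sum.inr q => (φ q.1.1.1 q.2.1, φ q.1.1.2 q.2.2)
  have hlab : ∀ q : P, c (φ q.1.1.1 q.2.1) ≠ 0 ∧ c (φ q.1.1.2 q.2.2) ≠ 0 ∧
      c (φ q.1.1.1 q.2.1) ≠ c (φ q.1.1.2 q.2.2) := by
    intro q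
    rw [hφ2, hφ2]
    refine ⟨(h.cJ _ q.1.1.1.2).1, (h.cJ _ q.1.1.2.2).1, ?_⟩
    intro e
    exact q.1.2 (Subtype.ext e)
  have hF : Function.Injective F := by
    rintro (p | p) (q | q) e
    · simp only [F] at e
      rw [Subtype.ext e]
    · exfalso
      have e' : p.1 = (φ q.1.1.1 q.2.1, φ q.1.1.2 q.2.2) := e
      obtain ⟨l1, l2, l3⟩ := hlab q
      refine p.2.2.2 ?_
      rw [e']
      exact h.path _ _ l1 l2 l3
    · exfalso
      have e' : q.1 = (φ p.1.1.1 p.2.1, φ p.1.1.2 p.2.2) := e.symm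
      obtain ⟨l1, l2, l3⟩ := hlab p
      refine q.2.2.2 ?_
      rw [e']
      exact h.path _ _ l1 l2 l3
    · obtain ⟨⟨⟨a, b⟩, hab⟩, s, u⟩ := p
      obtain ⟨⟨⟨a', b'⟩, hab'⟩, s', u'⟩ := q
      simp only [F, Prod.mk.injEq] at e
      obtain ⟨e1, e2⟩ := e
      have ha : a = a' := by
        apply Subtype.ext
        rw [← hφ2 a s, ← hφ2 a' s', e1]
      have hb : b = b' := by
        apply Subtype.ext
        rw [← hφ2 b u, ← hφ2 b' u', e2]
      subst ha hb
      rw [hφ1 a e1, hφ1 b e2]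
  have hcard := Nat.card_le_card_of_injective F hF
  have hP : Nat.card P = J.card * (J.card - 1) * (t * t) := by
    have h1 : Nat.card {q : {j // j ∈ J} × {j // j ∈ J} // q.1 ≠ q.2} =
        J.card * (J.card - 1) := by
      rw [Nat.card_eq_fintype_card, Fintype.card_subtype]
      have h2 : (Finset.univ.filter (fun q : {j // j ∈ J} × {j // j ∈ J} => q.1 ≠ q.2)) =
          (Finset.univ : Finset {j // j ∈ J}).offDiag := by
        ext q
        simp [Finset.mem_offDiag]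
      rw [h2, Finset.offDiag_card, Finset.card_univ, Fintype.card_coe, Nat.mul_sub, Nat.mul_one]
    show Nat.card ({q : {j // j ∈ J} × {j // j ∈ J} // q.1 ≠ q.2} × (Fin t × Fin t)) = _
    rw [Nat.card_prod, h1, Nat.card_prod, Nat.card_fin]
  rw [Nat.card_sum, hP, Nat.card_prod] at hcard
  exact hcard

theorem girth_eq {V : Type} {G : SimpleGraph V} {g : ℕ} (h1 : ∀ L, CycL G L → g ≤ L.length)
    (h2 : ∃ L, CycL G L ∧ L.length = g) : G.girth = g := by
  have e1 : (g : ℕ∞) ≤ G.egirth := by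
    rw [SimpleGraph.le_egirth]
    intro a w hw
    obtain ⟨hc, hl⟩ := cycL_of_isCycle hw
    have := h1 _ hc
    rw [hl] at this
    exact_mod_cast this
  have e2 : G.egirth ≤ (g : ℕ∞) := by
    obtain ⟨L, hL, hLg⟩ := h2
    obtain ⟨a, c, hc, hcl⟩ := exists_cycle hL
    have := SimpleGraph.egirth_le_length hc
    rw [hcl, hLg] at this
    exact this
  have e3 : G.egirth = g := le_antisymm e2 e1
  unfold SimpleGraph.girth
  rw [e3]; rfl

theorem cyc_comap {V W : Type} {G : SimpleGraph V} (e : V ≃ W) {L : List W}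
    (hL : CycL (G.comap e.symm) L) : CycL G (L.map e.symm) := by
  refine ⟨hL.1.map e.symm.injective, by simpa using hL.2.1, ?_, ?_⟩
  · rw [List.isChain_map]; exact hL.2.2.1
  · intro a ha b hb
    rw [List.getLast?_map] at ha
    rw [List.head?_map] at hb
    simp only [Option.mem_def, Option.map_eq_some_iff] at ha hb
    obtain ⟨a', ha', rfl⟩ := ha
    obtain ⟨b', hb', rfl⟩ := hb
    exact hL.2.2.2 _ ha' _ hb'

theorem cyc_comap' {V W : Type} {G : SimpleGraph V} (e : V ≃ W) {L : List V}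
    (hL : CycL G L) : CycL (G.comap e.symm) (L.map e) := by
  refine ⟨hL.1.map e.injective, by simpa using hL.2.1, ?_, ?_⟩
  · rw [List.isChain_map]
    refine hL.2.2.1.imp ?_
    intro a b hab
    simpa using hab
  · intro a ha b hb
    rw [List.getLast?_map] at ha
    rw [List.head?_map] at hb
    simp only [Option.mem_def, Option.map_eq_some_iff] at ha hb
    obtain ⟨a', ha', rfl⟩ := ha
    obtain ⟨b', hb', rfl⟩ := hb
    simpa using hL.2.2.2 _ ha' _ hb'

/-- Almost maximally nonhamiltonian graphs of every girth. -/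
theorem almost (g : ℕ) (hg : 3 ≤ g) : ∃ C : ℕ, ∀ N : ℕ, ∃ (n : ℕ) (G : SimpleGraph (Fin n)),
    N ≤ n ∧ ¬ G.IsHamiltonian ∧ G.girth = g ∧
    (Nat.card {p : Fin n × Fin n // p.1 ≠ p.2 ∧ ¬ G.Adj p.1 p.2 ∧
      ¬ (G ⊔ SimpleGraph.edge p.1 p.2).IsHamiltonian}) ^ 2 ≤ C * n ^ 3 := by
  classical
  obtain ⟨c1, hQQ⟩ := exists_QQ g hg
  refine ⟨(c1 + 3) ^ 4, ?_⟩
  intro N
  -- number of roots
  let k : ℕ := 9 + 7 * N
  obtain ⟨W, _, H, y, σ, Γ, dH, qH, q2, hΓ, hW, cH, cg⟩ := hQQ k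
  obtain ⟨V, _, B, X, c, J, hB, hX, hJ, hV⟩ := exists_SB g k N
  obtain ⟨U, _, K, c', h1, h2, h3⟩ := SB.all dH qH q2 hΓ cH cg (8 + 7 * N) V inferInstance B X c hB
    (by omega)
  have hcount := count_bad h1
  rw [hJ] at hcount
  haveI := Fintype.ofFinite U
  let e : U ≃ Fin (Nat.card U) := by
    rw [Nat.card_eq_fintype_card]
    exact Fintype.equivFin U
  have hk : 9 + 7 * N = k := rfl
  have hk8 : 8 + 7 * N + 1 = k := by omega
  rw [hk8, hV, hW] at h2
  rw [hk] at hcount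
  -- sizes
  have hn1 : k * k ≤ Nat.card U := by
    have : k * (c1 + k) = k * c1 + k * k := by ring
    rw [this] at h2
    have := Nat.zero_le (k * c1)
    omega
  have hn2 : Nat.card U ≤ k * k + k * (c1 + 2) := by
    have e1 : k * (c1 + k) = k * c1 + k * k := by ring
    have e2 : k * (c1 + 2) = k * c1 + 2 * k := by ring
    rw [e1] at h2
    rw [e2]
    omega
  have hnK : ¬ HC (K.comap e.symm) := by
    rintro ⟨L, hL, hf⟩
    refine h1.nh ⟨L.map e.symm, cyc_comap e hL, ?_⟩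
    intro v
    rw [List.mem_map]
    exact ⟨e v, hf _, by simp⟩
  refine ⟨Nat.card U, K.comap e.symm, ?_, ?_, ?_, ?_⟩
  · have : N ≤ k := by omega
    calc N ≤ k := this
      _ ≤ k * k := Nat.le_mul_self k
      _ ≤ Nat.card U := hn1
  · intro hH
    refine hnK (hc_of_isHamiltonian ?_ hH)
    intro h4
    rw [Fintype.card_fin] at h4
    rw [h4] at hn1
    have : 9 ≤ k := by omega
    nlinarith
  · refine girth_eq ?_ ?_
    · intro L hL
      have h4 := cyc_comap e hL
      rcases h1.cyc _ h4 with h5 | ⟨x, hx, _⟩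
      · simpa using h5
      · exact absurd hx (Finset.notMem_empty x)
    · obtain ⟨L, hL, hLg⟩ := h3
      exact ⟨L.map e, cyc_comap' e hL, by simpa using hLg⟩
  · -- the number of bad pairs
    have hbad : Nat.card {p : Fin (Nat.card U) × Fin (Nat.card U) // p.1 ≠ p.2 ∧
        ¬ (K.comap e.symm).Adj p.1 p.2 ∧
        ¬ ((K.comap e.symm) ⊔ SimpleGraph.edge p.1 p.2).IsHamiltonian} ≤
        Nat.card {p : U × U // p.1 ≠ p.2 ∧ ¬ K.Adj p.1 p.2 ∧ ¬ HP K Set.univ p.1 p.2} := by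
      refine Nat.card_le_card_of_injective
        (fun p => ⟨(e.symm p.1.1, e.symm p.1.2), ?_, ?_, ?_⟩) ?_
      · intro h4
        exact p.2.1 (e.symm.injective h4)
      · exact p.2.2.1
      · intro h4
        refine p.2.2.2 (isHamiltonian_of_hp p.2.1 p.2.2.1 ?_)
        have h5 := h4.map (H := K.comap e.symm) e (fun a b _ _ hab => e.injective hab)
          (fun a b _ _ hab => by simpa using hab)
        simp only [e.apply_symm_apply] at h5
        refine h5.congr ?_
        intro w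
        simp
      · intro p q h4
        simp only [Subtype.mk.injEq, Prod.mk.injEq] at h4
        exact Subtype.ext (Prod.ext (e.symm.injective h4.1) (e.symm.injective h4.2))
    refine (Nat.pow_le_pow_left hbad 2).trans ?_
    generalize Nat.card {p : U × U // p.1 ≠ p.2 ∧ ¬ K.Adj p.1 p.2 ∧
      ¬ HP K Set.univ p.1 p.2} = b at hcount
    generalize Nat.card U = n at hcount hn1 hn2
    have hk9 : 9 ≤ k := by omega
    generalize k = k at hcount hn1 hn2 hk9
    -- `b ≤ (c1 + 3)^2 k^3`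
    have hb : b ≤ (c1 + 3) ^ 2 * k ^ 3 := by
      obtain ⟨k', rfl⟩ : ∃ k', k = k' + 1 := ⟨k - 1, by omega⟩
      have h5 : n * n ≤ ((k' + 1) * (k' + 1) + (k' + 1) * (c1 + 2)) *
          ((k' + 1) * (k' + 1) + (k' + 1) * (c1 + 2)) := Nat.mul_le_mul hn2 hn2
      have h6 : k' + 1 - 1 = k' := by omega
      rw [h6] at hcount
      have h7 : b + (k' + 1) * k' * ((k' + 1) * (k' + 1)) ≤
          ((k' + 1) * (k' + 1) + (k' + 1) * (c1 + 2)) *
          ((k' + 1) * (k' + 1) + (k' + 1) * (c1 + 2)) := hcount.trans h5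
      have h8 : ((k' + 1) * (k' + 1) + (k' + 1) * (c1 + 2)) *
          ((k' + 1) * (k' + 1) + (k' + 1) * (c1 + 2)) ≤
          (c1 + 3) ^ 2 * (k' + 1) ^ 3 + (k' + 1) * k' * ((k' + 1) * (k' + 1)) := by
        nlinarith [Nat.zero_le (c1 * k'), Nat.zero_le (c1 ^ 2 * k' ^ 3),
          Nat.zero_le (c1 ^ 2 * k' ^ 2), Nat.zero_le (c1 ^ 2 * k'), Nat.zero_le (c1 * k' ^ 2),
          Nat.zero_le (c1 * k' ^ 3), Nat.zero_le (k' ^ 3), Nat.zero_le (k' ^ 2)]
      omega
    calc b ^ 2 ≤ ((c1 + 3) ^ 2 * k ^ 3) ^ 2 := Nat.pow_le_pow_left hb 2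
      _ = (c1 + 3) ^ 4 * (k * k) ^ 3 := by ring
      _ ≤ (c1 + 3) ^ 4 * n ^ 3 := Nat.mul_le_mul_left _ (Nat.pow_le_pow_left hn1 3)

end Run7.h694.Mnh
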