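import Pool.Agent.Run7.h694.Cone

/-! Pieces of large girth with Hamilton paths between any two of the three terminals. -/

namespace Run7.h694.Mnh

theorem forest_of_rank {V : Type} {G : SimpleGraph V} (F : V → Prop) (ρ : V → ℕ)
    (f1 : ∀ u v, ¬ F u → ¬ F v → G.Adj u v → ρ u ≠ ρ v)
    (f2 : ∀ u v w, ¬ F u → ¬ F v → ¬ F w → G.Adj u v → G.Adj u w → ρ v < ρ u → ρ w < ρ u → v = w)
    {L : List V} (hL : CycL G L) : ∃ w ∈ L, F w := by
  classical
  by_contra hcon
  push Not at hcon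
  have hne : L.toFinset.Nonempty := by
    have : L ≠ [] := by
      rintro rfl
      have := hL.2.1
      simp at this
    simpa using this
  obtain ⟨a, haL, hmax⟩ := Finset.exists_max_image L.toFinset ρ hne
  rw [List.mem_toFinset] at haL
  have hmax' : ∀ b ∈ L, ρ b ≤ ρ a := fun b hb => hmax b (List.mem_toFinset.2 hb)
  obtain ⟨s, t, rfl⟩ := List.append_of_mem haL
  have hc : CycL G (a :: (t ++ s)) := by simpa using hL.rot
  have hsub : ∀ p, p ∈ a :: (t ++ s) → p ∈ s ++ a :: t := by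
    intro p hp
    simp only [List.mem_append, List.mem_cons] at hp ⊢
    tauto
  have haX := hcon a haL
  generalize t ++ s = l at hc hsub
  obtain ⟨b, l', rfl⟩ : ∃ b l', l = b :: l' := by
    cases l with
    | nil => have := hc.2.1; simp at this
    | cons b l' => exact ⟨b, l', rfl⟩
  obtain ⟨c, l'', hc''⟩ : ∃ c l'', l' = l'' ++ [c] := by
    rcases List.eq_nil_or_concat l' with h | ⟨q, c, h⟩
    · subst h; have := hc.2.1; simp at this
    · exact ⟨c, q, by simpa using h⟩
  subst hc''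
  have hb : b ∈ a :: b :: (l'' ++ [c]) := by simp
  have hcm : c ∈ a :: b :: (l'' ++ [c]) := by simp
  have hab : G.Adj a b := by
    have := hc.2.2.1
    rw [List.isChain_cons_cons] at this
    exact this.1
  have hca : G.Adj c a := by
    refine hc.2.2.2 c ?_ a (by simp)
    have : a :: b :: (l'' ++ [c]) = (a :: b :: l'') ++ [c] := by simp
    rw [this, List.getLast?_append]; rfl
  have hbX := hcon b (hsub b hb)
  have hcX := hcon c (hsub c hcm)
  have h1 := f1 a b haX hbX hab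
  have h2 := f1 a c haX hcX hca.symm
  have h3 := hmax' b (hsub b hb)
  have h4 := hmax' c (hsub c hcm)
  have h5 := f2 a b c haX hbX hcX hab hca.symm (by omega) (by omega)
  subst h5
  have := (List.nodup_cons.1 (List.nodup_cons.1 hc.1).2).1
  exact this (by simp)

/-- Edges of the small base graph. -/
def adj6 (i j : ℕ) : Bool :=
  [(0, 3), (0, 4), (0, 5), (1, 5), (2, 5), (2, 3), (1, 4)].contains (i, j) ||
  [(0, 3), (0, 4), (0, 5), (1, 5), (2, 5), (2, 3), (1, 4)].contains (j, i)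

/-- The complete bipartite graph `K_{3,3}` without the two edges `13` and `24`. -/
def base6 : SimpleGraph (Fin 6) where
  Adj i j := adj6 i j = true
  symm := ⟨by
    have : ∀ i j : Fin 6, adj6 i j = true → adj6 j i = true := by decide
    exact this⟩
  loopless := ⟨by
    have : ∀ i : Fin 6, ¬ adj6 i i = true := by decide
    exact this⟩

theorem base6_deg0 : Deg3 base6 0 ![3, 4, 5] := by
  refine ⟨by decide, ?_⟩
  have : ∀ v : Fin 6, adj6 (0 : Fin 6) v = true ↔ ∃ a : Fin 3, v = (![3, 4, 5] : Fin 3 → Fin 6) a := by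
    decide
  exact this

theorem base6_deg5 : Deg3 base6 5 ![0, 1, 2] := by
  refine ⟨by decide, ?_⟩
  have : ∀ v : Fin 6, adj6 (5 : Fin 6) v = true ↔ ∃ a : Fin 3, v = (![0, 1, 2] : Fin 3 → Fin 6) a := by
    decide
  exact this

theorem base6_cyc {L : List (Fin 6)} (hL : CycL base6 L) :
    (0 : Fin 6) ∈ L ∧ (5 : Fin 6) ∈ L ∧ 4 ≤ L.length := by
  refine ⟨?_, ?_, ?_⟩
  · obtain ⟨w, hw, rfl⟩ := forest_of_rank (fun v => v = 0) (fun v => (![9, 1, 1, 2, 2, 0] : Fin 6 → ℕ) v)
      (by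
        have : ∀ u v : Fin 6, ¬ u = 0 → ¬ v = 0 → adj6 u v = true →
          (![9, 1, 1, 2, 2, 0] : Fin 6 → ℕ) u ≠ (![9, 1, 1, 2, 2, 0] : Fin 6 → ℕ) v := by decide
        exact this)
      (by
        have : ∀ u v w : Fin 6, ¬ u = 0 → ¬ v = 0 → ¬ w = 0 → adj6 u v = true → adj6 u w = true →
          (![9, 1, 1, 2, 2, 0] : Fin 6 → ℕ) v < (![9, 1, 1, 2, 2, 0] : Fin 6 → ℕ) u →
          (![9, 1, 1, 2, 2, 0] : Fin 6 → ℕ) w < (![9, 1, 1, 2, 2, 0] : Fin 6 → ℕ) u →
          v = w := by decide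
        exact this) hL
    exact hw
  · obtain ⟨w, hw, rfl⟩ := forest_of_rank (fun v => v = 5) (fun v => (![0, 2, 2, 1, 1, 9] : Fin 6 → ℕ) v)
      (by
        have : ∀ u v : Fin 6, ¬ u = 5 → ¬ v = 5 → adj6 u v = true →
          (![0, 2, 2, 1, 1, 9] : Fin 6 → ℕ) u ≠ (![0, 2, 2, 1, 1, 9] : Fin 6 → ℕ) v := by decide
        exact this)
      (by
        have : ∀ u v w : Fin 6, ¬ u = 5 → ¬ v = 5 → ¬ w = 5 → adj6 u v = true → adj6 u w = true →
          (![0, 2, 2, 1, 1, 9] : Fin 6 → ℕ) v < (![0, 2, 2, 1, 1, 9] : Fin 6 → ℕ) u →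
          (![0, 2, 2, 1, 1, 9] : Fin 6 → ℕ) w < (![0, 2, 2, 1, 1, 9] : Fin 6 → ℕ) u →
          v = w := by decide
        exact this) hL
    exact hw
  · by_contra hcon
    have h3 := hL.2.1
    have hl : L.length = 3 := by omega
    obtain ⟨a, b, c, rfl⟩ := List.length_eq_three.1 hl
    have h1 := hL.2.2.1
    rw [List.isChain_cons_cons, List.isChain_cons_cons] at h1
    have h2 := hL.2.2.2 c (by simp) a (by simp)
    have : ∀ a b c : Fin 6, adj6 a b = true → adj6 b c = true → adj6 c a = true → False := by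
      decide
    exact this a b c h1.1 h1.2.1 h2

/-- Checking a Hamilton path in a finite graph. -/
theorem hp_of_list {V : Type} [DecidableEq V] {G : SimpleGraph V} {S : Set V} (l : List V) {u v : V}
    (h1 : l.Nodup) (h2 : ∀ w, w ∈ l ↔ w ∈ S) (h3 : l.IsChain G.Adj) (h4 : l.head? = some u)
    (h5 : l.getLast? = some v) : HP G S u v := ⟨l, h1, h2, h3, h4, h5⟩

theorem base6_adj : base6.Adj 1 5 ∧ base6.Adj 5 2 ∧ base6.Adj 1 4 ∧ base6.Adj 2 5 ∧
    base6.Adj 2 3 := by
  refine ⟨?_, ?_, ?_, ?_, ?_⟩ <;> show adj6 _ _ = true <;> decide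

/-- The base piece: short cycles pass through both `y` and `z`. -/
theorem exists_H0 (g : ℕ) : ∃ (W : Type) (_ : Finite W) (H : SimpleGraph W) (y z : W)
    (σ τ : Fin 3 → W), Deg3 H y σ ∧ Deg3 H z τ ∧ σ 2 = z ∧ τ 0 = y ∧ Q1 H y σ ∧
      ∀ L, CycL H L → g ≤ L.length ∨ (y ∈ L ∧ z ∈ L ∧ 4 ≤ L.length) := by
  obtain ⟨W1, _, K1, f1, N1, h1⟩ := exists_addP g base6 3 1
  obtain ⟨W2, _, K2, f2, N2, h2⟩ := exists_addP g K1 (f1 2) (f1 4)
  have e1 : ∀ a b : Fin 6, a ≠ b → f1 a ≠ f1 b := fun a b hab e => hab (h1.finj e)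
  have d0 : Deg3 K2 (f2 (f1 0)) (fun a => f2 (f1 ((![3, 4, 5] : Fin 3 → Fin 6) a))) :=
    h2.deg (h1.deg base6_deg0 (by decide) (by decide)) (e1 _ _ (by decide)) (e1 _ _ (by decide))
  have d5 : Deg3 K2 (f2 (f1 5)) (fun a => f2 (f1 ((![0, 1, 2] : Fin 3 → Fin 6) a))) :=
    h2.deg (h1.deg base6_deg5 (by decide) (by decide)) (e1 _ _ (by decide)) (e1 _ _ (by decide))
  obtain ⟨a15, a52, a14, a25, a23⟩ := base6_adj
  -- membership in the final sets
  have fin6 : ∀ a : Fin 6, a = 0 ∨ a = 1 ∨ a = 2 ∨ a = 3 ∨ a = 4 ∨ a = 5 := by decide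
  have cov2 : ∀ p, p ∈ N2 ∨ (∃ q ∈ N1, f2 q = p) ∨ ∃ a, f2 (f1 a) = p := by
    intro p
    rcases h2.cov p with h | ⟨q, rfl⟩
    · exact Or.inl h
    · rcases h1.cov q with h | ⟨a, rfl⟩
      · exact Or.inr (Or.inl ⟨q, h, rfl⟩)
      · exact Or.inr (Or.inr ⟨a, rfl⟩)
  have ney1 : ∀ p ∈ N2, p ≠ f2 (f1 0) := fun p hp e => h2.disj (f1 0) (e ▸ hp)
  have ney2 : ∀ q ∈ N1, f2 q ≠ f2 (f1 0) := fun q hq e => h1.disj 0 (h2.finj e ▸ hq)
  have ney3 : ∀ a : Fin 6, a ≠ 0 → f2 (f1 a) ≠ f2 (f1 0) := fun a ha e => ha (h1.finj (h2.finj e))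
  -- a general criterion
  have crit : ∀ (S : Set W2) (s t : W2), HP K2 S s t → (∀ p ∈ N2, p ∈ S) → (∀ q ∈ N1, f2 q ∈ S) →
      (∀ a : Fin 6, a ≠ 0 → f2 (f1 a) ∈ S) → f2 (f1 0) ∉ S → HP K2 {w | w ≠ f2 (f1 0)} s t := by
    intro S s t hS k1 k2 k3 k4
    refine hS.congr ?_
    intro p
    constructor
    · intro hp e
      rw [e] at hp
      exact k4 hp
    · intro hp
      rcases cov2 p with h | ⟨q, hq, rfl⟩ | ⟨a, rfl⟩
      · exact k1 p h
      · exact k2 q hq
      · refine k3 a ?_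
        rintro rfl
        exact hp rfl
  have p34 : HP K2 {w | w ≠ f2 (f1 0)} (f2 (f1 3)) (f2 (f1 4)) := by
    have s1 := HP.single base6 3
    have s2 : HP base6 {w | w = 1 ∨ w = 5 ∨ w = 2} 1 2 :=
      hp_of_list [1, 5, 2] (by decide) (by decide) (by simp [a15, a52]) rfl rfl
    have t1 := h1.ham s1 s2 (by decide)
    have t2 := h2.ham t1 (HP.single K1 (f1 4)) (by
      rintro p ((⟨q, hq, rfl⟩ | hp) | ⟨q, hq, rfl⟩) hp4
      · rw [hq] at hp4
        exact e1 3 4 (by decide) hp4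
      · have h' : p = f1 4 := hp4
        rw [h'] at hp
        exact h1.disj 4 hp
      · rcases hq with h | h | h <;> rw [h] at hp4
        · exact e1 1 4 (by decide) hp4
        · exact e1 5 4 (by decide) hp4
        · exact e1 2 4 (by decide) hp4)
    refine crit _ _ _ t2 ?_ ?_ ?_ ?_
    · intro p hp; exact Or.inl (Or.inr hp)
    · intro q hq; exact Or.inl (Or.inl ⟨q, Or.inl (Or.inr hq), rfl⟩)
    · intro a ha
      rcases fin6 a with h | h | h | h | h | h
      · exact absurd h ha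
      · exact Or.inl (Or.inl ⟨f1 a, Or.inr ⟨a, Or.inl h, rfl⟩, rfl⟩)
      · exact Or.inl (Or.inl ⟨f1 a, Or.inr ⟨a, Or.inr (Or.inr h), rfl⟩, rfl⟩)
      · exact Or.inl (Or.inl ⟨f1 a, Or.inl (Or.inl ⟨a, h, rfl⟩), rfl⟩)
      · exact Or.inr ⟨f1 a, by rw [h]; rfl, rfl⟩
      · exact Or.inl (Or.inl ⟨f1 a, Or.inr ⟨a, Or.inr (Or.inl h), rfl⟩, rfl⟩)
    · rintro ((⟨q, hq, e⟩ | hp) | ⟨q, hq, e⟩)
      · have e' := h2.finj e
        subst e'
        rcases hq with (⟨a, ha, e⟩ | hp) | ⟨a, ha, e⟩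
        · have := h1.finj e
          subst this
          revert ha; decide
        · exact h1.disj 0 hp
        · have := h1.finj e
          subst this
          revert ha; decide
      · exact h2.disj _ hp
      · have e' := h2.finj e
        subst e'
        exact e1 0 4 (by decide) hq
  have p35 : HP K2 {w | w ≠ f2 (f1 0)} (f2 (f1 3)) (f2 (f1 5)) := by
    have s1 := HP.single base6 3
    have s2 : HP base6 {w | w = 1 ∨ w = 4} 1 4 :=
      hp_of_list [1, 4] (by decide) (by decide) (by simp [a14]) rfl rfl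
    have t1 := h1.ham s1 s2 (by decide)
    have s3 : HP base6 {w | w = 2 ∨ w = 5} 2 5 :=
      hp_of_list [2, 5] (by decide) (by decide) (by simp [a25]) rfl rfl
    have s3' := s3.map (H := K1) f1 (fun p q _ _ e => h1.finj e)
      (fun p q _ _ e => (h1.fadj p q).2 e)
    have t2 := h2.symm.ham t1 s3' (by
      rintro p ((⟨q, hq, rfl⟩ | hp) | ⟨q, hq, rfl⟩) ⟨r, hr, e⟩
      · have e' := h1.finj e
        rw [hq] at e'
        rw [e'] at hr
        revert hr; decide
      · rw [← e] at hp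
        exact h1.disj r hp
      · have e' := h1.finj e
        rw [e'] at hr
        rcases hr with h | h <;> rcases hq with h' | h' <;>
          exact absurd (h.symm.trans h') (by decide))
    refine crit _ _ _ t2 ?_ ?_ ?_ ?_
    · intro p hp; exact Or.inl (Or.inr (by simpa using hp))
    · intro q hq; exact Or.inl (Or.inl ⟨q, Or.inl (Or.inr hq), rfl⟩)
    · intro a ha
      rcases fin6 a with h | h | h | h | h | h
      · exact absurd h ha
      · exact Or.inl (Or.inl ⟨f1 a, Or.inr ⟨a, Or.inl h, rfl⟩, rfl⟩)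
      · exact Or.inr ⟨f1 a, ⟨a, Or.inl h, rfl⟩, rfl⟩
      · exact Or.inl (Or.inl ⟨f1 a, Or.inl (Or.inl ⟨a, h, rfl⟩), rfl⟩)
      · exact Or.inl (Or.inl ⟨f1 a, Or.inr ⟨a, Or.inr h, rfl⟩, rfl⟩)
      · exact Or.inr ⟨f1 a, ⟨a, Or.inr h, rfl⟩, rfl⟩
    · rintro ((⟨q, hq, e⟩ | hp) | ⟨q, hq, e⟩)
      · have e' := h2.finj e
        subst e'
        rcases hq with (⟨a, ha, e⟩ | hp) | ⟨a, ha, e⟩
        · have := h1.finj e
          subst this
          revert ha; decide
        · exact h1.disj 0 hp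
        · have := h1.finj e
          subst this
          revert ha; decide
      · exact h2.disj _ (by simpa using hp)
      · have e' := h2.finj e
        subst e'
        obtain ⟨a, ha, e⟩ := hq
        have := h1.finj e
        subst this
        revert ha; decide
  have p45 : HP K2 {w | w ≠ f2 (f1 0)} (f2 (f1 4)) (f2 (f1 5)) := by
    have s1 : HP base6 {w | w = 2 ∨ w = 3} 2 3 :=
      hp_of_list [2, 3] (by decide) (by decide) (by simp [a23]) rfl rfl
    have s2 : HP base6 {w | w = 1 ∨ w = 5} 1 5 :=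
      hp_of_list [1, 5] (by decide) (by decide) (by simp [a15]) rfl rfl
    have t1 := h1.ham s1 s2 (by decide)
    have t2 := h2.symm.ham (HP.single K1 (f1 4)) t1 (by
      rintro p hp4 ((⟨q, hq, rfl⟩ | hp) | ⟨q, hq, rfl⟩)
      · have e' := h1.finj hp4
        subst e'
        revert hq; decide
      · have h' : p = f1 4 := hp4
        rw [h'] at hp
        exact h1.disj 4 hp
      · have e' := h1.finj hp4
        subst e'
        revert hq; decide)
    refine crit _ _ _ t2 ?_ ?_ ?_ ?_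
    · intro p hp; exact Or.inl (Or.inr (by simpa using hp))
    · intro q hq; exact Or.inr ⟨q, Or.inl (Or.inr hq), rfl⟩
    · intro a ha
      rcases fin6 a with h | h | h | h | h | h
      · exact absurd h ha
      · exact Or.inr ⟨f1 a, Or.inr ⟨a, Or.inl h, rfl⟩, rfl⟩
      · exact Or.inr ⟨f1 a, Or.inl (Or.inl ⟨a, Or.inl h, rfl⟩), rfl⟩
      · exact Or.inr ⟨f1 a, Or.inl (Or.inl ⟨a, Or.inr h, rfl⟩), rfl⟩
      · exact Or.inl (Or.inl ⟨f1 a, by rw [h]; rfl, rfl⟩)
      · exact Or.inr ⟨f1 a, Or.inr ⟨a, Or.inr h, rfl⟩, rfl⟩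
    · rintro ((⟨q, hq, e⟩ | hp) | ⟨q, hq, e⟩)
      · have e' := h2.finj e
        subst e'
        exact e1 0 4 (by decide) hq
      · exact h2.disj _ (by simpa using hp)
      · have e' := h2.finj e
        subst e'
        rcases hq with (⟨a, ha, e⟩ | hp) | ⟨a, ha, e⟩
        · have := h1.finj e
          subst this
          revert ha; decide
        · exact h1.disj 0 hp
        · have := h1.finj e
          subst this
          revert ha; decide
  refine ⟨W2, inferInstance, K2, f2 (f1 0), f2 (f1 5), _, _, d0, d5, rfl, rfl, ?_, ?_⟩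
  · intro a b hab
    fin_cases a <;> fin_cases b
    · exact absurd rfl hab
    · exact p34
    · exact p35
    · exact p34.symm
    · exact absurd rfl hab
    · exact p45
    · exact p35.symm
    · exact p45.symm
    · exact absurd rfl hab
  · intro L hL
    rcases h2.cyc L hL with ⟨L1, k1, rfl⟩ | h
    · rcases h1.cyc L1 k1 with ⟨L0, k0, rfl⟩ | h
      · right
        obtain ⟨m1, m2, m3⟩ := base6_cyc k0
        refine ⟨?_, ?_, by simpa using m3⟩
        · exact List.mem_map.2 ⟨f1 0, List.mem_map.2 ⟨0, m1, rfl⟩, rfl⟩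
        · exact List.mem_map.2 ⟨f1 5, List.mem_map.2 ⟨5, m2, rfl⟩, rfl⟩
      · left; simpa using h
    · exact Or.inl h

theorem exists_PR (g r : ℕ) : ∃ (W : Type) (_ : Finite W) (H : SimpleGraph W) (y : W)
    (σ : Fin 3 → W), Deg3 H y σ ∧ Q1 H y σ ∧
      ∀ L, CycL H L → g ≤ L.length ∨ (y ∈ L ∧ 4 + 2 * r ≤ L.length) := by
  induction r with
  | zero =>
    obtain ⟨W, _, H, y, z, σ, τ, h1, _, _, _, h2, h3⟩ := exists_H0 g
    refine ⟨W, inferInstance, H, y, σ, h1, h2, ?_⟩
    intro L hL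
    rcases h3 L hL with h | ⟨h4, _, h5⟩
    · exact Or.inl h
    · exact Or.inr ⟨h4, by simpa using h5⟩
  | succ r ih =>
    obtain ⟨W, _, H, y, σ, dy, hq, hc⟩ := ih
    obtain ⟨W0, _, H0, y0, z0, σ0, τ0, d1, d2, e1, e2, q0, c0⟩ := exists_H0 g
    obtain ⟨K, f, g', hs⟩ := exists_star d2 dy
    have hyz : y0 ≠ z0 := by rw [← e1]; exact (d1.nex 2).symm
    have s0 : σ0 0 ≠ z0 := by
      rw [← e1]; intro e; exact absurd (d1.inj _ _ e) (by decide)
    have s1 : σ0 1 ≠ z0 := by
      rw [← e1]; intro e; exact absurd (d1.inj _ _ e) (by decide)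
    have lft : HP K {w | w ≠ f y0} (f (σ0 0)) (f (σ0 1)) :=
      (hs.lift hq (S := {w | w ≠ y0}) hyz.symm s0 s1 (q0 0 1 (by decide))).congr
        (hs.ne_set hyz)
    have stt : ∀ a, a ≠ 2 → HP K {w | w ≠ f y0} (g' (σ 0)) (f (σ0 a)) := by
      intro a ha
      have hp := q0 2 a ha.symm
      rw [e1] at hp
      have ha' : σ0 a ≠ z0 := by
        rw [← e1]; intro e; exact ha (d1.inj _ _ e)
      refine (hs.start (i := σ 0) ?_ ha' hp).congr (hs.ne_set hyz)
      intro b hb
      refine hq 0 b ?_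
      rintro rfl
      exact hb e2
    refine ⟨SV z0 y, inferInstance, K, f y0, ![f (σ0 0), f (σ0 1), g' (σ 0)], ⟨?_, ?_⟩, ?_, ?_⟩
    · intro a b hab
      have n01 : f (σ0 0) ≠ f (σ0 1) := fun e =>
        absurd (d1.inj _ _ (hs.finj _ _ s0 s1 e)) (by decide)
      have n02 : f (σ0 0) ≠ g' (σ 0) := hs.disj _ _ s0 (dy.nex 0)
      have n12 : f (σ0 1) ≠ g' (σ 0) := hs.disj _ _ s1 (dy.nex 0)
      fin_cases a <;> fin_cases b
      · rfl
      · exact absurd hab n01
      · exact absurd hab n02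
      · exact absurd hab.symm n01
      · rfl
      · exact absurd hab n12
      · exact absurd hab.symm n02
      · exact absurd hab.symm n12
      · rfl
    · intro p
      constructor
      · intro hp
        rcases hs.cov p with ⟨u, hu, rfl⟩ | ⟨i, hi, rfl⟩
        · rw [hs.fadj _ _ hyz hu, d1.adj] at hp
          obtain ⟨a, rfl⟩ := hp
          fin_cases a
          · exact ⟨0, rfl⟩
          · exact ⟨1, rfl⟩
          · exact absurd e1 hu
        · rw [hs.xadj _ _ hyz hi] at hp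
          obtain ⟨a, ha, hb⟩ := hp
          have : a = 0 := d2.inj _ _ (ha.symm.trans e2.symm)
          subst this
          exact ⟨2, by rw [hb]; rfl⟩
      · rintro ⟨a, rfl⟩
        fin_cases a
        · exact (hs.fadj _ _ hyz s0).2 (d1.adj' 0)
        · exact (hs.fadj _ _ hyz s1).2 (d1.adj' 1)
        · exact (hs.xadj _ _ hyz (dy.nex 0)).2 ⟨0, e2.symm, rfl⟩
    · intro a b hab
      fin_cases a <;> fin_cases b
      · exact absurd rfl hab
      · exact lft
      · exact (stt 0 (by decide)).symm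
      · exact lft.symm
      · exact absurd rfl hab
      · exact (stt 1 (by decide)).symm
      · exact stt 0 (by decide)
      · exact stt 1 (by decide)
      · exact absurd rfl hab
    · intro L hL
      rcases hs.cyc hL with ⟨L0, k1, k2, rfl⟩ | ⟨L0, k1, k2, rfl⟩ |
        ⟨M0, N0, k1, k2, k3, k4, k5, k6⟩
      · left
        rw [List.length_map]
        rcases c0 L0 k1 with h | ⟨_, h, _⟩
        · exact h
        · exact absurd rfl (k2 _ h)
      · left
        rw [List.length_map]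
        rcases hc L0 k1 with h | ⟨h, _⟩
        · exact h
        · exact absurd rfl (k2 _ h)
      · have m1 := k1.2.1
        have m2 := k2.2.1
        have n1 := hc _ k1
        have n2 := c0 _ k2
        simp only [List.length_cons] at m1 m2 n1 n2
        rw [k6]
        rcases n1 with n1 | ⟨_, n1⟩
        · left; omega
        · rcases n2 with n2 | ⟨n3, _, n2⟩
          · left; omega
          · right
            refine ⟨(k5 _).2 (Or.inr ?_), by omega⟩
            rcases List.mem_cons.1 n3 with e | e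
            · exact absurd e hyz
            · exact List.mem_map.2 ⟨_, e, rfl⟩

/-- A piece of girth at least `g` with Hamilton paths between any two terminals. -/
theorem exists_PP (g : ℕ) : ∃ (W : Type) (_ : Finite W) (H : SimpleGraph W) (y : W)
    (σ : Fin 3 → W), Deg3 H y σ ∧ Q1 H y σ ∧ ∀ L, CycL H L → g ≤ L.length := by
  obtain ⟨W, hW, H, y, σ, h1, h2, h3⟩ := exists_PR g g
  refine ⟨W, hW, H, y, σ, h1, h2, ?_⟩
  intro L hL
  rcases h3 L hL with h | ⟨_, h⟩
  · exact h
  · omega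

end Run7.h694.Mnh
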