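import Mathlib

/-! List based Hamilton paths and cycles. -/

namespace Run7.h694.Mnh

variable {V U : Type}

/-- A Hamilton path from `u` to `v` of the subgraph of `G` induced on `S`, as a list. -/
def HP (G : SimpleGraph V) (S : Set V) (u v : V) : Prop :=
  ∃ l : List V, l.Nodup ∧ (∀ w, w ∈ l ↔ w ∈ S) ∧ l.IsChain G.Adj ∧
    l.head? = some u ∧ l.getLast? = some v

/-- A cycle, given as the cyclic list of its vertices. -/
def CycL (G : SimpleGraph V) (L : List V) : Prop :=
  L.Nodup ∧ 3 ≤ L.length ∧ L.IsChain G.Adj ∧ ∀ a ∈ L.getLast?, ∀ b ∈ L.head?, G.Adj a b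

/-- There is a Hamilton cycle. -/
def HC (G : SimpleGraph V) : Prop := ∃ L, CycL G L ∧ ∀ v, v ∈ L

theorem HP.congr {G : SimpleGraph V} {S T : Set V} {u v : V} (h : HP G S u v)
    (e : ∀ w, w ∈ S ↔ w ∈ T) : HP G T u v := by
  obtain ⟨l, h1, h2, h3, h4, h5⟩ := h
  exact ⟨l, h1, fun w => (h2 w).trans (e w), h3, h4, h5⟩

theorem HP.mem_left {G : SimpleGraph V} {S : Set V} {u v : V} (h : HP G S u v) : u ∈ S := by
  obtain ⟨l, h1, h2, h3, h4, h5⟩ := h
  exact (h2 u).1 (List.mem_of_mem_head? h4)

theorem HP.symm {G : SimpleGraph V} {S : Set V} {u v : V} (h : HP G S u v) : HP G S v u := by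
  obtain ⟨l, h1, h2, h3, h4, h5⟩ := h
  refine ⟨l.reverse, by simpa using h1, by simpa using h2, ?_, by simpa using h5, by simpa using h4⟩
  rw [List.isChain_reverse]
  exact h3.imp fun a b h => h.symm

theorem HP.mem_right {G : SimpleGraph V} {S : Set V} {u v : V} (h : HP G S u v) : v ∈ S :=
  h.symm.mem_left

theorem head?_eq_cons {α : Type} {l : List α} {a : α} (h : l.head? = some a) :
    ∃ t, l = a :: t := by
  cases l with
  | nil => simp at h
  | cons b t => simp at h; exact ⟨t, by rw [h]⟩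

theorem getLast?_eq_append {α : Type} {l : List α} {a : α} (h : l.getLast? = some a) :
    ∃ t, l = t ++ [a] := by
  rcases List.eq_nil_or_concat l with rfl | ⟨t, b, rfl⟩
  · simp at h
  · simp at h; exact ⟨t, by rw [h]; simp⟩

theorem HP.trans {G : SimpleGraph V} {S T : Set V} {u v w : V} (h : HP G S u v) (h' : HP G T v w)
    (hd : ∀ p, p ∈ S → p ∈ T → p = v) : HP G (S ∪ T) u w := by
  obtain ⟨l, h1, h2, h3, h4, h5⟩ := h
  obtain ⟨m, k1, k2, k3, k4, k5⟩ := h'
  obtain ⟨t, rfl⟩ := head?_eq_cons k4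
  obtain ⟨l', rfl⟩ := getLast?_eq_append h5
  refine ⟨l' ++ v :: t, ?_, ?_, ?_, ?_, ?_⟩
  · rw [List.nodup_append]
    refine ⟨(List.nodup_append.1 h1).1, k1, ?_⟩
    intro a ha b hb hab
    subst hab
    have := hd a ((h2 a).1 (by simp [ha])) ((k2 a).1 hb)
    subst this
    have := (List.nodup_append.1 h1).2.2 a ha a (by simp)
    exact this rfl
  · intro p
    have e1 := h2 p
    have e2 := k2 p
    simp only [List.mem_append, List.mem_cons, List.not_mem_nil, or_false] at e1 e2 ⊢
    simp only [Set.mem_union, ← e1, ← e2]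
    tauto
  · rw [List.isChain_split]
    exact ⟨h3, k3⟩
  · cases l' with
    | nil => simpa using h4
    | cons a l' => simpa using h4
  · rw [List.getLast?_append, k5]; rfl

/-- Splitting off the first vertex. -/
theorem HP.tail {G : SimpleGraph V} {S : Set V} {u v : V} (h : HP G S u v) (huv : u ≠ v) :
    ∃ s, G.Adj u s ∧ HP G {w | w ∈ S ∧ w ≠ u} s v := by
  obtain ⟨l, h1, h2, h3, h4, h5⟩ := h
  obtain ⟨t, rfl⟩ := head?_eq_cons h4
  cases t with
  | nil => simp at h5; exact absurd h5 huv
  | cons s t =>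
    rw [List.isChain_cons_cons] at h3
    refine ⟨s, h3.1, s :: t, (List.nodup_cons.1 h1).2, ?_, h3.2, rfl, ?_⟩
    · intro w
      have := h2 w
      have hn := (List.nodup_cons.1 h1).1
      constructor
      · intro hw
        refine ⟨this.1 (List.mem_cons_of_mem _ hw), ?_⟩
        rintro rfl; exact hn hw
      · rintro ⟨hw, hwu⟩
        rcases List.mem_cons.1 (this.2 hw) with h | h
        · exact absurd h hwu
        · exact h
    · simpa using h5

/-- Splitting at an inner vertex. -/
theorem HP.split {G : SimpleGraph V} {S : Set V} {u v x : V} (h : HP G S u v) (hx : x ∈ S)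
    (hu : u ≠ x) (hv : v ≠ x) :
    ∃ (S1 S2 : Set V) (s t : V), G.Adj s x ∧ G.Adj x t ∧ HP G S1 u s ∧ HP G S2 t v ∧
      (∀ w, w ∈ S1 → w ∈ S2 → False) ∧ (∀ w, w ∈ S1 ∨ w ∈ S2 ↔ w ∈ S ∧ w ≠ x) := by
  obtain ⟨l, h1, h2, h3, h4, h5⟩ := h
  obtain ⟨p, q, rfl⟩ := List.append_of_mem ((h2 x).2 hx)
  have hp : ∃ s p', p = p' ++ [s] := by
    rcases List.eq_nil_or_concat p with rfl | ⟨t, b, rfl⟩
    · simp at h4; exact absurd h4.symm hu
    · exact ⟨b, t, by simp⟩
  obtain ⟨s, p', rfl⟩ := hp
  cases q with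
  | nil => simp at h5; exact absurd h5.symm hv
  | cons t q =>
    have hc := List.isChain_split.1 h3
    have hc1 : (p' ++ [s] ++ [x]).IsChain G.Adj := hc.1
    have hc2 := (List.isChain_cons_cons.1 hc.2)
    have hn := List.nodup_append.1 h1
    refine ⟨{w | w ∈ p' ++ [s]}, {w | w ∈ t :: q}, s, t, ?_, hc2.1, ⟨p' ++ [s], hn.1, ?_, ?_, ?_, ?_⟩,
      ⟨t :: q, (List.nodup_cons.1 hn.2.1).2, ?_, hc2.2, rfl, ?_⟩, ?_, ?_⟩
    · rw [List.append_assoc] at hc1
      have := (List.isChain_append_cons_cons.1 hc1).2.1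
      exact this
    · intro w; rfl
    · exact hc1.left_of_append
    · cases p' with
      | nil => simpa using h4
      | cons a l' => simpa using h4
    · simp
    · intro w; rfl
    · simpa using h5
    · intro w hw hw'
      exact hn.2.2 w hw w (List.mem_cons_of_mem _ hw') rfl
    · intro w
      have := h2 w
      constructor
      · intro hw
        constructor
        · rw [← this]
          rcases hw with hw | hw
          · exact List.mem_append_left _ hw
          · exact List.mem_append_right _ (List.mem_cons_of_mem _ hw)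
        · rintro rfl
          rcases hw with hw | hw
          · exact hn.2.2 w hw w (by simp) rfl
          · exact (List.nodup_cons.1 hn.2.1).1 hw
      · rintro ⟨hw, hwx⟩
        rw [← this] at hw
        rcases List.mem_append.1 hw with hw | hw
        · exact Or.inl hw
        · rcases List.mem_cons.1 hw with hw | hw
          · exact absurd hw hwx
          · exact Or.inr hw

/-- Transport along a map. -/
theorem HP.map {G : SimpleGraph V} {H : SimpleGraph U} {S : Set V} {u v : V} (h : HP G S u v)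
    (f : V → U) (hf : ∀ a b, a ∈ S → b ∈ S → f a = f b → a = b)
    (ha : ∀ a b, a ∈ S → b ∈ S → G.Adj a b → H.Adj (f a) (f b)) :
    HP H (f '' S) (f u) (f v) := by
  obtain ⟨l, h1, h2, h3, h4, h5⟩ := h
  refine ⟨l.map f, ?_, ?_, ?_, by simp [h4], by simp [h5]⟩
  · refine List.Nodup.map_on ?_ h1
    intro a ha' b hb hab
    exact hf a b ((h2 a).1 ha') ((h2 b).1 hb) hab
  · intro w
    simp only [List.mem_map, Set.mem_image, h2]
  · rw [List.isChain_map]
    refine List.IsChain.imp_of_mem_imp ?_ h3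
    intro a b ha' hb hab
    exact ha a b ((h2 a).1 ha') ((h2 b).1 hb) hab

/-- Pulling back along a map. -/
theorem HP.pull {G : SimpleGraph V} {H : SimpleGraph U} {S : Set U} {T : Set V} {u v : V} (f : V → U)
    (hf : ∀ a b, a ∈ T → b ∈ T → f a = f b → a = b)
    (ha : ∀ a b, a ∈ T → b ∈ T → H.Adj (f a) (f b) → G.Adj a b)
    (hS : ∀ p, p ∈ S ↔ ∃ a, a ∈ T ∧ f a = p) (hu : u ∈ T) (hv : v ∈ T)
    (h : HP H S (f u) (f v)) : HP G T u v := by
  classical
  obtain ⟨l, h1, h2, h3, h4, h5⟩ := h
  have hl : ∀ p ∈ l, ∃ a, a ∈ T ∧ f a = p := fun p hp => (hS p).1 ((h2 p).1 hp)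
  obtain ⟨r, hr⟩ : ∃ r : U → V, ∀ p ∈ l, r p ∈ T ∧ f (r p) = p := by
    refine ⟨fun p => if h : ∃ a, a ∈ T ∧ f a = p then h.choose else u, ?_⟩
    intro p hp
    have := hl p hp
    simp only [this, dif_pos]
    exact this.choose_spec
  have hrf : ∀ a, a ∈ T → f a ∈ l → r (f a) = a := by
    intro a ha' hl'
    have := hr _ hl'
    exact hf _ _ this.1 ha' this.2
  have hul : f u ∈ l := List.mem_of_mem_head? h4
  have hvl : f v ∈ l := List.mem_of_mem_getLast? h5
  refine ⟨l.map r, ?_, ?_, ?_, by simp [h4, hrf u hu hul], by simp [h5, hrf v hv hvl]⟩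
  · refine List.Nodup.map_on ?_ h1
    intro a ha' b hb hab
    rw [← (hr a ha').2, ← (hr b hb).2, hab]
  · intro w
    constructor
    · intro hw
      obtain ⟨p, hp, rfl⟩ := List.mem_map.1 hw
      exact (hr p hp).1
    · intro hw
      have : f w ∈ l := (h2 _).2 ((hS _).2 ⟨w, hw, rfl⟩)
      exact List.mem_map.2 ⟨f w, this, hrf w hw this⟩
  · rw [List.isChain_map]
    refine List.IsChain.imp_of_mem_imp ?_ h3
    intro a b ha' hb hab
    refine ha _ _ (hr a ha').1 (hr b hb).1 ?_
    rw [(hr a ha').2, (hr b hb).2]; exact hab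

/-- Closing a Hamilton path of the complement of a vertex. -/
theorem HP.close {G : SimpleGraph V} {x s t : V} (h : HP G {w | w ≠ x} s t) (hst : s ≠ t)
    (hs : G.Adj x s) (ht : G.Adj t x) : HC G := by
  obtain ⟨l, h1, h2, h3, h4, h5⟩ := h
  refine ⟨x :: l, ⟨?_, ?_, ?_, ?_⟩, ?_⟩
  · rw [List.nodup_cons]
    exact ⟨fun h => (h2 x).1 h rfl, h1⟩
  · obtain ⟨l', rfl⟩ := head?_eq_cons h4
    cases l' with
    | nil => simp at h5; exact absurd h5 hst
    | cons a l' => simp
  · rw [List.isChain_cons]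
    refine ⟨?_, h3⟩
    intro y hy
    rw [h4] at hy
    simp at hy
    rw [← hy]; exact hs
  · intro a ha b hb
    simp at hb
    subst hb
    have : (x :: l).getLast? = l.getLast? := by
      obtain ⟨l', rfl⟩ := head?_eq_cons h4
      simp
    rw [this, h5] at ha
    simp at ha
    rw [← ha]; exact ht
  · intro v
    by_cases hv : v = x
    · simp [hv]
    · exact List.mem_cons_of_mem _ ((h2 v).2 hv)

theorem CycL.rot {G : SimpleGraph V} {L1 L2 : List V} (h : CycL G (L1 ++ L2)) :
    CycL G (L2 ++ L1) := by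
  obtain ⟨h1, h2, h3, h4⟩ := h
  refine ⟨?_, ?_, ?_, ?_⟩
  · exact (List.perm_append_comm.nodup_iff).1 h1
  · simp only [List.length_append] at h2 ⊢; omega
  · rw [List.isChain_append] at h3 ⊢
    refine ⟨h3.2.1, h3.1, ?_⟩
    intro a ha b hb
    refine h4 a ?_ b ?_
    · rw [List.getLast?_append]
      simp only [Option.mem_def] at ha
      rw [ha]; rfl
    · rw [List.head?_append]
      simp only [Option.mem_def] at hb
      rw [hb]; rfl
  · intro a ha b hb
    rw [List.isChain_append] at h3
    rcases List.eq_nil_or_concat L1 with rfl | ⟨L1', c, rfl⟩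
    · simp only [List.append_nil, List.nil_append] at ha hb h4
      exact h4 a ha b hb
    · cases L2 with
      | nil =>
        simp only [List.append_nil, List.nil_append] at ha hb h4
        exact h4 a ha b hb
      | cons d L2 =>
        refine h3.2.2 a ?_ b ?_
        · have : (d :: L2 ++ (L1' ++ [c])).getLast? = some c := by
            rw [List.getLast?_append]; simp
          simp only [List.concat_eq_append] at ha
          rw [this] at ha
          simpa using ha
        · simpa using hb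

/-- Cutting a cycle at two places. -/
theorem CycL.cut {G : SimpleGraph V} {L : List V} (h : CycL G L) {s t : V}
    (hs : L.head? = some s) (ht : L.getLast? = some t) : HP G {w | w ∈ L} s t :=
  ⟨L, h.1, fun _ => Iff.rfl, h.2.2.1, hs, ht⟩

end Run7.h694.Mnh
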