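import Pool.Agent.Run7.h694.PBase
import Pool.Agent.Run7.h694.Heap2

/-! A skeleton on 14 vertices, and the composite pieces. -/

namespace Run7.h694.Mnh

/-- Adjacency lists of the skeleton. -/
def nb14 : List (List ℕ) :=
  [[4, 13, 9], [3, 12, 11], [4, 10, 12], [1, 5, 8], [5, 2, 0], [4, 3, 11], [11, 7, 10],
   [9, 6, 8], [9, 3, 7], [8, 7, 0], [2, 6, 13], [6, 1, 5], [13, 1, 2], [12, 0, 10]]

/-- Adjacency in the skeleton. -/
def adj14 (i j : ℕ) : Bool := (nb14.getD i []).contains j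

/-- The skeleton. -/
def skel : SimpleGraph (Fin 14) where
  Adj i j := adj14 i j = true
  symm := ⟨by
    have : ∀ i j : Fin 14, adj14 i j = true → adj14 j i = true := by decide +kernel
    exact this⟩
  loopless := ⟨by
    have : ∀ i : Fin 14, ¬ adj14 i i = true := by decide +kernel
    exact this⟩

theorem skel_v : Deg3 skel 5 ![4, 3, 11] := by
  refine ⟨by decide, ?_⟩
  have : ∀ v : Fin 14, adj14 (5 : Fin 14) v = true ↔
    ∃ a : Fin 3, v = (![4, 3, 11] : Fin 3 → Fin 14) a := by decide +kernel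
  exact this

theorem skel_t : Deg3 skel 13 ![12, 0, 10] := by
  refine ⟨by decide, ?_⟩
  have : ∀ v : Fin 14, adj14 (13 : Fin 14) v = true ↔
    ∃ a : Fin 3, v = (![12, 0, 10] : Fin 3 → Fin 14) a := by decide +kernel
  exact this

/-- The set of inflated vertices. -/
def skF : Finset (Fin 14) := {1, 2, 6, 8}

theorem skel_F : ∀ x ∈ skF, ∃ τ, Deg3 skel x τ := by
  intro x hx
  have hx' : x = 1 ∨ x = 2 ∨ x = 6 ∨ x = 8 := by
    simpa [skF] using hx
  rcases hx' with rfl | rfl | rfl | rfl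
  · refine ⟨![3, 12, 11], by decide, ?_⟩
    have : ∀ v : Fin 14, adj14 (1 : Fin 14) v = true ↔
      ∃ a : Fin 3, v = (![3, 12, 11] : Fin 3 → Fin 14) a := by decide +kernel
    exact this
  · refine ⟨![4, 10, 12], by decide, ?_⟩
    have : ∀ v : Fin 14, adj14 (2 : Fin 14) v = true ↔
      ∃ a : Fin 3, v = (![4, 10, 12] : Fin 3 → Fin 14) a := by decide +kernel
    exact this
  · refine ⟨![11, 7, 10], by decide, ?_⟩
    have : ∀ v : Fin 14, adj14 (6 : Fin 14) v = true ↔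
      ∃ a : Fin 3, v = (![11, 7, 10] : Fin 3 → Fin 14) a := by decide +kernel
    exact this
  · refine ⟨![9, 3, 7], by decide, ?_⟩
    have : ∀ v : Fin 14, adj14 (8 : Fin 14) v = true ↔
      ∃ a : Fin 3, v = (![9, 3, 7] : Fin 3 → Fin 14) a := by decide +kernel
    exact this

theorem skel_ind : ∀ x ∈ skF, ∀ z ∈ skF, ¬ skel.Adj x z := by
  have : ∀ x ∈ skF, ∀ z ∈ skF, ¬ adj14 x z = true := by decide +kernel
  exact this

theorem skel_t_F : ∀ x ∈ skF, ¬ skel.Adj x 13 := by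
  have : ∀ x ∈ skF, ¬ adj14 x (13 : Fin 14) = true := by decide +kernel
  exact this

/-- Ranks in the skeleton without the inflated vertices. -/
def rk14 : Fin 14 → ℕ := ![2, 9, 9, 1, 1, 0, 9, 4, 9, 3, 4, 1, 4, 3]

theorem skel_cyc {L : List (Fin 14)} (hL : CycL skel L) : ∃ x ∈ skF, x ∈ L := by
  obtain ⟨w, hw, hw'⟩ := forest_of_rank (fun v => v ∈ skF) rk14
    (by
      have : ∀ u v : Fin 14, ¬ u ∈ skF → ¬ v ∈ skF → adj14 u v = true → rk14 u ≠ rk14 v := by
        decide +kernel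
      exact this)
    (by
      have : ∀ u v w : Fin 14, ¬ u ∈ skF → ¬ v ∈ skF → ¬ w ∈ skF → adj14 u v = true →
        adj14 u w = true → rk14 v < rk14 u → rk14 w < rk14 u → v = w := by
        decide +kernel
      exact this) hL
  exact ⟨w, hw', hw⟩

/-- Boolean check that a list is a path with prescribed vertex set. -/
theorem hp14 (l : List (Fin 14)) (S : Set (Fin 14)) (u v : Fin 14) (h1 : l.Nodup)
    (h2 : ∀ w, w ∈ l ↔ w ∈ S) (h3 : l.IsChain (fun i j : Fin 14 => adj14 i j = true))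
    (h4 : l.head? = some u) (h5 : l.getLast? = some v) : HP skel S u v :=
  ⟨l, h1, h2, h3, h4, h5⟩

theorem skel_q1 : Q1 skel 5 ![4, 3, 11] := by
  have p01 : HP skel {w | w ≠ 5} 4 3 := by
    refine hp14 [4, 2, 10, 6, 11, 1, 12, 13, 0, 9, 7, 8, 3] _ _ _ (by decide) ?_ ?_ rfl rfl
    · have : ∀ w : Fin 14, w ∈ [(4 : Fin 14), 2, 10, 6, 11, 1, 12, 13, 0, 9, 7, 8, 3] ↔ w ≠ 5 := by
        decide
      exact this
    · simp only [List.isChain_cons_cons, List.isChain_singleton, and_true]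
      decide +kernel
  have p02 : HP skel {w | w ≠ 5} 4 11 := by
    refine hp14 [4, 2, 12, 1, 3, 8, 7, 9, 0, 13, 10, 6, 11] _ _ _ (by decide) ?_ ?_ rfl rfl
    · have : ∀ w : Fin 14, w ∈ [(4 : Fin 14), 2, 12, 1, 3, 8, 7, 9, 0, 13, 10, 6, 11] ↔ w ≠ 5 := by
        decide
      exact this
    · simp only [List.isChain_cons_cons, List.isChain_singleton, and_true]
      decide +kernel
  have p12 : HP skel {w | w ≠ 5} 3 11 := by
    refine hp14 [3, 1, 12, 13, 10, 2, 4, 0, 9, 8, 7, 6, 11] _ _ _ (by decide) ?_ ?_ rfl rfl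
    · have : ∀ w : Fin 14, w ∈ [(3 : Fin 14), 1, 12, 13, 10, 2, 4, 0, 9, 8, 7, 6, 11] ↔ w ≠ 5 := by
        decide
      exact this
    · simp only [List.isChain_cons_cons, List.isChain_singleton, and_true]
      decide +kernel
  intro a b hab
  fin_cases a <;> fin_cases b
  · exact absurd rfl hab
  · exact p01
  · exact p02
  · exact p01.symm
  · exact absurd rfl hab
  · exact p12
  · exact p02.symm
  · exact p12.symm
  · exact absurd rfl hab

theorem skel_q2 : ∀ a : Fin 3, HP skel {w | w ∈ {w : Fin 14 | w ≠ 5} ∧ w ≠ 13} 12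
    ((![4, 3, 11] : Fin 3 → Fin 14) a) := by
  intro a
  fin_cases a
  · refine HP.symm (hp14 [4, 0, 9, 7, 8, 3, 1, 11, 6, 10, 2, 12] _ _ _ (by decide) ?_ ?_ rfl rfl)
    · have : ∀ w : Fin 14, w ∈ [(4 : Fin 14), 0, 9, 7, 8, 3, 1, 11, 6, 10, 2, 12] ↔
        (w ≠ 5 ∧ w ≠ 13) := by decide
      exact this
    · simp only [List.isChain_cons_cons, List.isChain_singleton, and_true]
      decide +kernel
  · refine HP.symm (hp14 [3, 8, 7, 9, 0, 4, 2, 10, 6, 11, 1, 12] _ _ _ (by decide) ?_ ?_ rfl rfl)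
    · have : ∀ w : Fin 14, w ∈ [(3 : Fin 14), 8, 7, 9, 0, 4, 2, 10, 6, 11, 1, 12] ↔
        (w ≠ 5 ∧ w ≠ 13) := by decide
      exact this
    · simp only [List.isChain_cons_cons, List.isChain_singleton, and_true]
      decide +kernel
  · refine HP.symm (hp14 [11, 6, 10, 2, 4, 0, 9, 7, 8, 3, 1, 12] _ _ _ (by decide) ?_ ?_ rfl rfl)
    · have : ∀ w : Fin 14, w ∈ [(11 : Fin 14), 6, 10, 2, 4, 0, 9, 7, 8, 3, 1, 12] ↔
        (w ≠ 5 ∧ w ≠ 13) := by decide
      exact this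
    · simp only [List.isChain_cons_cons, List.isChain_singleton, and_true]
      decide +kernel

/-- The state while the vertices of `X` are replaced. -/
structure SK {V : Type} (g : ℕ) (G : SimpleGraph V) (X : Finset V) (y : V) (σ : Fin 3 → V)
    (Γ : Finset V) : Prop where
  dy : Deg3 G y σ
  yX : y ∉ X
  σX : ∀ a, σ a ∉ X
  ΓX : ∀ p ∈ Γ, p ∉ X
  Γy : ∀ p ∈ Γ, p ≠ y
  rt : ∀ x ∈ X, ∃ τ, Deg3 G x τ
  ind : ∀ x ∈ X, ∀ z ∈ X, ¬ G.Adj x z
  q1 : Q1 G y σ
  q2 : ∀ p ∈ Γ, ∀ a, HP G {w | w ≠ y} p (σ a)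
  cyc : ∀ L, CycL G L → g ≤ L.length ∨ ∃ x ∈ X, x ∈ L
  cg : ∃ L, CycL G L ∧ L.length = g ∧ y ∉ L ∧ ∀ x ∈ X, x ∉ L

open Classical in
/-- Images of finite sets. -/
noncomputable def imF {V U : Type} (f : V → U) (A : Finset V) : Finset U := A.image f

theorem mem_imF {V U : Type} {f : V → U} {A : Finset V} {p : U} :
    p ∈ imF f A ↔ ∃ v ∈ A, f v = p := by
  classical
  simp [imF]

theorem card_imF {V U : Type} {f : V → U} {A : Finset V}
    (h : ∀ a ∈ A, ∀ b ∈ A, f a = f b → a = b) : (imF f A).card = A.card := by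
  classical
  refine Finset.card_image_of_injOn ?_
  intro a ha b hb e
  exact h a (Finset.mem_coe.1 ha) b (Finset.mem_coe.1 hb) e

/-- Cycles are transported along the side maps. -/
theorem Star.cyc_map {V W U : Type} {G : SimpleGraph V} {x : V} {τ : Fin 3 → V}
    {H : SimpleGraph W} {y : W} {σ : Fin 3 → W} {K : SimpleGraph U} {f : V → U} {g : W → U}
    (h : Star G x τ H y σ K f g) {L : List V} (hL : CycL G L) (hx : x ∉ L) :
    CycL K (L.map f) := by
  have hne : ∀ u ∈ L, u ≠ x := fun u hu e => hx (e ▸ hu)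
  refine ⟨List.Nodup.map_on (fun a ha b hb e => h.finj a b (hne a ha) (hne b hb) e) hL.1,
    by simpa using hL.2.1, ?_, ?_⟩
  · rw [List.isChain_map]
    exact hL.2.2.1.imp_of_mem_imp
      (fun a b ha hb hab => (h.fadj a b (hne a ha) (hne b hb)).2 hab)
  · intro a ha b hb
    rw [List.getLast?_map] at ha
    rw [List.head?_map] at hb
    simp only [Option.mem_def, Option.map_eq_some_iff] at ha hb
    obtain ⟨a', ha', rfl⟩ := ha
    obtain ⟨b', hb', rfl⟩ := hb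
    exact (h.fadj _ _ (hne _ (List.mem_of_mem_getLast? ha')) (hne _ (List.mem_of_mem_head? hb'))).2
      (hL.2.2.2 _ ha' _ hb')

section

variable {W : Type} [Finite W] {H : SimpleGraph W} {y' : W} {σ' : Fin 3 → W}

theorem SK.step {V : Type} [Finite V] {g : ℕ} {G : SimpleGraph V} {X : Finset V} {y : V}
    {σ : Fin 3 → V} {Γ : Finset V} (h : SK g G X y σ Γ) (dH : Deg3 H y' σ') (qH : Q1 H y' σ')
    (cH : ∀ L, CycL H L → g ≤ L.length) {x : V} (hx : x ∈ X) :
    ∃ (U : Type) (_ : Finite U) (K : SimpleGraph U) (X' : Finset U) (y1 : U) (σ1 : Fin 3 → U)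
      (Γ' : Finset U), SK g K X' y1 σ1 Γ' ∧ X'.card + 1 = X.card ∧ Γ'.card = Γ.card ∧
      Nat.card U + 2 = Nat.card V + Nat.card W := by
  classical
  obtain ⟨τ, dx⟩ := h.rt x hx
  obtain ⟨K, f, g', hs⟩ := exists_star dx dH
  have hyx : y ≠ x := fun e => h.yX (e ▸ hx)
  have hσx : ∀ a, σ a ≠ x := fun a e => h.σX a (e ▸ hx)
  have hΓx : ∀ p ∈ Γ, p ≠ x := fun p hp e => h.ΓX p hp (e ▸ hx)
  have hyna : ¬ G.Adj y x := by
    intro ha
    obtain ⟨a, ha⟩ := (h.dy.adj x).1 ha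
    exact hσx a ha.symm
  refine ⟨SV x y', inferInstance, K, imF f (X.erase x), f y, fun a => f (σ a), imF f Γ, ?_, ?_, ?_,
    card_SV⟩
  · refine ⟨hs.deg h.dy hyx hyna, ?_, ?_, ?_, ?_, ?_, ?_, ?_, ?_, ?_, ?_⟩
    · intro hp
      obtain ⟨v, hv, e⟩ := mem_imF.1 hp
      rw [Finset.mem_erase] at hv
      exact h.yX (hs.finj _ _ hv.1 hyx e ▸ hv.2)
    · intro a hp
      obtain ⟨v, hv, e⟩ := mem_imF.1 hp
      rw [Finset.mem_erase] at hv
      exact h.σX a (hs.finj _ _ hv.1 (hσx a) e ▸ hv.2)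
    · intro p hp hp'
      obtain ⟨u, hu, rfl⟩ := mem_imF.1 hp
      obtain ⟨v, hv, e⟩ := mem_imF.1 hp'
      rw [Finset.mem_erase] at hv
      exact h.ΓX u hu (hs.finj _ _ hv.1 (hΓx u hu) e ▸ hv.2)
    · intro p hp e
      obtain ⟨u, hu, rfl⟩ := mem_imF.1 hp
      exact h.Γy u hu (hs.finj _ _ (hΓx u hu) hyx e)
    · intro p hp
      obtain ⟨v, hv, rfl⟩ := mem_imF.1 hp
      rw [Finset.mem_erase] at hv
      obtain ⟨τ1, h1⟩ := h.rt v hv.2
      exact ⟨_, hs.deg h1 hv.1 (h.ind v hv.2 x hx)⟩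
    · intro p hp q hq
      obtain ⟨v, hv, rfl⟩ := mem_imF.1 hp
      obtain ⟨w, hw, rfl⟩ := mem_imF.1 hq
      rw [Finset.mem_erase] at hv hw
      rw [hs.fadj _ _ hv.1 hw.1]
      exact h.ind v hv.2 w hw.2
    · intro a b hab
      exact (hs.lift qH (S := {w | w ≠ y}) hyx.symm (hσx a) (hσx b) (h.q1 a b hab)).congr
        (hs.ne_set hyx)
    · intro p hp a
      obtain ⟨u, hu, rfl⟩ := mem_imF.1 hp
      exact (hs.lift qH (S := {w | w ≠ y}) hyx.symm (hΓx u hu) (hσx a) (h.q2 u hu a)).congr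
        (hs.ne_set hyx)
    · intro L hL
      rcases hs.cyc hL with ⟨L0, k1, k2, rfl⟩ | ⟨L0, k1, k2, rfl⟩ |
        ⟨M0, N0, k1, k2, k3, k4, k5, k6⟩
      · rw [List.length_map]
        rcases h.cyc L0 k1 with h' | ⟨z, hz, hz'⟩
        · exact Or.inl h'
        · right
          exact ⟨f z, mem_imF.2 ⟨z, Finset.mem_erase.2 ⟨k2 z hz', hz⟩, rfl⟩,
            List.mem_map.2 ⟨z, hz', rfl⟩⟩
      · left
        rw [List.length_map]
        exact cH L0 k1
      · left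
        have m1 := cH _ k1
        have m2 := k2.2.1
        simp only [List.length_cons] at m1 m2
        omega
    · obtain ⟨L, k1, k2, k3, k4⟩ := h.cg
      have hxL : x ∉ L := k4 x hx
      refine ⟨L.map f, hs.cyc_map k1 hxL, by simpa using k2, ?_, ?_⟩
      · intro hm
        obtain ⟨u, hu, e⟩ := List.mem_map.1 hm
        have hux : u ≠ x := fun e' => hxL (e' ▸ hu)
        exact k3 (hs.finj _ _ hux hyx e ▸ hu)
      · intro p hp hm
        obtain ⟨v, hv, rfl⟩ := mem_imF.1 hp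
        rw [Finset.mem_erase] at hv
        obtain ⟨u, hu, e⟩ := List.mem_map.1 hm
        have hux : u ≠ x := fun e' => hxL (e' ▸ hu)
        exact k4 v hv.2 (hs.finj _ _ hux hv.1 e ▸ hu)
  · rw [card_imF, Finset.card_erase_of_mem hx]
    · have : 0 < X.card := Finset.card_pos.2 ⟨x, hx⟩
      omega
    · intro a ha b hb e
      rw [Finset.mem_erase] at ha hb
      exact hs.finj _ _ ha.1 hb.1 e
  · rw [card_imF]
    intro a ha b hb e
    exact hs.finj _ _ (hΓx a ha) (hΓx b hb) e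

theorem SK.all {g : ℕ} (dH : Deg3 H y' σ') (qH : Q1 H y' σ')
    (cH : ∀ L, CycL H L → g ≤ L.length) (k : ℕ) :
    ∀ (V : Type) (_ : Finite V) (G : SimpleGraph V) (X : Finset V) (y : V) (σ : Fin 3 → V)
      (Γ : Finset V), SK g G X y σ Γ → X.card = k →
    ∃ (U : Type) (_ : Finite U) (K : SimpleGraph U) (y1 : U) (σ1 : Fin 3 → U)
      (Γ' : Finset U), SK g K ∅ y1 σ1 Γ' ∧ Γ'.card = Γ.card ∧
      Nat.card U + 2 * k = Nat.card V + k * Nat.card W := by
  induction k with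
  | zero =>
    intro V _ G X y σ Γ h hX
    rw [Finset.card_eq_zero] at hX
    subst hX
    exact ⟨V, inferInstance, G, y, σ, Γ, h, rfl, by simp⟩
  | succ k ih =>
    intro V _ G X y σ Γ h hX
    have : 0 < X.card := by omega
    obtain ⟨x, hx⟩ := Finset.card_pos.1 this
    obtain ⟨U, _, K, X', y1, σ1, Γ', h1, h2, h3, h4⟩ := h.step dH qH cH hx
    obtain ⟨U2, i2, K2, y2, σ2, Γ2, k1, k2, k3⟩ := ih U inferInstance K X' y1 σ1 Γ' h1 (by omega)
    refine ⟨U2, i2, K2, y2, σ2, Γ2, k1, by omega, ?_⟩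
    have e1 : (k + 1) * Nat.card W = k * Nat.card W + Nat.card W := by ring
    rw [e1]
    omega

end

/-- The composite pieces: girth `g`, Hamilton paths between the terminals, and from all but a
bounded number of vertices to every terminal. -/
theorem exists_QQ (g : ℕ) (hg : 3 ≤ g) : ∃ c1 : ℕ, ∀ m : ℕ, ∃ (W : Type) (_ : Finite W)
    (H : SimpleGraph W) (y : W) (σ : Fin 3 → W) (Γ : Finset W), Deg3 H y σ ∧ Q1 H y σ ∧
      (∀ p ∈ Γ, p ≠ y ∧ ∀ a, HP H {w | w ≠ y} p (σ a)) ∧ m ≤ Γ.card ∧ Nat.card W = c1 + m ∧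
      (∀ L, CycL H L → g ≤ L.length) ∧
      (∃ L, CycL H L ∧ y ∉ L ∧ L.length = g) := by
  classical
  obtain ⟨WP, _, HP', yP, σP, dP, qP, cP⟩ := exists_PP g
  obtain ⟨c0, hQS⟩ := exists_QS g hg
  refine ⟨c0 + 4 * Nat.card WP + 4, ?_⟩
  intro m
  obtain ⟨WS, _, HS', yS, σS, ΓS, dS, qS, q2S, mS, cS, cycS, L, hL, hLy, hLg⟩ := hQS m
  obtain ⟨K, f, g', hs⟩ := exists_star skel_t dS
  have h5 : (5 : Fin 14) ≠ 13 := by decide
  have hσ : ∀ a, (![4, 3, 11] : Fin 3 → Fin 14) a ≠ 13 := by decide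
  have hF : ∀ x ∈ skF, x ≠ 13 := by decide
  have hcard : Nat.card (SV (13 : Fin 14) yS) + 2 = 14 + Nat.card WS := by
    have := card_SV (x := (13 : Fin 14)) (y := yS)
    rw [Nat.card_fin] at this
    exact this
  have hSK : SK g K (imF f skF) (f 5) (fun a => f ((![4, 3, 11] : Fin 3 → Fin 14) a))
      (imF g' ΓS) := by
    have hΓne : ∀ p ∈ ΓS, p ≠ yS := fun p hp => (q2S p hp).1
    refine ⟨hs.deg skel_v h5 ?_, ?_, ?_, ?_, ?_, ?_, ?_, ?_, ?_, ?_, ?_⟩
    · show ¬ adj14 (5 : Fin 14) (13 : Fin 14) = true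
      decide +kernel
    · intro hp
      obtain ⟨v, hv, e⟩ := mem_imF.1 hp
      have := hs.finj _ _ (hF v hv) h5 e
      rw [this] at hv
      revert hv; decide
    · intro a hp
      obtain ⟨v, hv, e⟩ := mem_imF.1 hp
      have h1 := hs.finj _ _ (hF v hv) (hσ a) e
      rw [h1] at hv
      have h2 : ∀ a : Fin 3, (![4, 3, 11] : Fin 3 → Fin 14) a ∉ skF := by decide
      exact h2 a hv
    · intro p hp hp'
      obtain ⟨u, hu, rfl⟩ := mem_imF.1 hp
      obtain ⟨v, hv, e⟩ := mem_imF.1 hp'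
      exact hs.disj _ _ (hF v hv) (hΓne u hu) e
    · intro p hp e
      obtain ⟨u, hu, rfl⟩ := mem_imF.1 hp
      exact hs.disj _ _ h5 (hΓne u hu) e.symm
    · intro p hp
      obtain ⟨v, hv, rfl⟩ := mem_imF.1 hp
      obtain ⟨τ1, h1⟩ := skel_F v hv
      exact ⟨_, hs.deg h1 (hF v hv) (skel_t_F v hv)⟩
    · intro p hp q hq
      obtain ⟨v, hv, rfl⟩ := mem_imF.1 hp
      obtain ⟨w, hw, rfl⟩ := mem_imF.1 hq
      rw [hs.fadj _ _ (hF v hv) (hF w hw)]
      exact skel_ind v hv w hw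
    · intro a b hab
      exact (hs.lift qS (S := {w | w ≠ 5}) h5.symm (hσ a) (hσ b) (skel_q1 a b hab)).congr
        (hs.ne_set h5)
    · intro p hp a
      obtain ⟨u, hu, rfl⟩ := mem_imF.1 hp
      exact (hs.start' (S := {w | w ≠ 5}) (a := 0) (q2S u hu).2 (skel_q2 a)).congr
        (hs.ne_set h5)
    · intro L' hL'
      rcases hs.cyc hL' with ⟨L0, k1, k2, rfl⟩ | ⟨L0, k1, k2, rfl⟩ |
        ⟨M0, N0, k1, k2, k3, k4, k5, k6⟩
      · obtain ⟨z, hz, hz'⟩ := skel_cyc k1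
        exact Or.inr ⟨f z, mem_imF.2 ⟨z, hz, rfl⟩, List.mem_map.2 ⟨z, hz', rfl⟩⟩
      · left
        rw [List.length_map]
        exact cycS L0 k1 (fun h => k2 _ h rfl)
      · obtain ⟨z, hz, hz'⟩ := skel_cyc k2
        rcases List.mem_cons.1 hz' with e | e
        · exact absurd e (hF z hz)
        · exact Or.inr ⟨f z, mem_imF.2 ⟨z, hz, rfl⟩,
            (k5 _).2 (Or.inr (List.mem_map.2 ⟨z, e, rfl⟩))⟩
    · have hne : ∀ u ∈ L, u ≠ yS := fun u hu e => hLy (e ▸ hu)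
      refine ⟨L.map g', hs.symm.cyc_map hL hLy, by simpa using hLg, ?_, ?_⟩
      · intro hm
        obtain ⟨u, hu, e⟩ := List.mem_map.1 hm
        exact hs.disj _ _ h5 (hne u hu) e.symm
      · intro p hp hm
        obtain ⟨v, hv, rfl⟩ := mem_imF.1 hp
        obtain ⟨u, hu, e⟩ := List.mem_map.1 hm
        exact hs.disj _ _ (hF v hv) (hne u hu) e.symm
  have hFc : (imF f skF).card = 4 := by
    rw [card_imF]
    · rfl
    · intro a ha b hb e
      exact hs.finj _ _ (hF a ha) (hF b hb) e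
  have hΓc : (imF g' ΓS).card = ΓS.card := by
    rw [card_imF]
    intro a ha b hb e
    exact hs.ginj _ _ (q2S a ha).1 (q2S b hb).1 e
  obtain ⟨U, _, K2, y2, σ2, Γ2, k1, k2, k3⟩ := SK.all dP qP cP 4 _ inferInstance _ _ _ _ _ hSK hFc
  refine ⟨U, inferInstance, K2, y2, σ2, Γ2, k1.dy, k1.q1, fun p hp => ⟨k1.Γy p hp, k1.q2 p hp⟩,
    by omega, by omega, ?_, ?_⟩
  · intro L' hL'
    rcases k1.cyc L' hL' with h | ⟨x, hx, _⟩
    · exact h
    · exact absurd hx (Finset.notMem_empty x)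
  · obtain ⟨L', m1, m2, m3, _⟩ := k1.cg
    exact ⟨L', m1, m3, m2⟩

end Run7.h694.Mnh
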