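import Pool.Agent.Run7.h694.GlueGirth

/-! Joining two graphs along three edges after deleting a vertex of degree three of each. -/

namespace Run7.h694.Mnh

variable {V W U : Type}

/-- `x` has exactly the three neighbours `τ 0, τ 1, τ 2`. -/
structure Deg3 (G : SimpleGraph V) (x : V) (τ : Fin 3 → V) : Prop where
  inj : ∀ a b, τ a = τ b → a = b
  adj : ∀ v, G.Adj x v ↔ ∃ a, v = τ a

theorem Deg3.adj' {G : SimpleGraph V} {x : V} {τ : Fin 3 → V} (h : Deg3 G x τ) (a : Fin 3) :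
    G.Adj x (τ a) := (h.adj _).2 ⟨a, rfl⟩

theorem Deg3.nex {G : SimpleGraph V} {x : V} {τ : Fin 3 → V} (h : Deg3 G x τ) (a : Fin 3) :
    τ a ≠ x := (h.adj' a).ne'

/-- Hamilton paths of the complement of `y` between the neighbours of `y`. -/
def Q1 (H : SimpleGraph W) (y : W) (σ : Fin 3 → W) : Prop :=
  ∀ a b, a ≠ b → HP H {w | w ≠ y} (σ a) (σ b)

/-- Appending two disjoint Hamilton paths along an edge. -/
theorem HP.append {G : SimpleGraph V} {S T : Set V} {u v w z : V} (h : HP G S u v)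
    (h' : HP G T w z) (hd : ∀ p, p ∈ S → p ∈ T → False) (ha : G.Adj v w) :
    HP G (S ∪ T) u z := by
  obtain ⟨l, h1, h2, h3, h4, h5⟩ := h
  obtain ⟨m, k1, k2, k3, k4, k5⟩ := h'
  refine ⟨l ++ m, ?_, ?_, ?_, ?_, ?_⟩
  · rw [List.nodup_append]
    refine ⟨h1, k1, ?_⟩
    intro a ha b hb hab
    subst hab
    exact hd a ((h2 a).1 ha) ((k2 a).1 hb)
  · intro p
    rw [List.mem_append, h2, k2]; rfl
  · rw [List.isChain_append]
    refine ⟨h3, k3, ?_⟩
    intro a ha' b hb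
    rw [h5] at ha'
    rw [k4] at hb
    simp at ha' hb
    rw [← ha', ← hb]; exact ha
  · rw [List.head?_append, h4]; rfl
  · rw [List.getLast?_append, k5]; rfl

theorem nodup_head_last {α : Type} {l : List α} {a : α} (hn : l.Nodup) (h1 : l.head? = some a)
    (h2 : l.getLast? = some a) : l = [a] := by
  obtain ⟨t, rfl⟩ := head?_eq_cons h1
  rcases List.eq_nil_or_concat t with h | ⟨q, b, h⟩
  · rw [h]
  · have h' : t = q ++ [b] := by simpa using h
    rw [h'] at h2 hn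
    have e : (a :: (q ++ [b])).getLast? = some b := by
      have : a :: (q ++ [b]) = (a :: q) ++ [b] := by simp
      rw [this, List.getLast?_append]; rfl
    rw [e] at h2
    have hb : b = a := Option.some.inj h2
    rw [hb] at hn
    exact absurd (List.nodup_cons.1 hn).1 (by simp)

theorem cyc_of_path {G : SimpleGraph V} {x : V} {τ : Fin 3 → V} (hx : Deg3 G x τ) {l : List V}
    {a b : Fin 3} (hn : l.Nodup) (hc : l.IsChain G.Adj) (hl : ∀ u ∈ l, u ≠ x)
    (h1 : l.head? = some (τ a)) (h2 : l.getLast? = some (τ b)) (hab : a ≠ b) :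
    CycL G (x :: l) := by
  refine ⟨?_, ?_, ?_, ?_⟩
  · rw [List.nodup_cons]
    exact ⟨fun h => hl x h rfl, hn⟩
  · obtain ⟨l', rfl⟩ := head?_eq_cons h1
    cases l' with
    | nil =>
      simp at h2
      exact absurd (hx.inj _ _ h2) hab
    | cons c l' => simp
  · rw [List.isChain_cons]
    refine ⟨?_, hc⟩
    intro y hy
    rw [h1] at hy
    simp at hy
    rw [← hy]; exact hx.adj' a
  · intro c hc' d hd
    simp at hd
    subst hd
    have : (x :: l).getLast? = l.getLast? := by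
      obtain ⟨l', rfl⟩ := head?_eq_cons h1
      simp
    rw [this, h2] at hc'
    simp at hc'
    rw [← hc']; exact (hx.adj' b).symm

theorem fin3_pairs : ∀ a b c d : Fin 3, a ≠ b → c ≠ d → a = c ∨ a = d ∨ b = c ∨ b = d := by
  decide

theorem HP.single (G : SimpleGraph V) (u : V) : HP G {w | w = u} u u :=
  ⟨[u], by simp, by simp, by simp, rfl, rfl⟩

/-- `K` is the union of `G - x` and `H - y` with the edges `τ a, σ a`. -/
structure Star (G : SimpleGraph V) (x : V) (τ : Fin 3 → V) (H : SimpleGraph W) (y : W)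
    (σ : Fin 3 → W) (K : SimpleGraph U) (f : V → U) (g : W → U) : Prop where
  finj : ∀ u v, u ≠ x → v ≠ x → f u = f v → u = v
  ginj : ∀ i j, i ≠ y → j ≠ y → g i = g j → i = j
  disj : ∀ u i, u ≠ x → i ≠ y → f u ≠ g i
  cov : ∀ p, (∃ u, u ≠ x ∧ f u = p) ∨ (∃ i, i ≠ y ∧ g i = p)
  fadj : ∀ u v, u ≠ x → v ≠ x → (K.Adj (f u) (f v) ↔ G.Adj u v)
  gadj : ∀ i j, i ≠ y → j ≠ y → (K.Adj (g i) (g j) ↔ H.Adj i j)
  xadj : ∀ u i, u ≠ x → i ≠ y → (K.Adj (f u) (g i) ↔ ∃ a, u = τ a ∧ i = σ a)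
  dx : Deg3 G x τ
  dy : Deg3 H y σ

section

variable {G : SimpleGraph V} {x : V} {τ : Fin 3 → V} {H : SimpleGraph W} {y : W}
    {σ : Fin 3 → W} {K : SimpleGraph U} {f : V → U} {g : W → U}

theorem Star.symm (h : Star G x τ H y σ K f g) : Star H y σ G x τ K g f where
  finj := h.ginj
  ginj := h.finj
  disj := fun u i hu hi e => h.disj i u hi hu e.symm
  cov := fun p => (h.cov p).symm
  fadj := h.gadj
  gadj := h.fadj
  xadj := by
    intro u i hu hi
    rw [SimpleGraph.adj_comm, h.xadj i u hi hu]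
    constructor
    · rintro ⟨a, h1, h2⟩; exact ⟨a, h2, h1⟩
    · rintro ⟨a, h1, h2⟩; exact ⟨a, h2, h1⟩
  dx := h.dy
  dy := h.dx

/-- The new vertex set which comes from `S`, with `x` replaced. -/
def LS (x : V) (y : W) (f : V → U) (g : W → U) (S : Set V) : Set U :=
  {p | (∃ w, w ≠ x ∧ w ∈ S ∧ f w = p) ∨ (∃ i, i ≠ y ∧ g i = p)}

theorem Star.cases (h : Star G x τ H y σ K f g) {P : U → Prop} (h1 : ∀ u, u ≠ x → P (f u))
    (h2 : ∀ i, i ≠ y → P (g i)) : ∀ p, P p := by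
  intro p
  rcases h.cov p with ⟨u, hu, rfl⟩ | ⟨i, hi, rfl⟩
  · exact h1 u hu
  · exact h2 i hi

theorem Star.crossE (h : Star G x τ H y σ K f g) (a : Fin 3) : K.Adj (f (τ a)) (g (σ a)) :=
  (h.xadj _ _ (h.dx.nex a) (h.dy.nex a)).2 ⟨a, rfl, rfl⟩

theorem Star.lift (h : Star G x τ H y σ K f g) (hq : Q1 H y σ) {S : Set V} {u v : V}
    (hS : x ∈ S) (hu : u ≠ x) (hv : v ≠ x) (hp : HP G S u v) :
    HP K (LS x y f g S) (f u) (f v) := by
  obtain ⟨S1, S2, s, t, hs, ht, h1, h2, hd, hS'⟩ := hp.split hS hu hv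
  obtain ⟨a, rfl⟩ := (h.dx.adj s).1 hs.symm
  obtain ⟨b, rfl⟩ := (h.dx.adj t).1 ht
  have hab : a ≠ b := by
    rintro rfl
    exact hd _ h1.mem_right h2.mem_left
  have n1 : ∀ w, w ∈ S1 → w ≠ x := fun w hw => ((hS' w).1 (Or.inl hw)).2
  have n2 : ∀ w, w ∈ S2 → w ≠ x := fun w hw => ((hS' w).1 (Or.inr hw)).2
  have m1 : HP K (f '' S1) (f u) (f (τ a)) :=
    h1.map f (fun p q hp hq e => h.finj p q (n1 _ hp) (n1 _ hq) e)
      (fun p q hp hq e => (h.fadj p q (n1 _ hp) (n1 _ hq)).2 e)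
  have m2 : HP K (f '' S2) (f (τ b)) (f v) :=
    h2.map f (fun p q hp hq e => h.finj p q (n2 _ hp) (n2 _ hq) e)
      (fun p q hp hq e => (h.fadj p q (n2 _ hp) (n2 _ hq)).2 e)
  have m3 := (hq a b hab).map (H := K) g
      (fun p q hp hq e => h.ginj p q hp hq e)
      (fun p q hp hq e => (h.gadj p q hp hq).2 e)
  have t1 := m1.append m3 (by
    rintro p ⟨w, hw, rfl⟩ ⟨i, hi, e⟩
    exact h.disj w i (n1 _ hw) hi e.symm) (h.crossE a)
  have t2 := t1.append m2 (by
    rintro p (⟨w, hw, rfl⟩ | ⟨i, hi, rfl⟩) ⟨w', hw', e⟩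
    · have := h.finj _ _ (n2 _ hw') (n1 _ hw) e
      subst this
      exact (hd _ hw hw').elim
    · exact h.disj w' i (n2 _ hw') hi e) (h.crossE b).symm
  refine t2.congr ?_
  intro p
  constructor
  · rintro ((⟨w, hw, rfl⟩ | ⟨i, hi, rfl⟩) | ⟨w, hw, rfl⟩)
    · exact Or.inl ⟨w, n1 _ hw, ((hS' w).1 (Or.inl hw)).1, rfl⟩
    · exact Or.inr ⟨i, hi, rfl⟩
    · exact Or.inl ⟨w, n2 _ hw, ((hS' w).1 (Or.inr hw)).1, rfl⟩
  · rintro (⟨w, hw, hwS, rfl⟩ | ⟨i, hi, rfl⟩)
    · rcases (hS' w).2 ⟨hwS, hw⟩ with hw | hw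
      · exact Or.inl (Or.inl ⟨w, hw, rfl⟩)
      · exact Or.inr ⟨w, hw, rfl⟩
    · exact Or.inl (Or.inr ⟨i, hi, rfl⟩)

/-- A path which starts next to `x` is extended into `H - y`. -/
theorem Star.start' (h : Star G x τ H y σ K f g) {S : Set V} {v : V} {i : W} {a : Fin 3}
    (hi : HP H {w | w ≠ y} i (σ a)) (hp : HP G {w | w ∈ S ∧ w ≠ x} (τ a) v) :
    HP K (LS x y f g S) (g i) (f v) := by
  have m1 := hp.map (H := K) f (fun p q hp hq e => h.finj p q hp.2 hq.2 e)
      (fun p q hp hq e => (h.fadj p q hp.2 hq.2).2 e)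
  have m2 := hi.map (H := K) g
      (fun p q hp hq e => h.ginj p q hp hq e)
      (fun p q hp hq e => (h.gadj p q hp hq).2 e)
  have t := m2.append m1 (by
    rintro p ⟨j, hj, rfl⟩ ⟨w, hw, e⟩
    exact h.disj w j hw.2 hj e) (h.crossE a).symm
  refine t.congr ?_
  intro p
  constructor
  · rintro (⟨j, hj, rfl⟩ | ⟨w, hw, rfl⟩)
    · exact Or.inr ⟨j, hj, rfl⟩
    · exact Or.inl ⟨w, hw.2, hw.1, rfl⟩
  · rintro (⟨w, hw, hwS, rfl⟩ | ⟨j, hj, rfl⟩)
    · exact Or.inr ⟨w, ⟨hwS, hw⟩, rfl⟩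
    · exact Or.inl ⟨j, hj, rfl⟩

theorem Star.start (h : Star G x τ H y σ K f g) {S : Set V} {v : V} {i : W}
    (hi : ∀ a, τ a ∈ S → HP H {w | w ≠ y} i (σ a)) (hv : v ≠ x) (hp : HP G S x v) :
    HP K (LS x y f g S) (g i) (f v) := by
  obtain ⟨s, hs, h1⟩ := hp.tail hv.symm
  obtain ⟨a, rfl⟩ := (h.dx.adj s).1 hs
  exact h.start' (hi a h1.mem_left.1) h1

theorem Star.uni (h : Star G x τ H y σ K f g) (p : U) :
    p ∈ LS x y f g Set.univ ↔ p ∈ Set.univ := by
  refine ⟨fun _ => trivial, fun _ => ?_⟩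
  rcases h.cov p with ⟨u, hu, rfl⟩ | ⟨i, hi, rfl⟩
  · exact Or.inl ⟨u, hu, trivial, rfl⟩
  · exact Or.inr ⟨i, hi, rfl⟩

theorem Star.ne_set (h : Star G x τ H y σ K f g) {z : V} (hz : z ≠ x) (p : U) :
    p ∈ LS x y f g {w | w ≠ z} ↔ p ∈ {q | q ≠ f z} := by
  constructor
  · rintro (⟨w, hw, hwS, rfl⟩ | ⟨i, hi, rfl⟩)
    · exact fun e => hwS (h.finj _ _ hw hz e)
    · exact (h.disj z i hz hi).symm
  · intro hp
    rcases h.cov p with ⟨u, hu, rfl⟩ | ⟨i, hi, rfl⟩
    · exact Or.inl ⟨u, hu, fun e => hp (by rw [e]), rfl⟩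
    · exact Or.inr ⟨i, hi, rfl⟩

/-- Degree three vertices away from `x` keep their neighbours. -/
theorem Star.deg (h : Star G x τ H y σ K f g) {z : V} {τ1 : Fin 3 → V} (hz : Deg3 G z τ1)
    (hzx : z ≠ x) (hna : ¬ G.Adj z x) : Deg3 K (f z) (fun a => f (τ1 a)) := by
  have n1 : ∀ a, τ1 a ≠ x := fun a e => hna ((hz.adj x).2 ⟨a, e.symm⟩)
  have n2 : ∀ a, z ≠ τ a := fun a e => hna ((h.dx.adj z).2 ⟨a, e⟩).symm
  refine ⟨fun a b hab => hz.inj _ _ (h.finj _ _ (n1 a) (n1 b) hab), ?_⟩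
  intro p
  constructor
  · intro hp
    rcases h.cov p with ⟨u, hu, rfl⟩ | ⟨i, hi, rfl⟩
    · rw [h.fadj _ _ hzx hu, hz.adj] at hp
      obtain ⟨a, ha⟩ := hp
      exact ⟨a, by rw [ha]⟩
    · rw [h.xadj _ _ hzx hi] at hp
      obtain ⟨a, ha, _⟩ := hp
      exact absurd ha (n2 a)
  · rintro ⟨a, rfl⟩
    exact (h.fadj _ _ hzx (n1 a)).2 (hz.adj' a)

/-- Cycles on both sides split into two paths. -/
theorem Star.decomp (h : Star G x τ H y σ K f g) {L : List U} (hL : CycL K L)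
    (h1 : ∃ u, u ≠ x ∧ f u ∈ L) (h2 : ∃ i, i ≠ y ∧ g i ∈ L) :
    ∃ (M0 : List W) (N0 : List V), CycL H (y :: M0) ∧ CycL G (x :: N0) ∧
      (∀ i ∈ M0, i ≠ y) ∧ (∀ u ∈ N0, u ≠ x) ∧
      (∀ p, p ∈ L ↔ p ∈ M0.map g ∨ p ∈ N0.map f) ∧ L.length = M0.length + N0.length := by
  classical
  let P : U → Prop := fun p => ∃ i, i ≠ y ∧ g i = p
  have hPf : ∀ u, u ≠ x → ¬ P (f u) := by
    rintro u hu ⟨i, hi, e⟩
    exact h.disj u i hu hi e.symm
  have hPn : ∀ p, ¬ P p → ∃ u, u ≠ x ∧ f u = p := by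
    intro p hp
    rcases h.cov p with h' | h'
    · exact h'
    · exact absurd h' hp
  -- adjacency between the sides
  have cross : ∀ p q, ¬ P p → P q → K.Adj p q → ∃ a, p = f (τ a) ∧ q = g (σ a) := by
    intro p q hp hq hpq
    obtain ⟨u, hu, rfl⟩ := hPn p hp
    obtain ⟨i, hi, rfl⟩ := hq
    obtain ⟨a, rfl, rfl⟩ := (h.xadj u i hu hi).1 hpq
    exact ⟨a, rfl, rfl⟩
  -- start at a vertex on the side of `G`
  obtain ⟨u0, hu0, hu0L⟩ := h1
  obtain ⟨s, t, rfl⟩ := List.append_of_mem hu0L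
  have hc' : CycL K (f u0 :: (t ++ s)) := by simpa using hL.rot
  have hmem : ∀ p, p ∈ f u0 :: (t ++ s) ↔ p ∈ s ++ f u0 :: t := by
    intro p
    simp only [List.mem_append, List.mem_cons]
    tauto
  have hlen0 : (f u0 :: (t ++ s)).length = (s ++ f u0 :: t).length := by
    simp only [List.length_append, List.length_cons]; omega
  obtain ⟨i0, hi0, hi0L⟩ := h2
  have h2' : ∃ p ∈ t ++ s, P p := by
    refine ⟨g i0, ?_, ⟨i0, hi0, rfl⟩⟩
    have := (hmem (g i0)).2 hi0L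
    rcases List.mem_cons.1 this with e | e
    · exact absurd e.symm (h.disj u0 i0 hu0 hi0)
    · exact e
  simp only [← hmem, ← hlen0]
  generalize t ++ s = l at hc' h2'
  have hna : ¬ P (f u0) := hPf u0 hu0
  obtain ⟨pre, t, run, t', post, e1, e2, e3, e4, e5⟩ := exists_run P l (f u0) (f u0) hna hna h2'
  have hch : (f u0 :: (l ++ [f u0])).IsChain K.Adj := by
    have : f u0 :: (l ++ [f u0]) = (f u0 :: l) ++ [f u0] := by simp
    rw [this, List.isChain_append]
    refine ⟨hc'.2.2.1, by simp, ?_⟩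
    intro p hp q hq
    simp at hq
    subst hq
    exact hc'.2.2.2 p hp _ (by simp)
  rw [e1] at hch
  have hch1 := hch.right_of_append
  have hch2 := List.isChain_cons.1 hch1
  obtain ⟨r, run', hr⟩ : ∃ r run', run = r :: run' := by
    cases run with
    | nil => exact absurd rfl e2
    | cons r run' => exact ⟨r, run', rfl⟩
  obtain ⟨z, run'', hz⟩ : ∃ z run'', run = run'' ++ [z] := by
    rcases List.eq_nil_or_concat run with h | ⟨q, b, h⟩
    · exact absurd h e2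
    · exact ⟨b, q, by simpa using h⟩
  have hr' : P r := e3 r (by rw [hr]; simp)
  have hz' : P z := e3 z (by rw [hz]; simp)
  have htr : K.Adj t r := hch2.1 r (by rw [hr]; simp)
  obtain ⟨α, hα, hα'⟩ := cross t r e4 hr' htr
  have hzt : K.Adj z t' := by
    have := (List.isChain_append.1 hch2.2).2.2
    exact this z (by rw [hz]; simp) t' (by simp)
  obtain ⟨β, hβ, hβ'⟩ := cross t' z e5 hz' hzt.symm
  -- the rotated list
  obtain ⟨Z, q, hZ⟩ : ∃ Z q, t' :: post = Z ++ [q] := by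
    rcases List.eq_nil_or_concat (t' :: post) with h | ⟨q, b, h⟩
    · simp at h
    · exact ⟨q, b, by simpa using h⟩
  have hL0 : f u0 :: l = pre ++ t :: (run ++ Z) ∧ q = f u0 := by
    have : (f u0 :: l) ++ [f u0] = (pre ++ t :: (run ++ Z)) ++ [q] := by
      have e : (f u0 :: l) ++ [f u0] = f u0 :: (l ++ [f u0]) := by simp
      rw [e, e1, hZ]; simp
    have e6 := List.append_inj' this rfl
    refine ⟨e6.1, ?_⟩
    have := e6.2
    simp at this
    exact this.symm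
  obtain ⟨hL0, hq⟩ := hL0
  subst hq
  have hcr : CycL K (run ++ (Z ++ (pre ++ [t]))) := by
    have e : f u0 :: l = (pre ++ [t]) ++ (run ++ Z) := by rw [hL0]; simp
    rw [e] at hc'
    have := hc'.rot
    simpa using this
  have hrest1 : (Z ++ (pre ++ [t])).head? = some t' := by
    cases Z with
    | nil =>
      simp at hZ
      have e : (pre ++ t :: (run ++ [])).head? = some (f u0) := by rw [← hL0]; rfl
      cases pre with
      | nil => simp at e ⊢; rw [e, hZ.1]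
      | cons b pre => simp at e ⊢; rw [e, hZ.1]
    | cons b Z => simp at hZ ⊢; exact hZ.1.symm
  have hrest2 : (Z ++ (pre ++ [t])).getLast? = some t := by
    have : Z ++ (pre ++ [t]) = (Z ++ pre) ++ [t] := by simp
    rw [this, List.getLast?_append]; rfl
  have hmem2 : ∀ p, p ∈ f u0 :: l ↔ p ∈ run ∨ p ∈ Z ++ (pre ++ [t]) := by
    intro p
    rw [hL0]
    simp only [List.mem_append, List.mem_cons, List.not_mem_nil, or_false]
    tauto
  have hlen2 : (f u0 :: l).length = run.length + (Z ++ (pre ++ [t])).length := by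
    rw [hL0]
    simp only [List.length_append, List.length_cons, List.length_nil]
    omega
  simp only [hmem2, hlen2]
  generalize Z ++ (pre ++ [t]) = rest at hcr hrest1 hrest2
  have hnd := List.nodup_append.1 hcr.1
  have hchr := List.isChain_append.1 hcr.2.2.1
  have hrh : run.head? = some (g (σ α)) := by rw [hr, ← hα']; rfl
  have hrl : run.getLast? = some (g (σ β)) := by rw [hz, ← hβ']; simp
  have hαβ : α ≠ β := by
    rintro rfl
    rw [hβ] at hrest1
    rw [hα] at hrest2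
    have k1 := nodup_head_last hnd.2.1 hrest1 hrest2
    have k2 := nodup_head_last hnd.1 hrh hrl
    have := hcr.2.1
    rw [k1, k2] at this
    simp at this
  have hrest : ∀ p ∈ rest, ¬ P p := by
    by_contra hcon
    push Not at hcon
    obtain ⟨p, hp, hpP⟩ := hcon
    obtain ⟨rest', hrest'⟩ := head?_eq_cons hrest1
    obtain ⟨m, hm⟩ : ∃ m, rest' = m ++ [t] := by
      rcases List.eq_nil_or_concat rest' with h | ⟨q, b, h⟩
      · rw [h] at hrest'
        rw [hrest'] at hp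
        simp at hp
        rw [hp] at hpP
        exact absurd hpP e5
      · have h' : rest' = q ++ [b] := by simpa using h
        have : rest.getLast? = some b := by
          rw [hrest', h']
          have : t' :: (q ++ [b]) = (t' :: q) ++ [b] := by simp
          rw [this, List.getLast?_append]; rfl
        rw [hrest2] at this
        exact ⟨q, by rw [h', Option.some.inj this]⟩
    have hpm : ∃ p ∈ m, P p := by
      refine ⟨p, ?_, hpP⟩
      rw [hrest', hm] at hp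
      simp only [List.mem_append, List.mem_cons, List.not_mem_nil, or_false] at hp
      rcases hp with h | h | h
      · rw [h] at hpP; exact absurd hpP e5
      · exact h
      · rw [h] at hpP; exact absurd hpP e4
    obtain ⟨pre2, t2, run2, t2', post2, d1, d2, d3, d4, d5⟩ := exists_run P m t' t e5 e4 hpm
    have hre : rest = pre2 ++ t2 :: (run2 ++ t2' :: post2) := by rw [hrest', hm]; exact d1
    have hc3 := hchr.2.1
    have hn3 := hnd.2.1
    rw [hre] at hc3 hn3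
    have hc4 := hc3.right_of_append
    have hc5 := List.isChain_cons.1 hc4
    have hn4 := (List.nodup_append.1 hn3).2.1
    obtain ⟨r2, run2', hr2⟩ : ∃ r run', run2 = r :: run' := by
      cases run2 with
      | nil => exact absurd rfl d2
      | cons r run' => exact ⟨r, run', rfl⟩
    obtain ⟨z2, run2'', hz2⟩ : ∃ z run'', run2 = run'' ++ [z] := by
      rcases List.eq_nil_or_concat run2 with h | ⟨q, b, h⟩
      · exact absurd h d2
      · exact ⟨b, q, by simpa using h⟩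
    have hr2' : P r2 := d3 r2 (by rw [hr2]; simp)
    have hz2' : P z2 := d3 z2 (by rw [hz2]; simp)
    have htr2 : K.Adj t2 r2 := hc5.1 r2 (by rw [hr2]; simp)
    obtain ⟨γ, hγ, hγ'⟩ := cross t2 r2 d4 hr2' htr2
    have hzt2 : K.Adj z2 t2' := by
      have := (List.isChain_append.1 hc5.2).2.2
      exact this z2 (by rw [hz2]; simp) t2' (by simp)
    obtain ⟨δ, hδ, hδ'⟩ := cross t2' z2 d5 hz2' hzt2.symm
    have hγδ : γ ≠ δ := by
      rintro rfl
      refine (List.nodup_cons.1 hn4).1 ?_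
      rw [hγ, hδ]; simp
    have in1 : ∀ a, a = α ∨ a = β → g (σ a) ∈ run := by
      rintro a (rfl | rfl)
      · rw [← hα', hr]; simp
      · rw [← hβ', hz]; simp
    have in2 : ∀ a, a = γ ∨ a = δ → g (σ a) ∈ rest := by
      rintro a (rfl | rfl)
      · rw [← hγ', hre, hr2]; simp
      · rw [← hδ', hre, hz2]; simp
    rcases fin3_pairs α β γ δ hαβ hγδ with e | e | e | e
    · exact hnd.2.2 _ (in1 α (Or.inl rfl)) _ (in2 α (Or.inl e)) rfl
    · exact hnd.2.2 _ (in1 α (Or.inl rfl)) _ (in2 α (Or.inr e)) rfl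
    · exact hnd.2.2 _ (in1 β (Or.inr rfl)) _ (in2 β (Or.inl e)) rfl
    · exact hnd.2.2 _ (in1 β (Or.inr rfl)) _ (in2 β (Or.inr e)) rfl
  -- pull back both parts
  obtain ⟨M0, hM0, hM0'⟩ := lift_list g (fun i => i ≠ y) run (fun p hp => e3 p hp)
  obtain ⟨N0, hN0, hN0'⟩ := lift_list f (fun u => u ≠ x) rest (fun p hp => hPn p (hrest p hp))
  have hMc : M0.IsChain H.Adj := by
    have := hchr.1
    rw [← hM0, List.isChain_map] at this
    exact this.imp_of_mem_imp (fun a b ha hb hab => (h.gadj a b (hM0' a ha) (hM0' b hb)).1 hab)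
  have hNc : N0.IsChain G.Adj := by
    have := hchr.2.1
    rw [← hN0, List.isChain_map] at this
    exact this.imp_of_mem_imp (fun a b ha hb hab => (h.fadj a b (hN0' a ha) (hN0' b hb)).1 hab)
  have hMn : M0.Nodup := by
    have := hnd.1
    rw [← hM0] at this
    exact List.Nodup.of_map g this
  have hNn : N0.Nodup := by
    have := hnd.2.1
    rw [← hN0] at this
    exact List.Nodup.of_map f this
  have mh : M0.head? = some (σ α) := by
    rw [← hM0, List.head?_map, Option.map_eq_some_iff] at hrh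
    obtain ⟨b, hb, hb'⟩ := hrh
    rw [hb, h.ginj b _ (hM0' b (List.mem_of_mem_head? hb)) (h.dy.nex α) hb']
  have ml : M0.getLast? = some (σ β) := by
    rw [← hM0, List.getLast?_map, Option.map_eq_some_iff] at hrl
    obtain ⟨b, hb, hb'⟩ := hrl
    rw [hb, h.ginj b _ (hM0' b (List.mem_of_mem_getLast? hb)) (h.dy.nex β) hb']
  have nh : N0.head? = some (τ β) := by
    rw [← hN0, List.head?_map, Option.map_eq_some_iff, hβ] at hrest1
    obtain ⟨b, hb, hb'⟩ := hrest1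
    rw [hb, h.finj b _ (hN0' b (List.mem_of_mem_head? hb)) (h.dx.nex β) hb']
  have nl : N0.getLast? = some (τ α) := by
    rw [← hN0, List.getLast?_map, Option.map_eq_some_iff, hα] at hrest2
    obtain ⟨b, hb, hb'⟩ := hrest2
    rw [hb, h.finj b _ (hN0' b (List.mem_of_mem_getLast? hb)) (h.dx.nex α) hb']
  refine ⟨M0, N0, cyc_of_path h.dy hMn hMc hM0' mh ml hαβ,
    cyc_of_path h.dx hNn hNc hN0' nh nl hαβ.symm, hM0', hN0', ?_, ?_⟩
  · intro p
    rw [hM0, hN0]
  · rw [← hM0, ← hN0, List.length_map, List.length_map]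

/-- Cycles on the side of `G`. -/
theorem Star.fside (h : Star G x τ H y σ K f g) {L : List U} (hL : CycL K L)
    (h2 : ∀ i, i ≠ y → g i ∉ L) :
    ∃ L0 : List V, CycL G L0 ∧ (∀ u ∈ L0, u ≠ x) ∧ L = L0.map f := by
  have hp : ∀ p ∈ L, ∃ u, u ≠ x ∧ f u = p := by
    intro p hp
    rcases h.cov p with h' | ⟨i, hi, rfl⟩
    · exact h'
    · exact absurd hp (h2 i hi)
  obtain ⟨L0, hL0, hL0'⟩ := lift_list f (fun u => u ≠ x) L hp
  subst hL0
  refine ⟨L0, ⟨List.Nodup.of_map f hL.1, by simpa using hL.2.1, ?_, ?_⟩, hL0', rfl⟩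
  · have := hL.2.2.1
    rw [List.isChain_map] at this
    exact this.imp_of_mem_imp (fun a b ha hb hab => (h.fadj a b (hL0' a ha) (hL0' b hb)).1 hab)
  · intro a ha b hb
    have ha' := hL0' a (List.mem_of_mem_getLast? ha)
    have hb' := hL0' b (List.mem_of_mem_head? hb)
    rw [← h.fadj a b ha' hb']
    refine hL.2.2.2 _ ?_ _ ?_
    · simp only [Option.mem_def] at ha
      simp [ha]
    · simp only [Option.mem_def] at hb
      simp [hb]

/-- All cases for a cycle of the join. -/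
theorem Star.cyc (h : Star G x τ H y σ K f g) {L : List U} (hL : CycL K L) :
    (∃ L0 : List V, CycL G L0 ∧ (∀ u ∈ L0, u ≠ x) ∧ L = L0.map f) ∨
    (∃ L0 : List W, CycL H L0 ∧ (∀ u ∈ L0, u ≠ y) ∧ L = L0.map g) ∨
    (∃ (M0 : List W) (N0 : List V), CycL H (y :: M0) ∧ CycL G (x :: N0) ∧
      (∀ i ∈ M0, i ≠ y) ∧ (∀ u ∈ N0, u ≠ x) ∧
      (∀ p, p ∈ L ↔ p ∈ M0.map g ∨ p ∈ N0.map f) ∧ L.length = M0.length + N0.length) := by
  by_cases h1 : ∃ u, u ≠ x ∧ f u ∈ L
  · by_cases h2 : ∃ i, i ≠ y ∧ g i ∈ L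
    · exact Or.inr (Or.inr (h.decomp hL h1 h2))
    · push Not at h2
      exact Or.inl (h.fside hL h2)
  · push Not at h1
    exact Or.inr (Or.inl (h.symm.fside hL h1))

/-- Contracting the side of `H` keeps a Hamilton cycle. -/
theorem Star.nonham (h : Star G x τ H y σ K f g) (hG : ¬ HC G) : ¬ HC K := by
  rintro ⟨L, hL, hf⟩
  rcases h.cyc hL with ⟨L0, _, k2, rfl⟩ | ⟨L0, _, k2, rfl⟩ | ⟨M0, N0, _, h2, h3, h4, h5, _⟩
  · obtain ⟨u, hu, e⟩ := List.mem_map.1 (hf (g (σ 0)))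
    exact h.disj u (σ 0) (k2 u hu) (h.dy.nex 0) e
  · obtain ⟨u, hu, e⟩ := List.mem_map.1 (hf (f (τ 0)))
    exact h.disj (τ 0) u (h.dx.nex 0) (k2 u hu) e.symm
  · refine hG ⟨x :: N0, h2, ?_⟩
    intro v
    by_cases hv : v = x
    · rw [hv]; simp
    · refine List.mem_cons_of_mem _ ?_
      rcases (h5 (f v)).1 (hf (f v)) with e | e
      · obtain ⟨i, hi, e⟩ := List.mem_map.1 e
        exact absurd e.symm (h.disj v i hv (h3 i hi))
      · obtain ⟨u, hu, e⟩ := List.mem_map.1 e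
        rw [h.finj u v (h4 u hu) hv e] at hu
        exact hu

end

section

variable {G : SimpleGraph V} {x : V} {τ : Fin 3 → V} {H : SimpleGraph W} {y : W}
    {σ : Fin 3 → W}

/-- The vertex set of the join. -/
abbrev SV (x : V) (y : W) : Type := {u : V // u ≠ x} ⊕ {i : W // i ≠ y}

theorem exists_star (dx : Deg3 G x τ) (dy : Deg3 H y σ) :
    ∃ (K : SimpleGraph (SV x y)) (f : V → SV x y) (g : W → SV x y),
      Star G x τ H y σ K f g := by
  classical
  let f : V → SV x y := fun u => if h : u ≠ x then Sum.inl ⟨u, h⟩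
    else Sum.inl ⟨τ 0, dx.nex 0⟩
  let g : W → SV x y := fun i => if h : i ≠ y then Sum.inr ⟨i, h⟩
    else Sum.inl ⟨τ 0, dx.nex 0⟩
  have hf : ∀ u (h : u ≠ x), f u = Sum.inl ⟨u, h⟩ := by
    intro u h
    simp only [f]
    rw [dif_pos h]
  have hg : ∀ i (h : i ≠ y), g i = Sum.inr ⟨i, h⟩ := by
    intro i h
    simp only [g]
    rw [dif_pos h]
  have finj : ∀ u v, u ≠ x → v ≠ x → f u = f v → u = v := by
    intro u v hu hv e
    rw [hf u hu, hf v hv] at e
    simpa using e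
  have ginj : ∀ i j, i ≠ y → j ≠ y → g i = g j → i = j := by
    intro i j hi hj e
    rw [hg i hi, hg j hj] at e
    simpa using e
  have disj : ∀ u i, u ≠ x → i ≠ y → f u ≠ g i := by
    intro u i hu hi e
    rw [hf u hu, hg i hi] at e
    simp at e
  let A : SV x y → SV x y → Prop := fun p q =>
    (∃ u v, u ≠ x ∧ v ≠ x ∧ G.Adj u v ∧ f u = p ∧ f v = q) ∨
    (∃ i j, i ≠ y ∧ j ≠ y ∧ H.Adj i j ∧ g i = p ∧ g j = q) ∨
    (∃ a, f (τ a) = p ∧ g (σ a) = q) ∨ (∃ a, g (σ a) = p ∧ f (τ a) = q)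
  have Asymm : ∀ p q, A p q → A q p := by
    rintro p q (⟨u, v, hu, hv, ha, h1, h2⟩ | ⟨u, v, hu, hv, ha, h1, h2⟩ | ⟨a, h1, h2⟩ |
      ⟨a, h1, h2⟩)
    · exact Or.inl ⟨v, u, hv, hu, ha.symm, h2, h1⟩
    · exact Or.inr (Or.inl ⟨v, u, hv, hu, ha.symm, h2, h1⟩)
    · exact Or.inr (Or.inr (Or.inr ⟨a, h2, h1⟩))
    · exact Or.inr (Or.inr (Or.inl ⟨a, h2, h1⟩))
  have Airr : ∀ p, ¬ A p p := by
    rintro p (⟨u, v, hu, hv, ha, h1, h2⟩ | ⟨u, v, hu, hv, ha, h1, h2⟩ | ⟨a, h1, h2⟩ |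
      ⟨a, h1, h2⟩)
    · have := finj u v hu hv (h1.trans h2.symm)
      subst this
      exact G.irrefl ha
    · have := ginj u v hu hv (h1.trans h2.symm)
      subst this
      exact H.irrefl ha
    · exact disj _ _ (dx.nex a) (dy.nex a) (h1.trans h2.symm)
    · exact disj _ _ (dx.nex a) (dy.nex a) (h2.trans h1.symm)
  refine ⟨⟨A, ⟨fun p q h => Asymm p q h⟩, ⟨Airr⟩⟩, f, g, ?_⟩
  refine ⟨finj, ginj, disj, ?_, ?_, ?_, ?_, dx, dy⟩
  · rintro (⟨u, hu⟩ | ⟨i, hi⟩)
    · exact Or.inl ⟨u, hu, hf u hu⟩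
    · exact Or.inr ⟨i, hi, hg i hi⟩
  · intro u v hu hv
    constructor
    · rintro (⟨u', v', hu', hv', ha, h1, h2⟩ | ⟨i, j, hi, hj, ha, h1, h2⟩ | ⟨a, h1, h2⟩ |
        ⟨a, h1, h2⟩)
      · rw [← finj _ _ hu' hu h1, ← finj _ _ hv' hv h2]
        exact ha
      · exact absurd h1.symm (disj u i hu hi)
      · exact absurd h2.symm (disj v _ hv (dy.nex a))
      · exact absurd h1.symm (disj u _ hu (dy.nex a))
    · intro ha
      exact Or.inl ⟨u, v, hu, hv, ha, rfl, rfl⟩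
  · intro i j hi hj
    constructor
    · rintro (⟨u, v, hu, hv, ha, h1, h2⟩ | ⟨i', j', hi', hj', ha, h1, h2⟩ | ⟨a, h1, h2⟩ |
        ⟨a, h1, h2⟩)
      · exact absurd h1 (disj u i hu hi)
      · rw [← ginj _ _ hi' hi h1, ← ginj _ _ hj' hj h2]
        exact ha
      · exact absurd h1 (disj _ i (dx.nex a) hi)
      · exact absurd h2 (disj _ j (dx.nex a) hj)
    · intro ha
      exact Or.inr (Or.inl ⟨i, j, hi, hj, ha, rfl, rfl⟩)
  · intro u i hu hi
    constructor
    · rintro (⟨u', v', hu', hv', ha, h1, h2⟩ | ⟨i', j', hi', hj', ha, h1, h2⟩ | ⟨a, h1, h2⟩ |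
        ⟨a, h1, h2⟩)
      · exact absurd h2 (disj _ i hv' hi)
      · exact absurd h1.symm (disj u _ hu hi')
      · exact ⟨a, (finj _ _ (dx.nex a) hu h1).symm, (ginj _ _ (dy.nex a) hi h2).symm⟩
      · exact absurd h2 (disj _ i (dx.nex a) hi)
    · rintro ⟨a, rfl, rfl⟩
      exact Or.inr (Or.inr (Or.inl ⟨a, rfl, rfl⟩))

theorem card_ne {V : Type} [Finite V] (x : V) : Nat.card {u : V // u ≠ x} + 1 = Nat.card V := by
  classical
  haveI := Fintype.ofFinite V
  have := Fintype.card_subtype_compl (fun u : V => u = x)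
  rw [Fintype.card_subtype_eq] at this
  have h3 : 0 < Fintype.card V := Fintype.card_pos_iff.2 ⟨x⟩
  rw [Nat.card_eq_fintype_card, Nat.card_eq_fintype_card]
  have h4 : Fintype.card {u : V // u ≠ x} = Fintype.card V - 1 := by
    convert this
  omega

theorem card_SV [Finite V] [Finite W] : Nat.card (SV x y) + 2 = Nat.card V + Nat.card W := by
  have h1 := card_ne x
  have h2 := card_ne y
  have h3 : Nat.card (SV x y) = Nat.card {u : V // u ≠ x} + Nat.card {u : W // u ≠ y} :=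
    Nat.card_sum
  omega

end

end Run7.h694.Mnh
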