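import Pool.Agent.Run7.h694.Good

/-! Existence of the glued graph and one step of the construction. -/

namespace Run7.h694.Mnh

section

variable {V W : Type} {G : SimpleGraph V} {x : V} {τ : Fin 3 → V} {C : SimpleGraph W} {y : W}
    {σ : Fin 3 → W}

/-- The vertex set of the glued graph. -/
abbrev GV (x : V) (y : W) (σ : Fin 3 → W) : Type :=
  {u : V // u ≠ x} ⊕ {i : W // i ≠ y ∧ ∀ a, i ≠ σ a}

theorem exists_glue (rx : Root G x τ) (ry : Root C y σ) :
    ∃ (H : SimpleGraph (GV x y σ)) (f : V → GV x y σ) (g : W → GV x y σ),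
      Glue G x τ C y σ H f g := by
  classical
  obtain ⟨i0, hi0, hi0'⟩ := ry.ne
  let f : V → GV x y σ := fun u => if h : u ≠ x then Sum.inl ⟨u, h⟩ else Sum.inr ⟨i0, hi0, hi0'⟩
  let g : W → GV x y σ := fun i => if h : i ≠ y ∧ ∀ a, i ≠ σ a then Sum.inr ⟨i, h⟩
    else if h' : ∃ a, i = σ a then Sum.inl ⟨τ h'.choose, rx.nex _⟩ else Sum.inr ⟨i0, hi0, hi0'⟩
  have hf : ∀ u (h : u ≠ x), f u = Sum.inl ⟨u, h⟩ := by
    intro u h
    simp only [f]
    rw [dif_pos h]
  have hg1 : ∀ i (h : i ≠ y ∧ ∀ a, i ≠ σ a), g i = Sum.inr ⟨i, h⟩ := by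
    intro i h
    simp only [g]
    rw [dif_pos h]
  have hg2 : ∀ a, g (σ a) = Sum.inl ⟨τ a, rx.nex _⟩ := by
    intro a
    have h1 : ¬ (σ a ≠ y ∧ ∀ b, σ a ≠ σ b) := fun h => h.2 a rfl
    have h2 : ∃ b, σ a = σ b := ⟨a, rfl⟩
    simp only [g]
    rw [dif_neg h1, dif_pos h2]
    have := ry.inj _ _ h2.choose_spec
    congr 2
    rw [← this]
  have finj : ∀ u v, u ≠ x → v ≠ x → f u = f v → u = v := by
    intro u v hu hv e
    rw [hf u hu, hf v hv] at e
    simpa using e
  have gcase : ∀ i, i ≠ y → (i ≠ y ∧ ∀ a, i ≠ σ a) ∨ ∃ a, i = σ a := by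
    intro i hi
    by_cases hc : ∃ c, i = σ c
    · exact Or.inr hc
    · push Not at hc
      exact Or.inl ⟨hi, hc⟩
  have ginj : ∀ i j, i ≠ y → j ≠ y → g i = g j → i = j := by
    intro i j hi hj e
    rcases gcase i hi with h1 | ⟨a, rfl⟩
    · rcases gcase j hj with h2 | ⟨b, rfl⟩
      · rw [hg1 i h1, hg1 j h2] at e
        simpa using e
      · rw [hg1 i h1, hg2 b] at e
        simp at e
    · rcases gcase j hj with h2 | ⟨b, rfl⟩
      · rw [hg2 a, hg1 j h2] at e
        simp at e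
      · rw [hg2 a, hg2 b] at e
        simp only [Sum.inl.injEq, Subtype.mk.injEq] at e
        rw [rx.inj _ _ e]
  have ov : ∀ u i, u ≠ x → i ≠ y → f u = g i → ∃ a, u = τ a ∧ i = σ a := by
    intro u i hu hi e
    rcases gcase i hi with h1 | ⟨a, rfl⟩
    · rw [hf u hu, hg1 i h1] at e
      simp at e
    · rw [hf u hu, hg2 a] at e
      simp only [Sum.inl.injEq, Subtype.mk.injEq] at e
      exact ⟨a, e, rfl⟩
  let A : GV x y σ → GV x y σ → Prop := fun p q =>
    (∃ u v, u ≠ x ∧ v ≠ x ∧ G.Adj u v ∧ f u = p ∧ f v = q) ∨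
    (∃ i j, i ≠ y ∧ j ≠ y ∧ C.Adj i j ∧ g i = p ∧ g j = q)
  have Asymm : ∀ p q, A p q → A q p := by
    rintro p q (⟨u, v, hu, hv, ha, h1, h2⟩ | ⟨u, v, hu, hv, ha, h1, h2⟩)
    · exact Or.inl ⟨v, u, hv, hu, ha.symm, h2, h1⟩
    · exact Or.inr ⟨v, u, hv, hu, ha.symm, h2, h1⟩
  have Airr : ∀ p, ¬ A p p := by
    rintro p (⟨u, v, hu, hv, ha, h1, h2⟩ | ⟨u, v, hu, hv, ha, h1, h2⟩)
    · have := finj u v hu hv (h1.trans h2.symm)
      subst this
      exact G.irrefl ha
    · have := ginj u v hu hv (h1.trans h2.symm)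
      subst this
      exact C.irrefl ha
  refine ⟨⟨A, ⟨fun p q h => Asymm p q h⟩, ⟨Airr⟩⟩, f, g, ?_⟩
  refine ⟨finj, ginj, ?_, ov, ?_, ?_, ?_, ?_, rx, ry⟩
  · intro a
    rw [hf _ (rx.nex a), hg2]
  · rintro (⟨u, hu⟩ | ⟨i, hi⟩)
    · exact Or.inl ⟨u, hu, hf u hu⟩
    · exact Or.inr ⟨i, hi.1, hg1 i hi⟩
  · intro u v hu hv
    constructor
    · rintro (⟨u', v', hu', hv', ha, h1, h2⟩ | ⟨i, j, hi, hj, ha, h1, h2⟩)
      · rw [← finj _ _ hu' hu h1, ← finj _ _ hv' hv h2]
        exact ha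
      · obtain ⟨a, _, rfl⟩ := ov u i hu hi h1.symm
        obtain ⟨b, _, rfl⟩ := ov v j hv hj h2.symm
        exact absurd ha (ry.ind a b)
    · intro ha
      exact Or.inl ⟨u, v, hu, hv, ha, rfl, rfl⟩
  · intro i j hi hj
    constructor
    · rintro (⟨u, v, hu, hv, ha, h1, h2⟩ | ⟨i', j', hi', hj', ha, h1, h2⟩)
      · obtain ⟨a, rfl, _⟩ := ov u i hu hi h1
        obtain ⟨b, rfl, _⟩ := ov v j hv hj h2
        exact absurd ha (rx.ind a b)
      · rw [← ginj _ _ hi' hi h1, ← ginj _ _ hj' hj h2]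
        exact ha
    · intro ha
      exact Or.inr ⟨i, j, hi, hj, ha, rfl, rfl⟩
  · intro u i hu hu' hi hi'
    rintro (⟨u', v', hu2, hv2, ha, h1, h2⟩ | ⟨i', j', hi2, hj2, ha, h1, h2⟩)
    · obtain ⟨a, _, hb⟩ := ov v' i hv2 hi h2
      exact hi' a hb
    · obtain ⟨a, hb, _⟩ := ov u i' hu hi2 h1.symm
      exact hu' a hb

end

section

variable {W : Type} [Fintype W] {C : SimpleGraph W} {y : W}
    {σ : Fin 3 → W} {R : Finset W} {rk lv : W → ℕ}

/-- One step: attach a piece at the root `x`. -/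
theorem step {V : Type} [Fintype V] {G : SimpleGraph V} {X : Finset V} {ρ : V → ℕ}
    (hX : Good G X ρ) {lam : V → ℕ} (hl : Lip G lam) {x : V} (hx : x ∈ X)
    (hp : Piece C y σ R rk lv) :
    ∃ (U : Type) (_ : Fintype U) (H : SimpleGraph U) (X' : Finset U) (ρ' lam' : U → ℕ),
      Good H X' ρ' ∧ Lip H lam' ∧ Fintype.card U + 5 = Fintype.card V + Fintype.card W ∧
      X'.card + 1 = X.card + R.card ∧
      (∀ M : ℕ → ℕ, Antitone M → ∑ p ∈ X', M (lam' p) + M (lam x) ≤
        ∑ p ∈ X, M (lam p) + R.card * M (lam x + 1)) ∧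
      Nat.card {v // lam v = 0 ∧ v ∉ X} ≤ Nat.card {p // lam' p = 0 ∧ p ∉ X'} := by
  classical
  obtain ⟨τ, rx⟩ := hX.root x hx
  obtain ⟨H, f, g, h⟩ := exists_glue rx hp.ry
  obtain ⟨mf, mg⟩ := h.mem_newX hX hx hp
  have nyR : ∀ i ∈ R, i ≠ y ∧ ∀ a, i ≠ σ a := by
    intro i hi
    refine ⟨fun e => hp.yR (e ▸ hi), fun a e => ?_⟩
    exact hp.yadj i hi ((hp.ry.adj i).2 ⟨a, e⟩)
  have hB : ∀ v, ρ v ≤ Finset.univ.sup ρ := fun v => Finset.le_sup (Finset.mem_univ v)
  have injf : Set.InjOn f (X.erase x : Finset V) := by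
    intro a ha b hb e
    have ha' := Finset.mem_erase.1 (Finset.mem_coe.1 ha)
    have hb' := Finset.mem_erase.1 (Finset.mem_coe.1 hb)
    exact h.finj a b ha'.1 hb'.1 e
  have injg : Set.InjOn g (R : Finset W) := by
    intro a ha b hb e
    exact h.ginj a b (nyR a ha).1 (nyR b hb).1 e
  have disj : Disjoint ((X.erase x).image f) (R.image g) := by
    rw [Finset.disjoint_left]
    intro p hp1 hp2
    obtain ⟨u, hu, rfl⟩ := Finset.mem_image.1 hp1
    obtain ⟨i, hi, e⟩ := Finset.mem_image.1 hp2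
    obtain ⟨a, _, hb⟩ := h.ov u i (Finset.mem_erase.1 hu).1 (nyR i hi).1 e.symm
    exact (nyR i hi).2 a hb
  have hnew : newX x X R f g = (X.erase x).image f ∪ R.image g := by
    ext p
    simp only [newX, Finset.mem_union, Finset.mem_image]
  refine ⟨GV x y σ, inferInstance, H, newX x X R f g, _,
    extd y σ g f x lam (fun i => lam x + lv i), h.good hX hx hp _ hB, h.lip hp hl, ?_, ?_, ?_, ?_⟩
  · have h1 : Fintype.card {u : V // u ≠ x} + 1 = Fintype.card V := by
      have := Fintype.card_subtype_compl (fun u : V => u = x)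
      rw [Fintype.card_subtype_eq] at this
      have h3 : 0 < Fintype.card V := Fintype.card_pos_iff.2 ⟨x⟩
      have h4 : Fintype.card {u : V // u ≠ x} = Fintype.card V - 1 := by
        convert this
      omega
    have h2 : Fintype.card {i : W // i ≠ y ∧ ∀ a, i ≠ σ a} + 4 = Fintype.card W := by
      let S : Finset W := insert y (Finset.univ.image σ)
      have hS : S.card = 4 := by
        rw [Finset.card_insert_of_notMem, Finset.card_image_of_injective]
        · simp
        · intro a b e; exact hp.ry.inj a b e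
        · intro hy
          obtain ⟨a, _, ha⟩ := Finset.mem_image.1 hy
          exact hp.ry.nex a ha
      have h5 : Fintype.card {i : W // i ≠ y ∧ ∀ a, i ≠ σ a} = (Finset.univ \ S).card := by
        rw [Fintype.card_subtype]
        congr 1
        ext i
        simp only [Finset.mem_filter, Finset.mem_univ, true_and, Finset.mem_sdiff, S,
          Finset.mem_insert, Finset.mem_image, not_or, not_exists]
        constructor
        · rintro ⟨a, b⟩
          exact ⟨a, fun c hc => b c hc.symm⟩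
        · rintro ⟨a, b⟩
          exact ⟨a, fun c hc => b c hc.symm⟩
      have h6 : (Finset.univ \ S).card + S.card = Finset.univ.card :=
        Finset.card_sdiff_add_card_eq_card (Finset.subset_univ S)
      rw [h5, ← Finset.card_univ (α := W), ← h6, hS]
    rw [Fintype.card_sum]
    omega
  · rw [hnew, Finset.card_union_of_disjoint disj, Finset.card_image_of_injOn injf,
      Finset.card_image_of_injOn injg, Finset.card_erase_of_mem hx]
    have : 0 < X.card := Finset.card_pos.2 ⟨x, hx⟩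
    omega
  · intro M hM
    rw [hnew, Finset.sum_union disj, Finset.sum_image injf, Finset.sum_image injg]
    have e1 : ∑ u ∈ X.erase x, M (extd y σ g f x lam (fun i => lam x + lv i) (f u)) =
        ∑ u ∈ X.erase x, M (lam u) := by
      refine Finset.sum_congr rfl ?_
      intro u hu
      rw [h.ext_f _ _ (Finset.mem_erase.1 hu).1]
    have e2 : ∑ i ∈ R, M (extd y σ g f x lam (fun i => lam x + lv i) (g i)) ≤
        R.card * M (lam x + 1) := by
      rw [← smul_eq_mul, ← Finset.sum_const]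
      refine Finset.sum_le_sum ?_
      intro i hi
      rw [h.ext_g _ _ (nyR i hi).1 (nyR i hi).2]
      refine hM ?_
      have := hp.lR i hi
      show lam x + 1 ≤ lam x + lv i
      omega
    have e3 : ∑ u ∈ X.erase x, M (lam u) + M (lam x) = ∑ u ∈ X, M (lam u) :=
      Finset.sum_erase_add X _ hx
    rw [e1]
    omega
  · refine Nat.card_le_card_of_injective
      (fun v => ⟨f v.1, ?_, ?_⟩) ?_
    · have hv : v.1 ≠ x := fun e => v.2.2 (e ▸ hx)
      rw [h.ext_f _ _ hv]
      exact v.2.1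
    · have hv : v.1 ≠ x := fun e => v.2.2 (e ▸ hx)
      rw [mf _ hv]
      exact v.2.2
    · intro v w e
      have hv : v.1 ≠ x := fun e => v.2.2 (e ▸ hx)
      have hw : w.1 ≠ x := fun e => w.2.2 (e ▸ hx)
      simp only [Subtype.mk.injEq] at e
      exact Subtype.ext (h.finj _ _ hv hw e)

end

end Run7.h694.Mnh
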