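import Pool.Agent.Run7.h694.Step
import Pool.Agent.Run7.h694.Convert

/-! Iterating the construction. -/

namespace Run7.h694.Mnh

/-- Number of vertices added below a root which has to be treated `k` times. -/
def mm : ℕ → ℕ
  | 0 => 0
  | k + 1 => 23 + 8 * mm k

theorem mm_mono : Monotone mm := by
  refine monotone_nat_of_le_succ ?_
  intro n
  induction n with
  | zero => simp [mm]
  | succ k ih => simp only [mm] at ih ⊢; omega

theorem mm_eq (k : ℕ) : 7 * mm k + 23 = 23 * 8 ^ k := by
  induction k with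
  | zero => simp [mm]
  | succ k ih => simp only [mm, pow_succ]; omega

section

variable {W : Type} [Fintype W] {C : SimpleGraph W} {y : W}
    {σ : Fin 3 → W} {R : Finset W} {rk lv : W → ℕ}

open Classical in
theorem Piece.good (hp : Piece C y σ R rk lv) : Good C (insert y R) rk := by
  refine ⟨hp.nh, hp.mx, hp.g7, ?_, ?_, ?_, ?_, ?_⟩
  · obtain ⟨L, h1, h2, _⟩ := hp.c7
    exact ⟨L, h1, h2⟩
  · intro x hx
    rcases Finset.mem_insert.1 hx with rfl | hx
    · exact ⟨σ, hp.ry⟩
    · exact hp.root x hx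
  · intro x hx z hz
    rcases Finset.mem_insert.1 hx with hx' | hx'
    · rcases Finset.mem_insert.1 hz with hz' | hz'
      · rw [hx', hz']; exact fun e => C.irrefl e
      · rw [hx']; exact hp.yadj z hz'
    · rcases Finset.mem_insert.1 hz with hz' | hz'
      · rw [hz']; exact fun e => hp.yadj x hx' e.symm
      · exact hp.ind x hx' z hz'
  · intro u v hu hv
    rw [Finset.mem_insert, not_or] at hu hv
    exact hp.f1 u v hu.2 hv.2
  · intro u v w hu hv hw
    rw [Finset.mem_insert, not_or] at hu hv hw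
    exact hp.f2 u v w hu.2 hv.2 hw.2

theorem phase1 (hp : Piece C y σ R rk lv) (hW : Fintype.card W = 28) (hR : R.card = 8) (k : ℕ) :
    ∃ (V : Type) (_ : Fintype V) (G : SimpleGraph V) (X : Finset V) (ρ : V → ℕ),
      Good G X ρ ∧ Fintype.card V = 28 + 23 * k ∧ X.card = 9 + 7 * k := by
  classical
  induction k with
  | zero =>
    refine ⟨W, inferInstance, C, insert y R, rk, hp.good, by simp [hW], ?_⟩
    rw [Finset.card_insert_of_notMem hp.yR, hR]
  | succ k ih =>
    obtain ⟨V, _, G, X, ρ, h1, h2, h3⟩ := ih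
    have : 0 < X.card := by omega
    obtain ⟨x, hx⟩ := Finset.card_pos.1 this
    have hl : Lip G (fun _ => 0) := by
      intro u v _
      simp
    obtain ⟨U, _, H, X', ρ', lam', g1, g2, g3, g4, _⟩ := step h1 hl hx hp
    exact ⟨U, inferInstance, H, X', ρ', g1, by omega, by omega⟩

theorem phase2 (hp : Piece C y σ R rk lv) (hW : Fintype.card W = 28) (hR : R.card = 8) (h : ℕ) :
    ∀ (s : ℕ) (V : Type) (_ : Fintype V) (G : SimpleGraph V) (X : Finset V) (ρ lam : V → ℕ),
      Good G X ρ → Lip G lam → ∑ x ∈ X, mm (h + 1 - lam x) = s →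
      ∃ (U : Type) (_ : Fintype U) (H : SimpleGraph U) (X' : Finset U) (ρ' lam' : U → ℕ),
        Good H X' ρ' ∧ Lip H lam' ∧ (∀ x ∈ X', h < lam' x) ∧
        Fintype.card U ≤ Fintype.card V + s ∧ Fintype.card V ≤ Fintype.card U ∧
        Nat.card {v // lam v = 0 ∧ v ∉ X} ≤ Nat.card {p // lam' p = 0 ∧ p ∉ X'} := by
  intro s
  induction s using Nat.strong_induction_on with
  | _ s ih =>
    intro V _ G X ρ lam hG hL hs
    by_cases hall : ∀ x ∈ X, h < lam x
    · exact ⟨V, inferInstance, G, X, ρ, lam, hG, hL, hall, by omega, le_rfl, le_rfl⟩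
    · push Not at hall
      obtain ⟨x, hx, hxl⟩ := hall
      obtain ⟨U, _, H, X', ρ', lam', g1, g2, g3, g4, g5, g6⟩ := step hG hL hx hp
      have hanti : Antitone (fun l => mm (h + 1 - l)) := by
        intro a b hab
        refine mm_mono ?_
        omega
      have g5' := g5 _ hanti
      have e1 : mm (h + 1 - lam x) = 23 + 8 * mm (h + 1 - (lam x + 1)) := by
        have : h + 1 - lam x = (h + 1 - (lam x + 1)) + 1 := by omega
        rw [this, mm]
      rw [e1, hs, hR] at g5'
      obtain ⟨U2, i2, H2, X2, ρ2, lam2, k1, k2, k3, k4, k5, k6⟩ :=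
        ih (∑ p ∈ X', mm (h + 1 - lam' p)) (by omega) U inferInstance H X' ρ' lam' g1 g2 rfl
      exact ⟨U2, i2, H2, X2, ρ2, lam2, k1, k2, k3, by omega, by omega, g6.trans k6⟩

/-- What is used in the end. -/
structure Fine {V : Type} (G : SimpleGraph V) (lam : V → ℕ) (h : ℕ) : Prop where
  nh : ¬ HC G
  mx : ∀ u v, u ≠ v → ¬ G.Adj u v → HP G Set.univ u v
  g7 : ∀ L, CycL G L → 7 ≤ L.length
  c7 : ∃ L, CycL G L ∧ L.length = 7
  lip : Lip G lam
  forest : ∀ L, CycL G L → ∃ w ∈ L, h < lam w

/-- A cycle meets the set of roots. -/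
theorem Good.forest {V : Type} {G : SimpleGraph V} {X : Finset V} {ρ : V → ℕ} (hG : Good G X ρ)
    {L : List V} (hL : CycL G L) : ∃ w ∈ L, w ∈ X := by
  classical
  by_contra hcon
  push Not at hcon
  have hne : L.toFinset.Nonempty := by
    have : L ≠ [] := by
      rintro rfl
      have := hL.2.1
      simp at this
    simpa using this
  obtain ⟨a, haL, hmax⟩ := Finset.exists_max_image L.toFinset ρ hne
  rw [List.mem_toFinset] at haL
  have hmax' : ∀ b ∈ L, ρ b ≤ ρ a := fun b hb => hmax b (List.mem_toFinset.2 hb)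
  obtain ⟨s, t, rfl⟩ := List.append_of_mem haL
  have hc : CycL G (a :: (t ++ s)) := by simpa using hL.rot
  have hsub : ∀ p, p ∈ a :: (t ++ s) → p ∈ s ++ a :: t := by
    intro p hp
    simp only [List.mem_append, List.mem_cons] at hp ⊢
    tauto
  have haX := hcon a haL
  generalize t ++ s = l at hc hsub
  obtain ⟨b, l', rfl⟩ : ∃ b l', l = b :: l' := by
    cases l with
    | nil => have := hc.2.1; simp at this
    | cons b l' => exact ⟨b, l', rfl⟩
  obtain ⟨c, l'', hc''⟩ : ∃ c l'', l' = l'' ++ [c] := by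
    rcases List.eq_nil_or_concat l' with h | ⟨q, c, h⟩
    · subst h; have := hc.2.1; simp at this
    · exact ⟨c, q, by simpa using h⟩
  subst hc''
  have hb : b ∈ a :: b :: (l'' ++ [c]) := by simp
  have hcm : c ∈ a :: b :: (l'' ++ [c]) := by simp
  have hab : G.Adj a b := by
    have := hc.2.2.1
    rw [List.isChain_cons_cons] at this
    exact this.1
  have hca : G.Adj c a := by
    refine hc.2.2.2 c ?_ a (by simp)
    have : a :: b :: (l'' ++ [c]) = (a :: b :: l'') ++ [c] := by simp
    rw [this, List.getLast?_append]; rfl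
  have hbX := hcon b (hsub b hb)
  have hcX := hcon c (hsub c hcm)
  have h1 := hG.f1 a b haX hbX hab
  have h2 := hG.f1 a c haX hcX hca.symm
  have h3 := hmax' b (hsub b hb)
  have h4 := hmax' c (hsub c hcm)
  have h5 := hG.f2 a b c haX hbX hcX hab hca.symm (by omega) (by omega)
  subst h5
  have := (List.nodup_cons.1 (List.nodup_cons.1 hc.1).2).1
  exact this (by simp)

theorem phase3 (hp : Piece C y σ R rk lv) (hW : Fintype.card W = 28) (hR : R.card = 8)
    (h N : ℕ) : ∃ (V : Type) (_ : Fintype V) (G : SimpleGraph V) (lam : V → ℕ),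
      Fine G lam h ∧ N ≤ Fintype.card V ∧
      Fintype.card V ≤ 8 ^ (h + 2) * Nat.card {v // lam v = 0} := by
  classical
  obtain ⟨V, _, G, X, ρ, h1, h2, h3⟩ := phase1 hp hW hR N
  have hl : Lip G (fun _ => 0) := by
    intro u v _
    simp
  obtain ⟨U, _, H, X', ρ', lam', k1, k2, k3, k4, k5, k6⟩ :=
    phase2 hp hW hR h _ V inferInstance G X ρ (fun _ => 0) h1 hl rfl
  refine ⟨U, inferInstance, H, lam', ⟨k1.nh, k1.mx, k1.g7, k1.c7, k2, ?_⟩, by omega, ?_⟩
  · intro L hL
    obtain ⟨w, hw, hwX⟩ := k1.forest hL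
    exact ⟨w, hw, k3 w hwX⟩
  · have e1 : Nat.card {v : V // (0 : ℕ) = 0 ∧ v ∉ X} + X.card = Fintype.card V := by
      have : Nat.card {v : V // (0 : ℕ) = 0 ∧ v ∉ X} = (Finset.univ \ X).card := by
        rw [Nat.card_eq_fintype_card, Fintype.card_subtype]
        congr 1
        ext v
        simp
      rw [this, ← Finset.card_univ]
      exact Finset.card_sdiff_add_card_eq_card (Finset.subset_univ X)
    have e2 : Nat.card {p // lam' p = 0 ∧ p ∉ X'} ≤ Nat.card {p // lam' p = 0} := by
      refine Nat.card_le_card_of_injective (fun p => ⟨p.1, p.2.1⟩) ?_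
      intro p q e
      simp only [Subtype.mk.injEq] at e
      exact Subtype.ext e
    have e3 := k6.trans e2
    have e4 : ∑ x ∈ X, mm (h + 1 - 0) = (9 + 7 * N) * mm (h + 1) := by
      rw [Finset.sum_const, h3, smul_eq_mul, Nat.sub_zero]
    rw [e4] at k4
    have e5 := mm_eq (h + 1)
    have e6 : 19 + 16 * N ≤ Nat.card {p // lam' p = 0} := by omega
    have e7 : 1 ≤ 8 ^ (h + 1) := Nat.one_le_pow _ _ (by norm_num)
    have e8 : 8 ^ (h + 2) = 8 * 8 ^ (h + 1) := by rw [pow_succ' 8 (h + 1)]
    rw [e8]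
    generalize 8 ^ (h + 1) = q at e5 e7
    generalize mm (h + 1) = m at e5 k4
    calc Fintype.card U ≤ Fintype.card V + (9 + 7 * N) * m := k4
      _ = 28 + 23 * N + (9 + 7 * N) * m := by rw [h2]
      _ ≤ 8 * q * (19 + 16 * N) := by nlinarith
      _ ≤ 8 * q * Nat.card {p // lam' p = 0} := Nat.mul_le_mul_left _ e6

/-- Transport to `Fin n`. -/
theorem Fine.transport {V W : Type} {G : SimpleGraph V} {lam : V → ℕ} {h : ℕ}
    (hG : Fine G lam h) (e : V ≃ W) : Fine (G.comap e.symm) (lam ∘ e.symm) h := by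
  have key : ∀ L : List W, CycL (G.comap e.symm) L → CycL G (L.map e.symm) := by
    intro L hL
    refine ⟨hL.1.map e.symm.injective, by simpa using hL.2.1, ?_, ?_⟩
    · rw [List.isChain_map]; exact hL.2.2.1
    · intro a ha b hb
      rw [List.getLast?_map] at ha
      rw [List.head?_map] at hb
      simp only [Option.mem_def, Option.map_eq_some_iff] at ha hb
      obtain ⟨a', ha', rfl⟩ := ha
      obtain ⟨b', hb', rfl⟩ := hb
      exact hL.2.2.2 _ ha' _ hb'
  have key' : ∀ L : List V, CycL G L → CycL (G.comap e.symm) (L.map e) := by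
    intro L hL
    refine ⟨hL.1.map e.injective, by simpa using hL.2.1, ?_, ?_⟩
    · rw [List.isChain_map]
      refine hL.2.2.1.imp ?_
      intro a b hab
      simpa using hab
    · intro a ha b hb
      rw [List.getLast?_map] at ha
      rw [List.head?_map] at hb
      simp only [Option.mem_def, Option.map_eq_some_iff] at ha hb
      obtain ⟨a', ha', rfl⟩ := ha
      obtain ⟨b', hb', rfl⟩ := hb
      simpa using hL.2.2.2 _ ha' _ hb'
  refine ⟨?_, ?_, ?_, ?_, ?_, ?_⟩
  · rintro ⟨L, hL, hf⟩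
    refine hG.nh ⟨L.map e.symm, key L hL, ?_⟩
    intro v
    rw [List.mem_map]
    exact ⟨e v, hf _, by simp⟩
  · intro u v huv hna
    have h1 := hG.mx (e.symm u) (e.symm v) (fun h => huv (e.symm.injective h)) hna
    have h2 := h1.map (H := G.comap e.symm) e (fun a b _ _ hab => e.injective hab)
      (fun a b _ _ hab => by simpa using hab)
    rw [e.apply_symm_apply, e.apply_symm_apply] at h2
    refine h2.congr ?_
    intro w
    simp
  · intro L hL
    have := hG.g7 _ (key L hL)
    simpa using this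
  · obtain ⟨L, hL, hL7⟩ := hG.c7
    exact ⟨L.map e, key' L hL, by simpa using hL7⟩
  · intro u v huv
    exact hG.lip _ _ huv
  · intro L hL
    obtain ⟨w, hw, hlt⟩ := hG.forest _ (key L hL)
    obtain ⟨w', hw', rfl⟩ := List.mem_map.1 hw
    exact ⟨w', hw', hlt⟩

theorem lip_walk {V : Type} {G : SimpleGraph V} {lam : V → ℕ} (hl : Lip G lam) {u v : V}
    (p : G.Walk u v) : lam v ≤ lam u + p.length := by
  induction p with
  | nil => simp
  | cons h q ih =>
    rw [SimpleGraph.Walk.length_cons]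
    have := hl _ _ h.symm
    omega

theorem Fine.ball {V : Type} {G : SimpleGraph V} {lam : V → ℕ} {h : ℕ}
    (hG : Fine G lam h) {v : V} (hv : lam v = 0) :
    (G.induce {w | G.edist v w ≤ h}).IsAcyclic := by
  intro a c hc
  let φ : G.induce {w | G.edist v w ≤ h} →g G := (SimpleGraph.Embedding.induce _).toHom
  have hinj : Function.Injective φ := Subtype.val_injective
  have hc' : (c.map φ).IsCycle := hc.map hinj
  obtain ⟨h1, _⟩ := cycL_of_isCycle hc'
  obtain ⟨w, hw, hlt⟩ := hG.forest _ h1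
  have hw' : w ∈ (c.map φ).support := List.mem_of_mem_tail hw
  rw [SimpleGraph.Walk.support_map, List.mem_map] at hw'
  obtain ⟨w0, _, rfl⟩ := hw'
  have hd : G.edist v (φ w0) ≤ h := w0.2
  have hne : G.edist v (φ w0) ≠ ⊤ := by
    intro e
    rw [e] at hd
    simp at hd
  obtain ⟨p, hp⟩ := SimpleGraph.exists_walk_of_edist_ne_top hne
  have h2 := lip_walk hG.lip p
  rw [← hp] at hd
  have h3 : p.length ≤ h := by exact_mod_cast hd
  omega

/-- The theorem, given the piece. -/
theorem main (hp : Piece C y σ R rk lv) (hW : Fintype.card W = 28) (hR : R.card = 8)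
    (h N : ℕ) : ∃ (n : ℕ) (G : SimpleGraph (Fin n)), N ≤ n ∧
      ¬ G.IsHamiltonian ∧
      (∀ u v : Fin n, u ≠ v → ¬ G.Adj u v → (G ⊔ SimpleGraph.edge u v).IsHamiltonian) ∧
      G.girth = 7 ∧
      n ≤ 8 ^ (h + 2) * Nat.card {v : Fin n // (G.induce {w | G.edist v w ≤ h}).IsAcyclic} := by
  obtain ⟨V, _, G, lam, h1, h2, h3⟩ := phase3 hp hW hR h N
  let e : V ≃ Fin (Fintype.card V) := Fintype.equivFin V
  have hF := h1.transport e
  refine ⟨Fintype.card V, G.comap e.symm, h2, ?_, ?_, girth_seven hF.g7 hF.c7, ?_⟩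
  · intro hH
    refine hF.nh (hc_of_isHamiltonian ?_ hH)
    obtain ⟨L, hL, hL7⟩ := hF.c7
    intro h1
    have := hL.1.length_le_card
    rw [h1] at this
    omega
  · intro u v huv hna
    exact isHamiltonian_of_hp huv hna (hF.mx u v huv hna)
  · refine h3.trans (Nat.mul_le_mul_left _ ?_)
    refine Nat.card_le_card_of_injective (fun v => ⟨e v.1, hF.ball ?_⟩) ?_
    · simp [v.2]
    · intro v w hvw
      simp only [Subtype.mk.injEq] at hvw
      exact Subtype.ext (e.injective hvw)

end

end Run7.h694.Mnh
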